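import Pool.Agent.N208.BT.Stm5

set_option autoImplicit false
set_option linter.unusedSectionVars false

/-!
# A simple submodule of `V₀` for arbitrary signatures (statement G_WA)

Adapted from the file BTWA2 of helper773.
-/

open Module Matrix

noncomputable section

namespace Pool.Agent.N755.BGWA

open Pool.Agent.Y102 Pool.Agent.W516.DR Pool.Agent.H204R3.GP Pool.Agent.W516.KC
  Pool.Agent.H204R3.SP Pool.Agent.TH119.MX Pool.Agent.R917 Pool.Agent.N208.AM Pool.Agent.N208.AD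
  Pool.Agent.N208.BT

variable {g : ℕ} {A : AbVar g}

theorem csmul (c : ℂ) (x : Fin g → ℂ) : c • x = c.re • x + c.im • (Complex.I • x) := by
  conv_lhs => rw [← Complex.re_add_im c]
  rw [add_smul, mul_smul]
  rfl

/-- The orthogonal complement for the positive definite form. -/
def perp (A : AbVar g) (U : Submodule ℝ (Fin g → ℂ)) : Submodule ℝ (Fin g → ℂ) where
  carrier := {x | ∀ y ∈ U, A.PF x y = 0}
  zero_mem' := fun y _ => by rw [map_zero, LinearMap.zero_apply]
  add_mem' := fun {a b} ha hb y hy => by rw [map_add, LinearMap.add_apply, ha y hy, hb y hy, add_zero]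
  smul_mem' := fun c a ha y hy => by rw [map_smul, LinearMap.smul_apply, ha y hy, smul_zero]

theorem mem_perp {U : Submodule ℝ (Fin g → ℂ)} {x : Fin g → ℂ} :
    x ∈ perp A U ↔ ∀ y ∈ U, A.PF x y = 0 := Iff.rfl

theorem eq_zero_of_mem {U : Submodule ℝ (Fin g → ℂ)} {x : Fin g → ℂ} (h1 : x ∈ U)
    (h2 : x ∈ perp A U) : x = 0 := by
  by_contra hne
  have h3 := A.PF_pos hne
  rw [h2 x h1] at h3
  exact lt_irrefl _ h3

theorem isCompl_perp (U : Submodule ℝ (Fin g → ℂ)) : IsCompl U (perp A U) := by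
  have hrefl : LinearMap.BilinForm.IsRefl (A.PF : LinearMap.BilinForm ℝ (Fin g → ℂ)) :=
    fun u v h => by
      have h1 := A.PF_symm u v
      exact h1.symm.trans h
  have h1 : perp A U = LinearMap.BilinForm.orthogonal
      (A.PF : LinearMap.BilinForm ℝ (Fin g → ℂ)) U := by
    ext x
    rw [mem_perp, LinearMap.BilinForm.mem_orthogonal_iff]
    refine forall₂_congr fun y _ => ?_
    rw [A.PF_symm]
  rw [h1, LinearMap.BilinForm.isCompl_orthogonal_iff_disjoint hrefl, ← h1,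
    Submodule.disjoint_def]
  exact fun x hx hx' => eq_zero_of_mem hx hx'

/-- The orthogonal projection. -/
theorem exists_proj (A : AbVar g) (U : Submodule ℝ (Fin g → ℂ)) :
    ∃ e : Module.End ℝ (Fin g → ℂ), (∀ x, e x ∈ U) ∧ (∀ x ∈ U, e x = x) ∧
      (∀ x, e x = 0 → x ∈ perp A U) ∧ ∀ T : Module.End ℝ (Fin g → ℂ), (∀ x ∈ U, T x ∈ U) →
        (∀ x ∈ perp A U, T x ∈ perp A U) → ∀ x, e (T x) = T (e x) := by
  have hc := isCompl_perp (A := A) U
  let e : Module.End ℝ (Fin g → ℂ) := U.subtype.comp (Submodule.projectionOnto U _ hc)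
  have h1 : ∀ x, e x ∈ U := fun x => (Submodule.projectionOnto U _ hc x).2
  have h2 : ∀ x ∈ U, e x = x := fun x hx => by
    have h3 := Submodule.projectionOnto_apply_left hc ⟨x, hx⟩
    exact congrArg Subtype.val h3
  have h3 : ∀ x ∈ perp A U, e x = 0 := fun x hx => by
    have h4 := (Submodule.projectionOnto_apply_eq_zero_iff hc).2 hx
    exact congrArg Subtype.val h4
  have h4 : ∀ x, e x = 0 → x ∈ perp A U := fun x hx =>
    (Submodule.projectionOnto_apply_eq_zero_iff hc).1 (Subtype.ext hx)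
  refine ⟨e, h1, h2, h4, fun T hT hT' x => ?_⟩
  have h5 : x - e x ∈ perp A U := h4 _ (by rw [map_sub, h2 _ (h1 x), sub_self])
  have h6 : e (T (x - e x)) = 0 := h3 _ (hT' _ h5)
  rw [map_sub, map_sub, h2 _ (hT _ (h1 x)), sub_eq_zero] at h6
  exact h6

/-- Submodules for the Lie algebra and `z`. -/
structure Good (A : AbVar g) (z : Module.End ℚ A.H1) (U : Submodule ℝ (Fin g → ℂ)) : Prop where
  stab : ∀ X ∈ A.NA, ∀ x ∈ U, A.ext X x ∈ U
  stabz : ∀ x ∈ U, A.ext z x ∈ U

theorem Good.spE {z : Module.End ℚ A.H1} {U : Submodule ℝ (Fin g → ℂ)} (h : Good A z U)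
    {Y : Module.End ℝ (Fin g → ℂ)} (hY : Y ∈ spE A (A.NA : Set (Module.End ℚ A.H1))) :
    ∀ x ∈ U, Y x ∈ U := by
  induction hY using Submodule.span_induction with
  | mem Y hY =>
    obtain ⟨X, hX, rfl⟩ := hY
    exact h.stab X hX
  | zero => exact fun x _ => U.zero_mem
  | add a b _ _ ha hb => exact fun x hx => U.add_mem (ha x hx) (hb x hx)
  | smul c a _ ha => exact fun x hx => U.smul_mem c (ha x hx)

theorem Good.I {z : Module.End ℚ A.H1} {U : Submodule ℝ (Fin g → ℂ)} (h : Good A z U)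
    {x : Fin g → ℂ} (hx : x ∈ U) : Complex.I • x ∈ U := h.spE JJ_mem x hx

theorem Good.smul {z : Module.End ℚ A.H1} {U : Submodule ℝ (Fin g → ℂ)} (h : Good A z U)
    (c : ℂ) {x : Fin g → ℂ} (hx : x ∈ U) : c • x ∈ U := by
  rw [csmul]
  exact U.add_mem (U.smul_mem _ hx) (U.smul_mem _ (h.I hx))

variable {z : Module.End ℚ A.H1} {al : ℝ}

theorem mem_CR {P : Module.End ℚ A.H1} (hP : P ∈ A.EA) : A.ext P ∈ A.CR A.EA :=
  Submodule.subset_span ⟨P, hP, rfl⟩

theorem zC (h : HQ A z al) (c : ℂ) (x : Fin g → ℂ) : A.ext z (c • x) = c • A.ext z x :=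
  AbVar.CR_complex A.endAlg (mem_CR h.mem) c x

theorem zE (h : HQ A z al) (u v : Fin g → ℂ) : A.E (A.ext z u) v = -A.E u (A.ext z v) := by
  have h2 : A.E.comp (A.ext z) = -(A.E.flip.comp (A.ext z)).flip := by
    refine A.ext_per fun u => A.ext_per fun v => ?_
    change A.E (A.ext z (A.per u)) (A.per v) = -A.E (A.per u) (A.ext z (A.per v))
    rw [A.ext_apply, A.ext_apply, ← A.om_coe, ← A.om_coe, ← Rat.cast_neg]
    congr 1
    linear_combination h.skew u v
  exact congrArg (fun F : (Fin g → ℂ) →ₗ[ℝ] (Fin g → ℂ) →ₗ[ℝ] ℝ => F u v) h2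

theorem zPF (h : HQ A z al) (u v : Fin g → ℂ) : A.PF (A.ext z u) v = -A.PF u (A.ext z v) := by
  rw [A.PF_apply, A.PF_apply, zE h, zC h]

theorem Good.perp (h : HQ A z al) {U : Submodule ℝ (Fin g → ℂ)} (hU : Good A z U) :
    Good A z (perp A U) where
  stab X hX x hx := by
    intro y hy
    have h1 := adj_spE (A := A) (mem_spE hX) x y
    rw [h1]
    apply hx
    rw [th_eq, neg_neg]
    exact hU.I (hU.stab X hX _ (hU.I hy))
  stabz x hx := by
    intro y hy
    rw [zPF h, hx _ (hU.stabz y hy), neg_zero]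

theorem Good.inf {U W : Submodule ℝ (Fin g → ℂ)} (hU : Good A z U) (hW : Good A z W) :
    Good A z (U ⊓ W) where
  stab X hX x hx := ⟨hU.stab X hX x hx.1, hW.stab X hX x hx.2⟩
  stabz x hx := ⟨hU.stabz x hx.1, hW.stabz x hx.2⟩

theorem mem_V0 {x : Fin g → ℂ} : x ∈ V0 A z al ↔ A.ext z (A.ext z x) + (al ^ 2) • x = 0 :=
  LinearMap.mem_ker

theorem V0_stab {T : Module.End ℝ (Fin g → ℂ)} (hT : ∀ x, T (A.ext z x) = A.ext z (T x))
    {x : Fin g → ℂ} (hx : x ∈ V0 A z al) : T x ∈ V0 A z al := by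
  rw [mem_V0] at hx ⊢
  rw [← hT, ← hT, ← map_smul, ← map_add, hx, map_zero]

theorem NA_ext {X P : Module.End ℚ A.H1} (hX : X ∈ A.NA) (hP : P ∈ A.EA) (x : Fin g → ℂ) :
    A.ext X (A.ext P x) = A.ext P (A.ext X x) := by
  have h1 := A.NA_comm hX hP
  have h2 := Pool.Agent.N208.AD.ext_mul (A := A) X P
  rw [h1, Pool.Agent.N208.AD.ext_mul] at h2
  exact (LinearMap.congr_fun h2 x).symm

theorem z_ext (h : HQ A z al) {P : Module.End ℚ A.H1} (hP : P ∈ A.EA) (x : Fin g → ℂ) :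
    A.ext z (A.ext P x) = A.ext P (A.ext z x) := by
  have h1 := h.cen P hP
  have h2 := Pool.Agent.N208.AD.ext_mul (A := A) z P
  rw [h1, Pool.Agent.N208.AD.ext_mul] at h2
  exact (LinearMap.congr_fun h2 x).symm

theorem V0_good (h : HQ A z al) : Good A z (V0 A z al) where
  stab X hX x hx := V0_stab (fun y => NA_ext hX h.mem y) hx
  stabz x hx := V0_stab (fun y => rfl) hx

/-- Nonzero good submodules of `V₀`. -/
def SS (A : AbVar g) (z : Module.End ℚ A.H1) (al : ℝ) : Set (Submodule ℝ (Fin g → ℂ)) :=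
  {U | Good A z U ∧ U ≤ V0 A z al ∧ U ≠ ⊥}

theorem exists_min (h : HQ A z al) : ∃ W ∈ SS A z al, ∀ U ∈ SS A z al, U ≤ W → U = W := by
  obtain ⟨x, hx, hx0⟩ := h.ex
  obtain ⟨W, hW, hmin⟩ := WellFounded.has_min
    (wellFounded_lt (α := Submodule ℝ (Fin g → ℂ))) (SS A z al)
    ⟨V0 A z al, V0_good h, le_rfl, fun h0 => hx0 (by
      rw [h0] at hx
      exact (Submodule.mem_bot ℝ).1 hx)⟩
  refine ⟨W, hW, fun U hU hle => ?_⟩
  by_contra hne
  exact hmin U hU (lt_of_le_of_ne hle hne)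

theorem CR_NA {c : (Fin g → ℂ) →ₗ[ℝ] (Fin g → ℂ)} (hc : c ∈ A.CR A.EA)
    {X : Module.End ℚ A.H1} (hX : X ∈ A.NA) (x : Fin g → ℂ) :
    c (A.ext X x) = A.ext X (c x) := by
  unfold AbVar.CR at hc
  induction hc using Submodule.span_induction with
  | mem w hw =>
    obtain ⟨P, hP, rfl⟩ := hw
    exact (NA_ext hX hP x).symm
  | zero => rw [LinearMap.zero_apply, LinearMap.zero_apply, map_zero]
  | add a b _ _ ha hb => rw [LinearMap.add_apply, LinearMap.add_apply, ha, hb, map_add]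
  | smul r a _ ha => rw [LinearMap.smul_apply, LinearMap.smul_apply, ha, map_smul]

theorem CR_z (h : HQ A z al) {c : (Fin g → ℂ) →ₗ[ℝ] (Fin g → ℂ)} (hc : c ∈ A.CR A.EA)
    (x : Fin g → ℂ) : c (A.ext z x) = A.ext z (c x) := by
  unfold AbVar.CR at hc
  induction hc using Submodule.span_induction with
  | mem w hw =>
    obtain ⟨P, hP, rfl⟩ := hw
    exact (z_ext h hP x).symm
  | zero => rw [LinearMap.zero_apply, LinearMap.zero_apply, map_zero]
  | add a b _ _ ha hb => rw [LinearMap.add_apply, LinearMap.add_apply, ha, hb, map_add]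
  | smul r a _ ha => rw [LinearMap.smul_apply, LinearMap.smul_apply, ha, map_smul]

/-- A real endomorphism in terms of its rational components. -/
theorem Y_eq (Y : (Fin g → ℂ) →ₗ[ℝ] (Fin g → ℂ)) : ∃ (t : Finset (Basis.ofVectorSpaceIndex ℚ ℝ)),
    Y = ∑ k ∈ t, (Basis.ofVectorSpace ℚ ℝ k) •
      A.ext (A.cmpE ((Basis.ofVectorSpace ℚ ℝ).coord k) Y) := by
  classical
  obtain ⟨t, ht⟩ := exists_coords (fun p : Fin (2 * g) × Fin (2 * g) =>
    A.lam.repr (Y (A.lam p.1)) p.2)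
  refine ⟨t, A.lam.ext fun j => ?_⟩
  rw [LinearMap.sum_apply]
  apply A.lam.repr.injective
  ext i
  have h2 := ht (j, i)
  simp only at h2
  rw [h2, map_sum, Finsupp.finsetSum_apply]
  refine Finset.sum_congr rfl fun k _ => ?_
  have h3 : ∀ (c : ℝ) (x : Fin g → ℂ), A.lam.repr (c • x) i = c * A.lam.repr x i := fun c x => by
    rw [map_smul, Finsupp.smul_apply, smul_eq_mul]
  rw [LinearMap.smul_apply, h3, A.ext_lam, A.repr_per, A.cmpE_apply, A.per_bas, mul_comm]
  rfl

/-- Polynomials in `z` on `V₀`. -/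
theorem poly_V0 (q : Polynomial ℚ) : ∃ a b : ℝ, ∀ x ∈ V0 A z al,
    A.ext (Polynomial.aeval z q) x = a • x + b • A.ext z x := by
  have hone : A.ext (1 : Module.End ℚ A.H1) = 1 := by
    refine A.ext_per fun u => ?_
    rw [A.ext_apply]
    rfl
  have hpow : ∀ n : ℕ, ∃ a b : ℝ, ∀ x ∈ V0 A z al,
      A.ext (z ^ n) x = a • x + b • A.ext z x := by
    intro n
    induction n with
    | zero =>
      refine ⟨1, 0, fun x _ => ?_⟩
      rw [pow_zero, hone, one_smul, zero_smul, add_zero]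
      rfl
    | succ n ih =>
      obtain ⟨a, b, hab⟩ := ih
      refine ⟨-(b * al ^ 2), a, fun x hx => ?_⟩
      have h1 := mem_V0.1 hx
      rw [pow_succ', Pool.Agent.N208.AD.ext_mul, Module.End.mul_apply, hab x hx, map_add, map_smul,
        map_smul, eq_neg_of_add_eq_zero_left h1]
      module
  induction q using Polynomial.induction_on' with
  | add p q hp hq =>
    obtain ⟨a, b, h1⟩ := hp
    obtain ⟨a', b', h2⟩ := hq
    refine ⟨a + a', b + b', fun x hx => ?_⟩
    rw [map_add, Pool.Agent.N208.AD.ext_add, LinearMap.add_apply, h1 x hx, h2 x hx]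
    module
  | monomial n r =>
    obtain ⟨a, b, hab⟩ := hpow n
    refine ⟨r * a, r * b, fun x hx => ?_⟩
    rw [Polynomial.aeval_monomial, Algebra.algebraMap_eq_smul_one, smul_mul_assoc, one_mul,
      Pool.Agent.N208.AD.ext_smul, LinearMap.smul_apply, hab x hx]
    module

theorem PF_ext {P : Module.End ℚ A.H1} (hP : P ∈ A.EA) : ∃ Y ∈ A.CR A.EA,
    ∀ u v, A.PF (A.ext P u) v = A.PF u (Y v) := by
  obtain ⟨Y, hY, h1⟩ := AbVar.CR_adj A.endAlg (mem_CR hP)
  refine ⟨Y, hY, fun u v => ?_⟩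
  rw [A.PF_apply, A.PF_apply, h1, AbVar.CR_complex A.endAlg hY]

/-- The submodule generated by `W` over the endomorphism algebra is `V₀`. -/
theorem gen_of (h : HQ A z al) {W : Submodule ℝ (Fin g → ℂ)} (hWg : Good A z W)
    (hW0 : W ≤ V0 A z al) {e0 : Fin g → ℂ} (he0 : e0 ∈ W) (hne : e0 ≠ 0)
    {x : Fin g → ℂ} (hx : x ∈ V0 A z al) :
    x ∈ Submodule.span ℝ {w' | ∃ P ∈ A.EA, ∃ w ∈ W, w' = A.ext P w} := by
  set U := Submodule.span ℝ {w' | ∃ P ∈ A.EA, ∃ w ∈ W, w' = A.ext P w} with hUdef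
  have hWU : ∀ w ∈ W, w ∈ U := fun w hw => Submodule.subset_span ⟨1, A.EA_one, w, hw, by
    have hone : A.ext (1 : Module.End ℚ A.H1) = 1 := by
      refine A.ext_per fun u => ?_
      rw [A.ext_apply]
      rfl
    rw [hone]
    rfl⟩
  have hst : ∀ T : Module.End ℝ (Fin g → ℂ), (∀ P ∈ A.EA, ∀ w ∈ W, T (A.ext P w) ∈ U) →
      ∀ u ∈ U, T u ∈ U := by
    intro T hT u hu
    rw [hUdef] at hu
    induction hu using Submodule.span_induction with
    | mem w hw =>
      obtain ⟨P, hP, w, hw, rfl⟩ := hw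
      exact hT P hP w hw
    | zero => rw [map_zero]; exact U.zero_mem
    | add a b _ _ ha hb => rw [map_add]; exact U.add_mem ha hb
    | smul r a _ ha => rw [map_smul]; exact U.smul_mem r ha
  have hUg : Good A z U := by
    constructor
    · intro X hX
      refine hst _ fun P hP w hw => ?_
      rw [NA_ext hX hP]
      exact Submodule.subset_span ⟨P, hP, _, hWg.stab X hX w hw, rfl⟩
    · refine hst _ fun P hP w hw => ?_
      rw [z_ext h hP]
      exact Submodule.subset_span ⟨P, hP, _, hWg.stabz w hw, rfl⟩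
  have hUE : ∀ Q ∈ A.EA, ∀ u ∈ U, A.ext Q u ∈ U := by
    intro Q hQ
    refine hst _ fun P hP w hw => ?_
    have h1 := LinearMap.congr_fun (Pool.Agent.N208.AD.ext_mul (A := A) Q P) w
    rw [Module.End.mul_apply] at h1
    rw [← h1]
    exact Submodule.subset_span ⟨Q * P, A.EA_mul hQ hP, w, hw, rfl⟩
  have hUC : ∀ Y ∈ A.CR A.EA, ∀ u ∈ U, Y u ∈ U := by
    intro Y hY
    unfold AbVar.CR at hY
    induction hY using Submodule.span_induction with
    | mem Y hY =>
      obtain ⟨Q, hQ, rfl⟩ := hY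
      exact hUE Q hQ
    | zero => exact fun u _ => U.zero_mem
    | add a b _ _ ha hb => exact fun u hu => U.add_mem (ha u hu) (hb u hu)
    | smul r a _ ha => exact fun u hu => U.smul_mem r (ha u hu)
  have hPE : ∀ Q ∈ A.EA, ∀ u ∈ perp A U, A.ext Q u ∈ perp A U := by
    intro Q hQ u hu v hv
    obtain ⟨Y, hY, h1⟩ := PF_ext hQ
    rw [h1]
    exact hu _ (hUC Y hY v hv)
  obtain ⟨p, p1, p2, -, p4⟩ := exists_proj A U
  have hPg := hUg.perp h
  have hpX : ∀ X ∈ A.NA, ∀ u, p (A.ext X u) = A.ext X (p u) := fun X hX =>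
    p4 _ (hUg.stab X hX) (hPg.stab X hX)
  have hpE : ∀ Q ∈ A.EA, ∀ u, p (A.ext Q u) = A.ext Q (p u) := fun Q hQ =>
    p4 _ (hUE Q hQ) (hPE Q hQ)
  -- the rational components
  have hq : ∀ f : ℝ →ₗ[ℚ] ℚ, ∃ q : Polynomial ℚ, ∀ x ∈ V0 A z al,
      A.ext (A.cmpE f p) x = A.ext (Polynomial.aeval z q) x := by
    intro f
    obtain ⟨q, hq⟩ := h.gen _ (fun X hX => (A.cmpE_comm f (hpX X (A.LA_le_NA hX))).symm)
      fun Q hQ => A.cmpE_comm f (hpE Q hQ)
    refine ⟨q, fun x hx => ?_⟩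
    have h1 := mem_V0.1 hx
    have h2 : x = A.ext z (-(al ^ 2)⁻¹ • A.ext z x) := by
      rw [map_smul, eq_neg_of_add_eq_zero_left h1, smul_neg, neg_smul, neg_neg, smul_smul,
        inv_mul_cancel₀ (pow_ne_zero 2 h.ne), one_smul]
    have h3 := Pool.Agent.N208.AD.ext_mul (A := A) (A.cmpE f p) z
    rw [hq, Pool.Agent.N208.AD.ext_mul] at h3
    have h4 := LinearMap.congr_fun h3 (-(al ^ 2)⁻¹ • A.ext z x)
    rw [Module.End.mul_apply, Module.End.mul_apply, ← h2] at h4
    exact h4.symm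
  obtain ⟨t, ht⟩ := Y_eq (A := A) p
  have hab : ∃ a b : ℝ, ∀ x ∈ V0 A z al, p x = a • x + b • A.ext z x := by
    rw [ht]
    clear ht
    classical
    induction t using Finset.induction_on with
    | empty => exact ⟨0, 0, fun x _ => by simp⟩
    | insert k t hk ih =>
      obtain ⟨a, b, h1⟩ := ih
      obtain ⟨q, hq1⟩ := hq ((Basis.ofVectorSpace ℚ ℝ).coord k)
      obtain ⟨a', b', h2⟩ := poly_V0 (A := A) (z := z) (al := al) q
      refine ⟨Basis.ofVectorSpace ℚ ℝ k * a' + a, Basis.ofVectorSpace ℚ ℝ k * b' + b,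
        fun x hx => ?_⟩
      rw [Finset.sum_insert hk, LinearMap.add_apply, h1 x hx, LinearMap.smul_apply, hq1 x hx,
        h2 x hx]
      module
  obtain ⟨a, b, hab⟩ := hab
  have h1 := hab e0 (hW0 he0)
  rw [p2 e0 (hWU e0 he0)] at h1
  have hz2 : A.ext z (A.ext z e0) = -((al ^ 2) • e0) :=
    eq_neg_of_add_eq_zero_left (mem_V0.1 (hW0 he0))
  have h1' : A.ext z e0 = a • A.ext z e0 + b • A.ext z (A.ext z e0) := by
    conv_lhs => rw [h1, map_add, map_smul, map_smul]
  have h2 : ((a - 1) ^ 2 + b ^ 2 * al ^ 2) • e0 = 0 := by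
    have h3 : (a - 1) • e0 + b • A.ext z e0 = 0 := by
      have h4 : (a - 1) • e0 + b • A.ext z e0 = (a • e0 + b • A.ext z e0) - e0 := by module
      rw [h4, ← h1, sub_self]
    have h5 : (a - 1) • A.ext z e0 - (b * al ^ 2) • e0 = 0 := by
      have h4 : (a - 1) • A.ext z e0 - (b * al ^ 2) • e0 =
          (a • A.ext z e0 + b • (-((al ^ 2) • e0))) - A.ext z e0 := by module
      rw [h4, ← hz2, ← h1', sub_self]
    have h6 : ((a - 1) ^ 2 + b ^ 2 * al ^ 2) • e0 = (a - 1) • ((a - 1) • e0 + b • A.ext z e0) -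
        b • ((a - 1) • A.ext z e0 - (b * al ^ 2) • e0) := by module
    rw [h6, h3, h5, smul_zero, smul_zero, sub_zero]
  have h3 := (smul_eq_zero.1 h2).resolve_right hne
  have hal2 : 0 < al ^ 2 := by
    have := h.ne
    positivity
  have h6 : b = 0 := by
    by_contra hb
    have hb2 : 0 < b ^ 2 := by positivity
    nlinarith [sq_nonneg (a - 1), mul_pos hb2 hal2]
  have h7 : a = 1 := by
    rw [h6] at h3
    have h9 : (a - 1) ^ 2 = 0 := by linarith
    have h10 : a - 1 = 0 := pow_eq_zero_iff (two_ne_zero) |>.1 h9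
    linarith
  have h8 := hab x hx
  rw [h6, h7, one_smul, zero_smul, add_zero] at h8
  rw [← h8]
  exact p1 x

/-- **Existence of a simple submodule.** -/
theorem main : Pool.Agent.N208.BT.G_WA := by
  intro g A z al h
  obtain ⟨W, hW, hmin⟩ := exists_min h
  obtain ⟨hWg, hW0, hWne⟩ := id hW
  obtain ⟨e0, he0, hne⟩ := (Submodule.ne_bot_iff W).1 hWne
  refine ⟨W, hW0, hWg.stab, hWg.stabz, fun U hUW h1 h2 => ?_, hWne, fun y hy hyW x hx => ?_⟩
  · by_cases hU : U = ⊥
    · exact Or.inl hU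
    · exact Or.inr (hmin U ⟨⟨h1, h2⟩, hUW.trans hW0, hU⟩ hUW)
  · have h3 := gen_of h hWg hW0 he0 hne hx
    clear hx
    induction h3 using Submodule.span_induction with
    | mem w hw =>
      obtain ⟨P, hP, w, hw, rfl⟩ := hw
      have h4 := LinearMap.congr_fun (hy P hP) w
      rw [Module.End.mul_apply, Module.End.mul_apply, hyW w hw, map_zero] at h4
      exact h4
    | zero => exact map_zero _
    | add a b _ _ ha hb => rw [map_add, ha, hb, add_zero]
    | smul r a _ ha => rw [map_smul, ha, smul_zero]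

end Pool.Agent.N755.BGWA
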