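import Mathlib
import Pool.Agent.N208.CT.Stm

set_option autoImplicit false
set_option linter.unusedSectionVars false

/-!
# CT/DIAG (helper755 for helper208): the central elements are simultaneously diagonal on a motive
-/

open Module Function TensorProduct Matrix

noncomputable section

namespace Pool.Agent.N755.CT

open Pool.Agent.H204R3.SP

section Gen

variable {κ V ν : Type} [Fintype κ] [DecidableEq κ] [AddCommGroup V] [Module ℚ V] [Fintype ν]
  [DecidableEq ν] (β : Basis ν ℚ V)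

/-- the value of the derivation on multilinear forms -/
def dv {R W : Type} [CommRing R] [AddCommGroup W] [Module R W] (X : Module.End R W)
    (φ : MultilinearMap R (fun _ : κ => W) R) (v : κ → W) : R :=
  ∑ k, φ (update v k (X (v k)))

/-- The base change of the derivation. -/
theorem bcm_dv (X : Module.End ℚ V) (φ ψ : MultilinearMap ℚ (fun _ : κ => V) ℚ)
    (h : ∀ v, ψ v = dv X φ v) (v : κ → ℂ ⊗[ℚ] V) :
    bcm (Ω := ℂ) β ψ v = dv (X.baseChange ℂ) (bcm (Ω := ℂ) β φ) v := by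
  let D : MultilinearMap ℂ (fun _ : κ => ℂ ⊗[ℚ] V) ℂ :=
    ∑ k, (bcm (Ω := ℂ) β φ).compLinearMap
      (fun k' => if k' = k then X.baseChange ℂ else LinearMap.id)
  have hD : ∀ v, D v = dv (X.baseChange ℂ) (bcm (Ω := ℂ) β φ) v := by
    intro v
    unfold dv
    change (∑ k, (bcm (Ω := ℂ) β φ).compLinearMap
      (fun k' => if k' = k then X.baseChange ℂ else LinearMap.id)) v = _
    rw [_root_.sum_apply]
    refine Finset.sum_congr rfl fun p _ => ?_
    rw [MultilinearMap.compLinearMap_apply]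
    congr 1
    funext p'
    by_cases hp : p' = p
    · subst hp
      rw [if_pos rfl, update_self]
    · rw [if_neg hp, update_of_ne hp, LinearMap.id_apply]
  have h1 : bcm (Ω := ℂ) β ψ = D := by
    refine Basis.ext_multilinear (fun _ => β.baseChange ℂ) fun I => ?_
    rw [bcm_basis, hD, h]
    unfold dv
    rw [map_sum]
    refine Finset.sum_congr rfl fun k _ => ?_
    rw [← bcm_one (Ω := ℂ) β φ]
    congr 1
    funext l
    by_cases hl : l = k
    · subst hl
      rw [update_self, update_self]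
      change (1 : ℂ) ⊗ₜ[ℚ] X (β (I l)) = (X.baseChange ℂ) (β.baseChange ℂ (I l))
      rw [Basis.baseChange_apply, LinearMap.baseChange_tmul]
    · rw [update_of_ne hl, update_of_ne hl, Basis.baseChange_apply]
  rw [h1, hD]

theorem bcm_comb {n : ℕ} (c : Fin n → ℚ) (φ : Fin n → MultilinearMap ℚ (fun _ : κ => V) ℚ)
    (ψ : MultilinearMap ℚ (fun _ : κ => V) ℚ) (h : ∀ v, ψ v = ∑ b, c b * φ b v)
    (v : κ → ℂ ⊗[ℚ] V) :
    bcm (Ω := ℂ) β ψ v = ∑ b, (c b : ℂ) * bcm (Ω := ℂ) β (φ b) v := by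
  have h1 : bcm (Ω := ℂ) β ψ = ∑ b, (c b : ℂ) • bcm (Ω := ℂ) β (φ b) := by
    refine Basis.ext_multilinear (fun _ => β.baseChange ℂ) fun I => ?_
    rw [bcm_basis, h, map_sum, _root_.sum_apply]
    refine Finset.sum_congr rfl fun b _ => ?_
    rw [map_mul, _root_.smul_apply, bcm_basis, smul_eq_mul]
    rfl
  rw [h1, _root_.sum_apply]
  rfl

theorem bcm_scal (c : ℚ) (φ ψ : MultilinearMap ℚ (fun _ : κ => V) ℚ) (h : ∀ v, ψ v = c * φ v)
    (v : κ → ℂ ⊗[ℚ] V) : bcm (Ω := ℂ) β ψ v = (c : ℂ) * bcm (Ω := ℂ) β φ v := by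
  have h1 : bcm (Ω := ℂ) β ψ = (c : ℂ) • bcm (Ω := ℂ) β φ := by
    refine Basis.ext_multilinear (fun _ => β.baseChange ℂ) fun I => ?_
    rw [bcm_basis, h, map_mul, _root_.smul_apply, bcm_basis, smul_eq_mul]
    rfl
  rw [h1]
  rfl

end Gen

/-- Rows which span give a basis of rows. -/
theorem rows {n : ℕ} {ι : Type} [Finite ι] (f : ι → Fin n → ℂ)
    (hf : ∀ c : Fin n → ℂ, (∀ i, ∑ a, c a * f i a = 0) → c = 0) :
    ∃ J : Fin n → ι, IsUnit (Matrix.of fun j => f (J j)) := by
  classical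
  have := Fintype.ofFinite ι
  have hspan : Submodule.span ℂ (Set.range f) = ⊤ := by
    by_contra hne
    obtain ⟨φ, hφ, hφ2⟩ := Submodule.exists_le_ker_of_lt_top _ (lt_top_iff_ne_top.2 hne)
    apply hφ
    have h1 : ∀ x : Fin n → ℂ, φ x = ∑ a, φ (Pi.single a 1) * x a := by
      intro x
      conv_lhs => rw [← Finset.univ_sum_single x]
      rw [map_sum]
      refine Finset.sum_congr rfl fun a _ => ?_
      have : (Pi.single a (x a) : Fin n → ℂ) = x a • Pi.single a (1 : ℂ) := by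
        rw [← Pi.single_smul, smul_eq_mul, mul_one]
      rw [this, map_smul, smul_eq_mul, mul_comm]
    have h2 := hf (fun a => φ (Pi.single a 1)) fun i => by
      rw [← h1]
      exact hφ2 (Submodule.subset_span ⟨i, rfl⟩)
    ext a
    simpa using congrFun h2 a
  obtain ⟨κ, a, ha, hs, hl⟩ := exists_linearIndependent' ℂ f
  rw [hspan] at hs
  have : Finite κ := Finite.of_injective a ha
  let B : Basis κ ℂ (Fin n → ℂ) := Basis.mk hl (by rw [hs])
  let e : Fin n ≃ κ := (Pi.basisFun ℂ (Fin n)).indexEquiv B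
  refine ⟨fun j => a (e j), ?_⟩
  rw [← Matrix.linearIndependent_rows_iff_isUnit]
  exact hl.comp e e.injective

/-- The general form. -/
theorem gen {V ν : Type} [AddCommGroup V] [Module ℚ V] [Fintype ν] [DecidableEq ν]
    (β : Basis ν ℚ V) {s n : ℕ} (r : Fin s → ℕ)
    (B : Fin n → ∀ i : Fin s, MultilinearMap ℚ (fun _ : Fin (r i) => V) ℚ)
    (hB : LinearIndependent ℚ B) {m : ℕ} (b : Basis (Fin m) ℂ (ℂ ⊗[ℚ] V)) :
    ∃ (S S' : Matrix (Fin n) (Fin n) ℂ) (J : Fin n → Σ i : Fin s, (Fin (r i) → Fin m)),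
    S * S' = 1 ∧ S' * S = 1 ∧
    (∀ (M : Matrix (Fin n) (Fin n) ℚ) (θ : (Σ i : Fin s, (Fin (r i) → Fin m)) → ℂ),
      (∀ (p : Σ i : Fin s, (Fin (r i) → Fin m)) (a : Fin n),
        ∑ c, (M c a : ℂ) * bcm (Ω := ℂ) β (B c p.1) (fun k => b (p.2 k)) =
          θ p * bcm (Ω := ℂ) β (B a p.1) (fun k => b (p.2 k))) →
      M.map (fun q => (q : ℂ)) = S * Matrix.diagonal (fun j => θ (J j)) * S') := by
  classical
  have key : ∀ c : Fin n → ℂ, (∀ p : Σ i : Fin s, (Fin (r i) → Fin m),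
      ∑ a, c a * bcm (Ω := ℂ) β (B a p.1) (fun k => b (p.2 k)) = 0) → c = 0 := by
    intro c hc
    have h1 : ∀ i, ∑ a, c a • bcm (Ω := ℂ) β (B a i) = 0 := by
      intro i
      refine Basis.ext_multilinear (fun _ => b) fun I => ?_
      rw [_root_.sum_apply]
      exact hc ⟨i, I⟩
    funext a
    change c a = 0
    rw [← Module.forall_dual_apply_eq_zero_iff ℚ]
    intro π
    have h2 : ∑ a, π (c a) • B a = 0 := by
      funext i
      rw [Finset.sum_apply]
      refine Basis.ext_multilinear (fun _ => β) fun I => ?_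
      rw [_root_.sum_apply]
      have h3 := congrArg (fun F : MultilinearMap ℂ (fun _ : Fin (r i) => ℂ ⊗[ℚ] V) ℂ =>
        F (fun l => β.baseChange ℂ (I l))) (h1 i)
      simp only [_root_.sum_apply, _root_.smul_apply, _root_.zero_apply,
        bcm_basis] at h3
      have h4 := congrArg π h3
      rw [map_sum, map_zero] at h4
      change ∑ a, π (c a) * B a i (fun l => β (I l)) = 0
      rw [← h4]
      refine Finset.sum_congr rfl fun a _ => ?_
      rw [smul_eq_mul, mul_comm (c a), ← Algebra.smul_def, map_smul, smul_eq_mul, mul_comm]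
    exact Fintype.linearIndependent_iff.1 hB _ h2 a
  obtain ⟨J, hJ⟩ := rows (fun (p : Σ i : Fin s, (Fin (r i) → Fin m)) (a : Fin n) =>
    bcm (Ω := ℂ) β (B a p.1) (fun k => b (p.2 k))) key
  obtain ⟨u, hu⟩ := hJ
  refine ⟨((u⁻¹ : (Matrix (Fin n) (Fin n) ℂ)ˣ) : Matrix (Fin n) (Fin n) ℂ), u, J,
    Units.inv_mul u, Units.mul_inv u, ?_⟩
  intro M θ h
  have h1 : (u : Matrix (Fin n) (Fin n) ℂ) * M.map (fun q => (q : ℂ)) =
      Matrix.diagonal (fun j => θ (J j)) * u := by
    rw [hu]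
    ext j a
    rw [Matrix.mul_apply, Matrix.diagonal_mul]
    simp only [Matrix.of_apply, Matrix.map_apply]
    rw [← h]
    exact Finset.sum_congr rfl fun c _ => mul_comm _ _
  rw [mul_assoc, ← h1, ← mul_assoc, Units.inv_mul, one_mul]

open Pool.Agent.Y102 Pool.Agent.N208.AM in
theorem main : Pool.Agent.N208.CT.S_DIAG := by
  intro g A s n r B w Wt hB hW m b χ hχ
  obtain ⟨S, S', J, h1, h2, h3⟩ := gen A.bas r B hB b
  refine ⟨S, S', J, h1, h2, fun X M hM => ?_, ?_⟩
  · refine h3 M (fun p => ∑ k, χ (p.2 k) X) fun p a => ?_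
    rw [← bcm_comb A.bas (fun c => M c a) (fun c => B c p.1) (dact X (B a p.1)) (fun v => ?_),
      bcm_dv A.bas (X : Module.End ℚ A.H1) (B a p.1) (dact X (B a p.1))
        (fun v => dact_apply _ _ _)]
    · unfold dv
      rw [Finset.sum_mul]
      refine Finset.sum_congr rfl fun k _ => ?_
      rw [hχ, MultilinearMap.map_update_smul, smul_eq_mul, update_eq_self]
    · rw [hM a p.1, _root_.sum_apply]
      rfl
  · refine h3 Wt (fun p => (r p.1 : ℂ) - 2 * w p.1) fun p a => ?_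
    have h4 := bcm_scal A.bas ((r p.1 : ℚ) - 2 * w p.1) (B a p.1)
      (((r p.1 : ℚ) - 2 * w p.1) • B a p.1) (fun v => rfl) (fun k => b (p.2 k))
    rw [← bcm_comb A.bas (fun c => Wt c a) (fun c => B c p.1)
      (((r p.1 : ℚ) - 2 * w p.1) • B a p.1) (fun v => ?_), h4]
    · push_cast
      rfl
    · rw [hW a p.1, _root_.sum_apply]
      rfl

end Pool.Agent.N755.CT
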