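import Pool.Agent.N906.NT.Stm

/-!
# NT/UPA: the upper bound, gains near the threshold (written by helper755)
-/

set_option autoImplicit false

namespace Pool.Agent.N755.NT

open Finset Filter Topology Pool.Agent.N906.NT

theorem cst_pow {r : ℕ} (t : ℕ) (hr : 1 ≤ r) :
    cst r t ^ (r + 1) = (((r : ℝ) + 1) / r) ^ (2 * r + 1) * t := by
  have hr0 : (0 : ℝ) < r := by exact_mod_cast hr
  have hr1 : (r : ℝ) + 1 ≠ 0 := by positivity
  unfold cst
  rw [mul_pow]
  congr 1
  · rw [← Real.rpow_natCast (_ ^ _) (r + 1), ← Real.rpow_mul (by positivity),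
      ← Real.rpow_natCast _ (2 * r + 1)]
    congr 1
    push_cast
    field_simp
  · rw [← Real.rpow_natCast (_ ^ _) (r + 1), ← Real.rpow_mul (by positivity)]
    push_cast
    rw [one_div, inv_mul_cancel₀ hr1, Real.rpow_one]

theorem cst_pos {r t : ℕ} (hr : 1 ≤ r) (ht : 1 ≤ t) : 0 < cst r t := by
  have hr0 : (0 : ℝ) < r := by exact_mod_cast hr
  have ht0 : (0 : ℝ) < t := by exact_mod_cast ht
  unfold cst
  positivity

theorem rpow_frac {y : ℝ} {r : ℕ} (hy : 0 ≤ y) :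
    (y ^ ((r : ℝ) / (r + 1))) ^ (r + 1) = y ^ r := by
  rw [← Real.rpow_natCast (_ ^ _) (r + 1), ← Real.rpow_mul hy, ← Real.rpow_natCast y r]
  congr 1
  push_cast
  field_simp

/-- the choice of `u` -/
theorem num {r t : ℕ} {κ ε u₀ : ℝ} (hr : 1 ≤ r) (ht : 1 ≤ t) (hκ : 0 < κ) (hε : 0 < ε)
    (hu₀ : 0 < u₀) :
    ∀ᶠ x : ℝ in atTop, ∃ u : ℝ, 0 < u ∧ u < u₀ ∧
      u * κ * x + (1 + ε) * t / (r * (r * (u * Real.log (1 / u))) ^ r) ≤
        (1 + ε) * cst r t * (κ * x / Real.log x) ^ ((r : ℝ) / (r + 1)) := by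
  have hr0 : (0 : ℝ) < r := by exact_mod_cast hr
  have ht0 : (0 : ℝ) < t := by exact_mod_cast ht
  obtain ⟨c, hc⟩ : ∃ c : ℝ, c = t * (((r : ℝ) + 1) / r) ^ r := ⟨_, rfl⟩
  have hc0 : 0 < c := by rw [hc]; positivity
  filter_upwards [Real.tendsto_log_atTop.eventually_ge_atTop (c / κ),
    eventually_gt_atTop (1 / u₀ ^ (r + 1)), Real.tendsto_log_atTop.eventually_ge_atTop 1,
    eventually_ge_atTop (1 : ℝ)] with x h1 h2 h3 h4
  have hx0 : 0 < x := by linarith
  obtain ⟨l, hl⟩ : ∃ l : ℝ, l = Real.log x := ⟨_, rfl⟩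
  rw [← hl] at h1 h3 ⊢
  have hl0 : 0 < l := by linarith
  obtain ⟨u, hu⟩ : ∃ u : ℝ, u = (c / (κ * x * l ^ r)) ^ (1 / ((r : ℝ) + 1)) := ⟨_, rfl⟩
  have hq0 : 0 < c / (κ * x * l ^ r) := by positivity
  have hu0 : 0 < u := by rw [hu]; exact Real.rpow_pos_of_pos hq0 _
  have hu2 : u ^ (r + 1) = c / (κ * x * l ^ r) := by
    rw [hu, ← Real.rpow_natCast (_ ^ _) (r + 1), ← Real.rpow_mul hq0.le]
    push_cast
    rw [one_div, inv_mul_cancel₀ (by positivity), Real.rpow_one]
  have hll : c / κ ≤ l ^ r := by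
    refine h1.trans ?_
    calc l = l ^ 1 := (pow_one l).symm
      _ ≤ l ^ r := pow_le_pow_right₀ h3 hr
  have hux : u ^ (r + 1) ≤ 1 / x := by
    rw [hu2, div_le_div_iff₀ (by positivity) hx0]
    rw [div_le_iff₀ hκ] at hll
    nlinarith
  refine ⟨u, hu0, ?_, ?_⟩
  · refine lt_of_pow_lt_pow_left₀ (r + 1) hu₀.le (hux.trans_lt ?_)
    rw [div_lt_iff₀ hx0]
    rw [div_lt_iff₀ (by positivity)] at h2
    linarith
  · have hlog : l / (r + 1) ≤ Real.log (1 / u) := by
      have h6 : x ≤ (1 / u) ^ (r + 1) := by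
        rw [div_pow, one_pow, le_div_iff₀ (by positivity)]
        rw [le_div_iff₀ hx0] at hux
        linarith
      have h7 := Real.log_le_log hx0 h6
      rw [Real.log_pow, ← hl] at h7
      push_cast at h7
      rw [div_le_iff₀ (by positivity)]
      linarith
    obtain ⟨a, ha⟩ : ∃ a : ℝ, a = u * κ * x := ⟨_, rfl⟩
    have ha0 : 0 < a := by rw [ha]; positivity
    have h8 : (t : ℝ) / (r * (r * (u * Real.log (1 / u))) ^ r) ≤ a / r := by
      have h9 : 0 < Real.log (1 / u) := lt_of_lt_of_le (by positivity) hlog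
      have h10 : (t : ℝ) ≤ a * (r * (u * (l / (r + 1)))) ^ r := by
        have h11 : a * (r * (u * (l / (r + 1)))) ^ r =
            u ^ (r + 1) * (κ * x * l ^ r) * (r / (r + 1)) ^ r := by
          rw [ha, mul_pow, mul_pow, div_pow, div_pow, pow_succ]
          ring
        rw [h11, hu2, div_mul_cancel₀ _ (by positivity), hc, mul_assoc, ← mul_pow]
        have : ((r : ℝ) + 1) / r * (r / (r + 1)) = 1 := by field_simp
        rw [this, one_pow, mul_one]
      have h12 : a * (r * (u * (l / (r + 1)))) ^ r ≤ a * (r * (u * Real.log (1 / u))) ^ r := by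
        apply mul_le_mul_of_nonneg_left _ ha0.le
        apply pow_le_pow_left₀ (by positivity)
        apply mul_le_mul_of_nonneg_left _ hr0.le
        exact mul_le_mul_of_nonneg_left hlog hu0.le
      rw [div_le_div_iff₀ (by positivity) hr0]
      nlinarith
    have hS : cst r t * (κ * x / l) ^ ((r : ℝ) / (r + 1)) = ((r + 1) / r) * a := by
      refine (pow_left_inj₀ (n := r + 1) (by have := cst_pos hr ht; positivity) (by positivity) (by omega)).1 ?_
      rw [mul_pow, cst_pow t hr, rpow_frac (by positivity), mul_pow, ha]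
      have e1 : (u * κ * x) ^ (r + 1) = u ^ (r + 1) * (κ * x) ^ (r + 1) := by
        rw [mul_assoc, mul_pow]
      rw [e1, hu2, hc, div_pow (κ * x) l r, show 2 * r + 1 = (r + 1) + r by ring, pow_add,
        pow_succ (κ * x) r]
      field_simp
    rw [mul_assoc (1 + ε) (cst r t), hS, ← ha, mul_div_assoc]
    have e2 : (1 + ε) * (((r : ℝ) + 1) / r * a) = (1 + ε) * a + (1 + ε) * (a / r) := by
      field_simp
    rw [e2]
    have e3 : (1 + ε) * ((t : ℝ) / (r * (r * (u * Real.log (1 / u))) ^ r)) ≤ (1 + ε) * (a / r) :=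
      mul_le_mul_of_nonneg_left h8 (by positivity)
    nlinarith

theorem tend {κ : ℝ} (hκ : 0 < κ) : Tendsto (fun x : ℝ => κ * x / Real.log x) atTop atTop := by
  rw [tendsto_atTop]
  intro K
  have hc : (0 : ℝ) < κ / (|K| + 1) := by positivity
  have e1 := (Real.isLittleO_log_id_atTop).bound hc
  filter_upwards [e1, eventually_ge_atTop (2 : ℝ),
    Real.tendsto_log_atTop.eventually_ge_atTop 1] with x h1 h3 h4
  have hx0 : 0 < x := by linarith
  have hl0 : 0 < Real.log x := by linarith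
  rw [Real.norm_of_nonneg hl0.le, id, Real.norm_of_nonneg hx0.le, div_mul_eq_mul_div,
    le_div_iff₀ (by positivity)] at h1
  rw [le_div_iff₀ hl0]
  have := le_abs_self K
  nlinarith

/-- a constant is smaller than the second term -/
theorem big {r : ℕ} {κ δ : ℝ} (A : ℝ) (hr : 1 ≤ r) (hκ : 0 < κ) (hδ : 0 < δ) :
    ∀ᶠ x : ℝ in atTop, A ≤ Real.exp (δ * (κ * x / Real.log x) ^ ((r : ℝ) / (r + 1))) := by
  have hr0 : (0 : ℝ) < r := by exact_mod_cast hr
  have h1 : Tendsto (fun y : ℝ => y ^ ((r : ℝ) / (r + 1))) atTop atTop :=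
    tendsto_rpow_atTop (by positivity)
  have h2 := Real.tendsto_exp_atTop.comp ((h1.comp (tend hκ)).const_mul_atTop hδ)
  exact h2.eventually_ge_atTop A

theorem cx_Dl {n r : ℕ} (hr : 1 ≤ r) (hrn : r ≤ n) : Cx (Dl n r) r (n.choose r) := by
  refine ⟨hr, Nat.choose_pos hrn, ?_, ?_, ?_, ?_⟩
  · simp [Dl]
  · intro s hs s' hs'
    simp only [Dl, mem_filter, mem_univ, true_and] at hs ⊢
    exact (card_le_card hs').trans hs
  · intro s hs
    simp only [Dl, mem_filter, mem_univ, true_and] at hs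
    exact hs
  · have : (Dl n r).filter (fun s => s.card = r) = univ.powersetCard r := by
      ext s
      simp only [Dl, mem_filter, mem_univ, true_and, mem_powersetCard, subset_univ]
      constructor
      · rintro ⟨_, h⟩; exact h
      · rintro h; exact ⟨h.le, h⟩
    rw [this, card_powersetCard, card_univ, Fintype.card_fin]

theorem pr_pos {n : ℕ} {D : Fin n → ℕ} (h : ∀ i, 1 ≤ D i) : 0 < pr D :=
  Finset.prod_pos fun i _ => h i

theorem rr_pos {n : ℕ} (D : Fin n → ℕ) : 0 < rr D :=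
  Finset.prod_pos fun _ hp => (Nat.prime_of_mem_primeFactors hp).pos

theorem gn_mul {n : ℕ} (D : Fin n → ℕ) : gn D * rr D = pr D := by
  have : (rr D : ℝ) ≠ 0 := by exact_mod_cast (rr_pos D).ne'
  unfold gn
  field_simp

theorem rr_le_gn {n : ℕ} {D : Fin n → ℕ} (h : ∀ i, 1 ≤ D i) (hs : Sq D) : (rr D : ℝ) ≤ gn D := by
  have h1 : rr D ^ 2 ∣ pr D := by
    unfold rr
    rw [← Finset.prod_pow]
    refine Finset.prod_dvd_of_isRelPrime (fun p hp q hq hpq => ?_) fun p hp => ?_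
    · have hp' := Nat.prime_of_mem_primeFactors hp
      have hq' := Nat.prime_of_mem_primeFactors hq
      exact Nat.coprime_iff_isRelPrime.1 (Nat.Coprime.pow 2 2 ((Nat.coprime_primes hp' hq').2 hpq))
    · exact hs p (Nat.prime_of_mem_primeFactors hp) (Nat.dvd_of_mem_primeFactors hp)
  have h2 : rr D ^ 2 ≤ pr D := Nat.le_of_dvd (pr_pos h) h1
  have h3 : (rr D : ℝ) ^ 2 ≤ pr D := by exact_mod_cast h2
  have h4 : (0 : ℝ) < rr D := by exact_mod_cast rr_pos D
  unfold gn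
  rw [le_div_iff₀ h4]
  linarith [sq (rr D : ℝ)]

theorem upa (h1 : S_SEQ) (h2 : S_GUPN) : S_UPA := by
  classical
  intro n r κ η ε hr hrn hκ hη hκη hε
  obtain ⟨C, hC, hseq⟩ := h1 n (by omega)
  have hcx := cx_Dl (n := n) hr (by omega : r ≤ n)
  obtain ⟨t, ht⟩ : ∃ t, t = n.choose r := ⟨_, rfl⟩
  rw [← ht] at hcx ⊢
  have ht1 : 1 ≤ t := hcx.2.1
  have hcst := cst_pos hr ht1
  obtain ⟨u₀, hu₀, hu₀2, hgen⟩ := h2 n (Dl n r) r t 1 0 (ε / 2) hcx one_pos le_rfl
    (by norm_num) (half_pos hε)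
  have hev := (num hr ht1 hκ (half_pos hε) hu₀).and ((big (C * (2 * 2 ^ n)) hr hκ
    (show 0 < ε / 2 * cst r t by positivity)).and (eventually_ge_atTop (2 : ℝ)))
  obtain ⟨L₀, hL₀⟩ := eventually_atTop.1 hev
  refine ⟨max (Real.exp L₀) 4, lt_max_of_lt_right (by norm_num), ?_⟩
  intro X T B l F hX hT1 hTX hB hBl hprod hF
  have hX4 : 4 ≤ X := (le_max_right _ _).trans hX
  have hX0 : 0 < X := by linarith
  have hX1 : 1 ≤ X := by linarith
  have hT0 : 0 < T := by linarith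
  obtain ⟨L, hL⟩ : ∃ L : ℝ, L = Real.log X := ⟨_, rfl⟩
  have hLL : L₀ ≤ L := by
    rw [hL, Real.le_log_iff_exp_le hX0]
    exact (le_max_left _ _).trans hX
  obtain ⟨⟨u, hu0, huu, hunum⟩, hAs, hL2⟩ := hL₀ L hLL
  rw [← hL]
  obtain ⟨S, hS⟩ : ∃ S : ℝ, S = cst r t * (κ * L / Real.log L) ^ ((r : ℝ) / (r + 1)) := ⟨_, rfl⟩
  have hS0 : 0 ≤ S := by
    rw [hS]
    have : 0 < Real.log L := Real.log_pos (by linarith)
    positivity
  have hunum' : u * κ * L + (1 + ε / 2) * t / (r * (r * (u * Real.log (1 / u))) ^ r) ≤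
      (1 + ε / 2) * S := by rw [hS, ← mul_assoc (1 + ε / 2)]; exact hunum
  have hAs' : C * (2 * 2 ^ n) ≤ Real.exp (ε / 2 * S) := by rw [hS, ← mul_assoc (ε / 2)]; exact hAs
  have hgoal : (1 + ε) * cst r t * (κ * L / Real.log L) ^ ((r : ℝ) / (r + 1)) = (1 + ε) * S := by
    rw [hS]; ring
  rw [hgoal]
  have hu1 : u < 1 := by linarith
  obtain ⟨β, hβ⟩ : ∃ β : ℝ, β = 2 ^ n * T * X ^ (1 - κ) := ⟨_, rfl⟩
  have hXk : 1 ≤ X ^ (1 - κ) := Real.one_le_rpow hX1 (by linarith)
  have h2n : (1 : ℝ) ≤ 2 ^ n := one_le_pow₀ (by norm_num)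
  have hβ1 : 1 ≤ β := by
    rw [hβ]
    nlinarith [mul_le_mul h2n hT1 zero_le_one (by positivity)]
  have hβ0 : 0 < β := by linarith
  have hn1 : 1 ≤ n := by omega
  have hβB : ∀ k, β ≤ B k := by
    intro k
    have e1 : B k * ∏ j ∈ univ.erase k, B j = ∏ j, B j := Finset.mul_prod_erase univ B (mem_univ k)
    have e2 : ∏ j ∈ univ.erase k, B j ≤ X ^ (n - 1) := by
      calc ∏ j ∈ univ.erase k, B j ≤ ∏ j ∈ univ.erase k, X :=
            Finset.prod_le_prod (fun j _ => by linarith [(hB j).1]) fun j _ => (hB j).2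
        _ = X ^ (n - 1) := by
            rw [Finset.prod_const, Finset.card_erase_of_mem (mem_univ k), Finset.card_univ,
              Fintype.card_fin]
    have e3 : X ^ ((n : ℝ) - κ) = X ^ (1 - κ) * X ^ (n - 1) := by
      rw [← Real.rpow_natCast X (n - 1), ← Real.rpow_add hX0]
      congr 1
      push_cast [Nat.cast_sub hn1]
      ring
    have e4 : β * X ^ (n - 1) ≤ B k * X ^ (n - 1) := by
      calc β * X ^ (n - 1) = ∏ j, B j := by rw [hprod, e3, hβ]; ring
        _ = B k * ∏ j ∈ univ.erase k, B j := e1.symm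
        _ ≤ B k * X ^ (n - 1) := mul_le_mul_of_nonneg_left e2 (by linarith [(hB k).1])
    exact le_of_mul_le_mul_right e4 (by positivity)
  obtain ⟨P, hP⟩ : ∃ P : ℝ, P = ∏ k ∈ univ.erase l, B k := ⟨_, rfl⟩
  have hPeq : P = 2 ^ n * T * X ^ ((n : ℝ) - 1 - κ) := by
    have e1 : B l * ∏ j ∈ univ.erase l, B j = ∏ j, B j := Finset.mul_prod_erase univ B (mem_univ l)
    rw [hBl, ← hP, hprod] at e1
    have e3 : X ^ ((n : ℝ) - κ) = X * X ^ ((n : ℝ) - 1 - κ) := by
      rw [← Real.rpow_one_add' hX0.le]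
      · congr 1; ring
      · have : (2 : ℝ) < n := by
          have : 3 ≤ n := by omega
          have : (3 : ℝ) ≤ n := by exact_mod_cast this
          linarith
        linarith
    have e4 : X * P = X * (2 ^ n * T * X ^ ((n : ℝ) - 1 - κ)) := by
      rw [e1, e3]; ring
    exact mul_left_cancel₀ hX0.ne' e4
  have hP0 : 0 < P := by rw [hPeq]; positivity
  -- the divisors
  have hn' : ∀ x : Fin n → ℤ, ∃ D : Fin n → ℕ, x ∈ F → (∀ i, (D i : ℤ) ∣ x i) ∧ Tp (Dl n r) D ∧
      Sq D ∧ T ≤ gn D ∧ gn D ≤ T * X ^ η := by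
    intro x
    by_cases hx : x ∈ F
    · obtain ⟨D, hD⟩ := (hF x hx).2.2
      exact ⟨D, fun _ => hD⟩
    · exact ⟨fun _ => 0, fun h => absurd h hx⟩
  choose nn hnn using hn'
  have hD : ∀ D ∈ F.image nn, Tp (Dl n r) D ∧ Sq D ∧ T ≤ gn D ∧ gn D ≤ T * X ^ η := by
    intro D hD
    obtain ⟨x, hx, rfl⟩ := mem_image.1 hD
    exact (hnn x hx).2
  have hprD : ∀ D ∈ F.image nn, (pr D : ℝ) ≤ β := by
    intro D hDm
    obtain ⟨q1, q2, q3, q4⟩ := hD D hDm
    have e1 := rr_le_gn q1.1 q2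
    have hg0 : 0 ≤ gn D := by linarith
    have e2 : (pr D : ℝ) ≤ (T * X ^ η) * (T * X ^ η) := by
      rw [← gn_mul D]
      exact mul_le_mul q4 (e1.trans q4) (Nat.cast_nonneg _) (by positivity)
    refine e2.trans ?_
    rw [hβ]
    have e3 : T * (X ^ η * X ^ η) ≤ X ^ (1 - κ) := by
      calc T * (X ^ η * X ^ η) ≤ X ^ κ * (X ^ η * X ^ η) :=
            mul_le_mul_of_nonneg_right hTX (by positivity)
        _ = X ^ (κ + (η + η)) := by rw [← Real.rpow_add hX0, ← Real.rpow_add hX0]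
        _ ≤ X ^ (1 - κ) := Real.rpow_le_rpow_of_exponent_le hX1 (by linarith)
    calc (T * X ^ η) * (T * X ^ η) = T * (T * (X ^ η * X ^ η)) := by ring
      _ ≤ T * X ^ (1 - κ) := mul_le_mul_of_nonneg_left e3 hT0.le
      _ = 1 * (T * X ^ (1 - κ)) := by ring
      _ ≤ 2 ^ n * (T * X ^ (1 - κ)) := mul_le_mul_of_nonneg_right h2n (by positivity)
      _ = _ := by ring
  have hcard : (F.card : ℝ) ≤ ∑ D ∈ F.image nn, (C * P * (2 / (pr D : ℝ))) := by
    rw [card_eq_sum_card_image nn F]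
    push_cast
    refine Finset.sum_le_sum fun D hDm => ?_
    obtain ⟨q1, q2, q3, q4⟩ := hD D hDm
    have hpr0 : (0 : ℝ) < pr D := by exact_mod_cast pr_pos q1.1
    have hprβ := hprD D hDm
    have := hseq D l B β q1.1 (fun p hp => by
      by_contra hcon
      push Not at hcon
      have r1 := q1.2 p hp
      have r2 : (univ.filter fun i => p ∣ D i) = univ := by
        ext i; simp [hcon i]
      rw [r2] at r1
      simp only [Dl, mem_filter, mem_univ, true_and, Finset.card_univ, Fintype.card_fin] at r1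
      omega) hβ1 (fun k _ => hβB k) (by nlinarith) {x ∈ F | nn x = D} (by
      intro x hx
      rw [mem_filter] at hx
      obtain ⟨hxF, rfl⟩ := hx
      exact ⟨(hF x hxF).1, (hnn x hxF).1, fun k _ => ((hF x hxF).2.1 k).2⟩)
    rw [← hP] at this
    refine this.trans ?_
    apply mul_le_mul_of_nonneg_left _ (by positivity)
    have : 1 / β ≤ 1 / (pr D : ℝ) := one_div_le_one_div_of_le hpr0 hprβ
    have e5 : 2 / (pr D : ℝ) = 1 / (pr D : ℝ) + 1 / (pr D : ℝ) := by ring
    rw [e5]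
    linarith
  -- the sum
  have p1 : T * ∑ D ∈ F.image nn, (1 / (pr D : ℝ)) ≤
      T ^ u * Real.exp ((1 + ε / 2) * t / (r * (r * (u * Real.log (1 / u))) ^ r)) := by
    have g := hgen u hu0 huu (F.image nn) (fun D hDm => ⟨(hD D hDm).1, (hD D hDm).2.1⟩)
    rw [mul_one] at g
    refine le_trans ?_ (mul_le_mul_of_nonneg_left g (by positivity))
    rw [Finset.mul_sum, Finset.mul_sum]
    refine Finset.sum_le_sum fun D hDm => ?_
    obtain ⟨q1, q2, q3, q4⟩ := hD D hDm
    have hg0 : 0 < gn D := by linarith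
    have hr0 : (0 : ℝ) < rr D := by exact_mod_cast rr_pos D
    rw [one_pow, one_mul, zero_mul, sub_zero, Real.rpow_neg_one, ← gn_mul D]
    have k1 : T / gn D ≤ T ^ u * gn D ^ (-u) := by
      have k2 : T / gn D ≤ 1 := (div_le_one hg0).2 q3
      have k3 : T ^ u * gn D ^ (-u) = (T / gn D) ^ u := by
        rw [Real.div_rpow hT0.le hg0.le, Real.rpow_neg hg0.le]; rfl
      rw [k3]
      calc T / gn D = (T / gn D) ^ (1 : ℝ) := (Real.rpow_one _).symm
        _ ≤ (T / gn D) ^ u :=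
            Real.rpow_le_rpow_of_exponent_ge (by positivity) k2 hu1.le
    calc T * (1 / (gn D * rr D)) = (T / gn D) * (rr D : ℝ)⁻¹ := by field_simp
      _ ≤ (T ^ u * gn D ^ (-u)) * (rr D : ℝ)⁻¹ := mul_le_mul_of_nonneg_right k1 (by positivity)
      _ = _ := by ring
  have hTu : T ^ u ≤ Real.exp (u * κ * L) := by
    calc T ^ u ≤ (X ^ κ) ^ u := Real.rpow_le_rpow hT0.le hTX hu0.le
      _ = Real.exp (u * κ * L) := by
          rw [← Real.rpow_mul hX0.le, Real.rpow_def_of_pos hX0, ← hL]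
          congr 1; ring
  have hXe : X ^ ((n : ℝ) - 1 - κ) = Real.exp (((n : ℝ) - 1 - κ) * L) := by
    rw [Real.rpow_def_of_pos hX0, ← hL]
    congr 1; ring
  calc (F.card : ℝ) ≤ _ := hcard
    _ = C * (2 * 2 ^ n) * X ^ ((n : ℝ) - 1 - κ) * (T * ∑ D ∈ F.image nn, (1 / (pr D : ℝ))) := by
        rw [hPeq, Finset.mul_sum, Finset.mul_sum]
        exact Finset.sum_congr rfl fun D _ => by ring
    _ ≤ C * (2 * 2 ^ n) * X ^ ((n : ℝ) - 1 - κ) *
        (Real.exp (u * κ * L) *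
          Real.exp ((1 + ε / 2) * t / (r * (r * (u * Real.log (1 / u))) ^ r))) := by
        apply mul_le_mul_of_nonneg_left _ (by positivity)
        exact p1.trans (mul_le_mul_of_nonneg_right hTu (Real.exp_pos _).le)
    _ ≤ C * (2 * 2 ^ n) * X ^ ((n : ℝ) - 1 - κ) * Real.exp ((1 + ε / 2) * S) := by
        apply mul_le_mul_of_nonneg_left _ (by positivity)
        rw [← Real.exp_add]
        exact Real.exp_le_exp.2 hunum'
    _ ≤ Real.exp (ε / 2 * S) * Real.exp (((n : ℝ) - 1 - κ) * L) * Real.exp ((1 + ε / 2) * S) := by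
        rw [hXe]
        apply mul_le_mul_of_nonneg_right _ (Real.exp_pos _).le
        exact mul_le_mul_of_nonneg_right hAs' (Real.exp_pos _).le
    _ = Real.exp (((n : ℝ) - 1 - κ) * L + (1 + ε) * S) := by
        rw [← Real.exp_add, ← Real.exp_add]
        congr 1; ring

end Pool.Agent.N755.NT
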