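import Pool.Agent.N502.FR.Stm

/-!
# Project FR: the leaf S_INT (integrability of the Fourier integrand)
-/

set_option autoImplicit false

open Finset MeasureTheory

namespace Pool.Agent.N755.FR

open Pool.Agent.N502.FR

/-- one factor -/
noncomputable def fc (a : ℕ) (t : ℝ) : ℝ := 1 / √(1 + (t / a) ^ 2)

lemma sq_pos' (a : ℕ) (t : ℝ) : 0 < √(1 + (t / a) ^ 2) := Real.sqrt_pos.2 (by positivity)

lemma one_le_sq (a : ℕ) (t : ℝ) : 1 ≤ √(1 + (t / a) ^ 2) := by
  rw [Real.one_le_sqrt]
  have := sq_nonneg (t / a)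
  linarith

lemma fc_nonneg (a : ℕ) (t : ℝ) : 0 ≤ fc a t := (div_pos one_pos (sq_pos' a t)).le

lemma fc_le (a : ℕ) (t : ℝ) : fc a t ≤ 1 := by
  unfold fc
  rw [div_le_one (sq_pos' a t)]
  exact one_le_sq a t

lemma fc_cont (a : ℕ) : Continuous (fc a) :=
  Continuous.div continuous_const (by fun_prop) (fun t => (sq_pos' a t).ne')

lemma fc_dec {a : ℕ} (ha : 1 ≤ a) {t : ℝ} (ht : 0 < t) : fc a t ≤ a / t := by
  have ha' : (0 : ℝ) < a := by exact_mod_cast ha
  have h1 : t / a ≤ √(1 + (t / a) ^ 2) := by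
    refine Real.le_sqrt_of_sq_le ?_
    linarith
  unfold fc
  calc 1 / √(1 + (t / a) ^ 2) ≤ 1 / (t / a) :=
        one_div_le_one_div_of_le (div_pos ht ha') h1
    _ = a / t := by rw [one_div_div]

lemma rho_eq (A : Finset ℕ) (t : ℝ) : rho A t = ∏ a ∈ A, fc a t := rfl

lemma rho_nonneg (A : Finset ℕ) (t : ℝ) : 0 ≤ rho A t :=
  prod_nonneg fun a _ => fc_nonneg a t

lemma rho_le (A : Finset ℕ) (t : ℝ) : rho A t ≤ 1 :=
  prod_le_one (fun a _ => fc_nonneg a t) fun a _ => fc_le a t

lemma rho_le_fc {A : Finset ℕ} {a : ℕ} (ha : a ∈ A) (t : ℝ) : rho A t ≤ fc a t := by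
  rw [rho_eq, ← mul_prod_erase _ _ ha]
  exact mul_le_of_le_one_right (fc_nonneg a t)
    (prod_le_one (fun a _ => fc_nonneg a t) fun a _ => fc_le a t)

lemma rho_cont (A : Finset ℕ) : Continuous (rho A) :=
  continuous_finsetProd _ fun a _ => fc_cont a

lemma th_cont (A : Finset ℕ) : Continuous (th A) :=
  continuous_finsetSum _ fun a _ => Real.continuous_arctan.comp (continuous_id.div_const _)

lemma th_bd (A : Finset ℕ) {t : ℝ} (ht : 0 < t) : 0 ≤ th A t ∧ th A t ≤ t * p1 A := by
  unfold th p1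
  constructor
  · refine sum_nonneg fun a _ => ?_
    rw [Real.arctan_nonneg]
    positivity
  · rw [mul_sum]
    refine sum_le_sum fun a _ => ?_
    have h0 : (0 : ℝ) ≤ t / a := by positivity
    have h1 : Real.arctan (t / a) ≤ t / a := by
      have h2 := Real.le_tan (Real.arctan_nonneg.2 h0) (Real.arctan_lt_pi_div_two _)
      rwa [Real.tan_arctan] at h2
    calc Real.arctan (t / a) ≤ t / a := h1
      _ = t * (1 / a) := by ring

theorem main : Pool.Agent.N502.FR.S_INT := by
  intro A B hA hB hne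
  obtain ⟨a, ha⟩ := hne
  have ha1 : 1 ≤ a := by
    rcases mem_union.1 ha with h | h
    · exact hA a h
    · exact hB a h
  have hr : ∀ t : ℝ, 0 < t → rho A t * rho B t ≤ a / t := by
    intro t ht
    rcases mem_union.1 ha with h | h
    · calc rho A t * rho B t ≤ fc a t * 1 :=
            mul_le_mul (rho_le_fc h t) (rho_le B t) (rho_nonneg B t) (fc_nonneg a t)
        _ ≤ a / t := by rw [mul_one]; exact fc_dec ha1 ht
    · calc rho A t * rho B t ≤ 1 * fc a t :=
            mul_le_mul (rho_le A t) (rho_le_fc h t) (rho_nonneg B t) zero_le_one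
        _ ≤ a / t := by rw [one_mul]; exact fc_dec ha1 ht
  have hr1 : ∀ t : ℝ, rho A t * rho B t ≤ 1 := fun t =>
    mul_le_one₀ (rho_le A t) (rho_nonneg B t) (rho_le B t)
  have hr0 : ∀ t : ℝ, 0 ≤ rho A t * rho B t := fun t => mul_nonneg (rho_nonneg A t) (rho_nonneg B t)
  have hp0 : 0 ≤ p1 A + p1 B := by
    unfold p1
    positivity
  have ha0 : (0 : ℝ) < a := by exact_mod_cast ha1
  set p : ℝ := p1 A + p1 B with hp
  have hcont : ContinuousOn (kf A B) (Set.Ioi 0) := by
    refine ContinuousOn.div ?_ continuousOn_id fun t ht => (ne_of_gt ht)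
    exact (((rho_cont A).mul (rho_cont B)).mul
      (Real.continuous_sin.comp ((th_cont A).sub (th_cont B)))).continuousOn
  have hbd : ∀ t : ℝ, 0 < t → ‖kf A B t‖ ≤ 2 * (p + a) * (1 + t ^ 2)⁻¹ := by
    intro t ht
    rw [Real.norm_eq_abs]
    have h1 : |kf A B t| = rho A t * rho B t * |Real.sin (th A t - th B t)| / t := by
      unfold kf
      rw [abs_div, abs_mul, abs_of_nonneg (hr0 t), abs_of_pos ht]
    have hpos : (0 : ℝ) < 1 + t ^ 2 := by positivity
    rw [h1, ← div_eq_mul_inv, div_le_div_iff₀ ht hpos]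
    rcases le_total t 1 with h | h
    · -- small `t`
      have h2 : |Real.sin (th A t - th B t)| ≤ t * p := by
        obtain ⟨a1, a2⟩ := th_bd A ht
        obtain ⟨b1, b2⟩ := th_bd B ht
        have h3 : |th A t - th B t| ≤ t * p := by
          rw [hp, mul_add, abs_le]
          constructor <;> nlinarith
        exact (Real.abs_sin_le_abs).trans h3
      have h3 : rho A t * rho B t * |Real.sin (th A t - th B t)| ≤ 1 * (t * p) :=
        mul_le_mul (hr1 t) h2 (abs_nonneg _) zero_le_one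
      have h4 : 1 + t ^ 2 ≤ 2 := by nlinarith
      calc rho A t * rho B t * |Real.sin (th A t - th B t)| * (1 + t ^ 2)
          ≤ (1 * (t * p)) * 2 := mul_le_mul h3 h4 hpos.le (by positivity)
        _ ≤ 2 * (p + a) * t := by nlinarith
    · have h2 : rho A t * rho B t * |Real.sin (th A t - th B t)| ≤ a / t * 1 :=
        mul_le_mul (hr t ht) (Real.abs_sin_le_one _) (abs_nonneg _) (by positivity)
      have h4 : 1 + t ^ 2 ≤ 2 * t ^ 2 := by nlinarith
      calc rho A t * rho B t * |Real.sin (th A t - th B t)| * (1 + t ^ 2)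
          ≤ (a / t * 1) * (2 * t ^ 2) := mul_le_mul h2 h4 hpos.le (by positivity)
        _ = 2 * a * t := by field_simp
        _ ≤ 2 * (p + a) * t := by nlinarith
  refine Integrable.mono' (g := fun t => 2 * (p + a) * (1 + t ^ 2)⁻¹)
    (integrable_inv_one_add_sq.const_mul _).integrableOn
    (hcont.aestronglyMeasurable measurableSet_Ioi) ?_
  rw [ae_restrict_iff' measurableSet_Ioi]
  exact Filter.Eventually.of_forall fun t ht => hbd t ht

end Pool.Agent.N755.FR
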