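import Mathlib
import Pool.Agent.N604.MW.Stm9

/-!
# Project GS (helper604), task SSUM: the first moment of the number of pairs (helper755)
-/

set_option autoImplicit false

namespace Pool.Agent.N755.GS

open Finset MeasureTheory Pool.Agent.N604.MW

/-- the polynomial of `PP` -/
noncomputable def pol (d : ℕ) (c b : ℝ) (θ : Fin d → ℝ) : Polynomial ℝ :=
  Polynomial.C c * Polynomial.X ^ (d + 1) +
    ∑ j : Fin d, Polynomial.C (θ j) * Polynomial.X ^ ((j : ℕ) + 1) + Polynomial.C b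

theorem pol_eval (d : ℕ) (c b : ℝ) (θ : Fin d → ℝ) (x : ℝ) :
    (pol d c b θ).eval x = PP d c b θ x := by
  unfold pol PP
  simp [Polynomial.eval_finsetSum]

theorem pol_dd (d : ℕ) (c b : ℝ) (θ : Fin d → ℝ) (x : ℝ) :
    (pol d c b θ).derivative.derivative.eval x =
      c * (d + 1) * d * x ^ (d - 1) + ∑ j : Fin d, θ j * (j + 1) * j * x ^ ((j : ℕ) - 1) := by
  unfold pol
  simp only [Polynomial.derivative_add, Polynomial.derivative_C, Polynomial.derivative_sum,
    Polynomial.derivative_C_mul_X_pow, Polynomial.eval_add, Polynomial.eval_finsetSum,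
    Polynomial.eval_mul, Polynomial.eval_C, Polynomial.eval_pow, Polynomial.eval_X, add_zero,
    Nat.add_sub_cancel]
  push_cast
  rfl

theorem second (d : ℕ) (hd : 1 ≤ d) (c b : ℝ) (hc : 0 < c) (θ : Fin d → ℝ) :
    ∃ c0 : ℝ, 0 < c0 ∧ ∃ X0 : ℕ, ∀ X : ℕ, X0 ≤ X → ∀ x : ℝ, (X : ℝ) ≤ x →
      c0 * (X : ℝ) ^ (d - 1) ≤ (pol d c b θ).derivative.derivative.eval x := by
  have hd0 : (0 : ℝ) < d := by exact_mod_cast hd
  obtain ⟨c0, hc0⟩ : ∃ c0 : ℝ, c0 = c * (d + 1) * d / 2 := ⟨_, rfl⟩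
  have hc0p : 0 < c0 := by
    rw [hc0]
    positivity
  obtain ⟨K, hK⟩ : ∃ K : ℝ, K = ∑ j : Fin d, |θ j| * (j + 1) * j := ⟨_, rfl⟩
  have hK0 : 0 ≤ K := by
    rw [hK]
    exact sum_nonneg fun j _ => by positivity
  refine ⟨c0, hc0p, max 1 ⌈K / c0⌉₊, fun X hX x hx => ?_⟩
  have hX1 : (1 : ℝ) ≤ X := by exact_mod_cast (le_max_left _ _).trans hX
  have hXK : K / c0 ≤ X := (Nat.le_ceil _).trans (by exact_mod_cast (le_max_right _ _).trans hX)
  have hx1 : 1 ≤ x := hX1.trans hx
  have hx0 : 0 < x := by linarith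
  have hKx : K ≤ c0 * x := by
    rw [div_le_iff₀ hc0p] at hXK
    nlinarith
  rw [pol_dd]
  have h1 : |∑ j : Fin d, θ j * (j + 1) * j * x ^ ((j : ℕ) - 1)| * x ≤ K * x ^ (d - 1) := by
    rw [hK, Finset.sum_mul]
    refine (mul_le_mul_of_nonneg_right (Finset.abs_sum_le_sum_abs _ _) hx0.le).trans ?_
    rw [Finset.sum_mul]
    refine Finset.sum_le_sum fun j _ => ?_
    have hj : |θ j * ((j : ℝ) + 1) * j * x ^ ((j : ℕ) - 1)| =
        |θ j| * (j + 1) * j * x ^ ((j : ℕ) - 1) := by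
      rw [abs_mul, abs_mul, abs_mul, abs_of_nonneg (by positivity : (0 : ℝ) ≤ (j : ℝ) + 1),
        abs_of_nonneg (by positivity : (0 : ℝ) ≤ (j : ℝ)),
        abs_of_nonneg (by positivity : (0 : ℝ) ≤ x ^ ((j : ℕ) - 1))]
    rw [hj]
    rcases Nat.eq_zero_or_pos (j : ℕ) with h0 | h0
    · rw [h0]
      simp
    · have h2 : x ^ ((j : ℕ) - 1) * x ≤ x ^ (d - 1) := by
        rw [← pow_succ]
        exact pow_le_pow_right₀ hx1 (by have := j.2; omega)
      have h3 : 0 ≤ |θ j| * ((j : ℝ) + 1) * j := by positivity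
      rw [mul_assoc]
      exact mul_le_mul_of_nonneg_left h2 h3
  have hxp : 0 < x ^ (d - 1) := by positivity
  have h4 : |∑ j : Fin d, θ j * (j + 1) * j * x ^ ((j : ℕ) - 1)| ≤ c0 * x ^ (d - 1) := by
    refine le_of_mul_le_mul_right (h1.trans ?_) hx0
    calc K * x ^ (d - 1) ≤ (c0 * x) * x ^ (d - 1) := mul_le_mul_of_nonneg_right hKx hxp.le
      _ = c0 * x ^ (d - 1) * x := by ring
  have h5 := neg_le_of_abs_le h4
  have h6 : (X : ℝ) ^ (d - 1) ≤ x ^ (d - 1) := pow_le_pow_left₀ (by linarith) hx _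
  have h7 : c * (d + 1) * d * x ^ (d - 1) = 2 * (c0 * x ^ (d - 1)) := by
    rw [hc0]
    ring
  have h8 : c0 * (X : ℝ) ^ (d - 1) ≤ c0 * x ^ (d - 1) := mul_le_mul_of_nonneg_left h6 hc0p.le
  linarith

theorem base (q : Polynomial ℝ) (u v L : ℝ) (huv : u ≤ v)
    (h : ∀ t, u ≤ t → t ≤ v → L ≤ q.derivative.eval t) : L * (v - u) ≤ q.eval v - q.eval u := by
  have hcont : ContinuousOn (fun t => q.eval t) (Set.Icc u v) := q.continuous.continuousOn
  have hdiff : DifferentiableOn ℝ (fun t => q.eval t) (interior (Set.Icc u v)) :=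
    q.differentiable.differentiableOn
  refine (convex_Icc u v).mul_sub_le_image_sub_of_le_deriv hcont hdiff (fun t ht => ?_) u
    (Set.left_mem_Icc.2 huv) v (Set.right_mem_Icc.2 huv) huv
  have ht' := interior_subset ht
  rw [Polynomial.deriv]
  exact h t ht'.1 ht'.2

theorem incr (p : Polynomial ℝ) (lo hi L : ℝ)
    (hL : ∀ t, lo ≤ t → t ≤ hi → L ≤ p.derivative.derivative.eval t) (x y h : ℝ)
    (hx : lo ≤ x ∧ x ≤ hi) (hy : lo ≤ y ∧ y ≤ hi) (hxh : lo ≤ x - h ∧ x - h ≤ hi)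
    (hyh : lo ≤ y - h ∧ y - h ≤ hi) :
    L * |h| * |x - y| ≤ |(p.eval x - p.eval (x - h)) - (p.eval y - p.eval (y - h))| := by
  -- the case of `y ≤ x`
  have key : ∀ x y : ℝ, (lo ≤ x ∧ x ≤ hi) → (lo ≤ y ∧ y ≤ hi) → (lo ≤ x - h ∧ x - h ≤ hi) →
      (lo ≤ y - h ∧ y - h ≤ hi) → y ≤ x →
      L * |h| * (x - y) ≤ |(p.eval x - p.eval (x - h)) - (p.eval y - p.eval (y - h))| := by
    intro x y hx hy hxh hyh hyx
    have h1 : ∀ u v : ℝ, lo ≤ u → v ≤ hi → u ≤ v →
        L * (v - u) ≤ p.derivative.eval v - p.derivative.eval u := fun u v hu hv huv =>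
      base p.derivative u v L huv fun t h2 h3 => hL t (hu.trans h2) (h3.trans hv)
    rcases le_total 0 h with h0 | h0
    · rw [abs_of_nonneg h0]
      have h2 := base (p - p.comp (Polynomial.X - Polynomial.C h)) y x (L * h) hyx (by
        intro t ht1 ht2
        simp only [Polynomial.derivative_sub, Polynomial.derivative_comp, Polynomial.derivative_X,
          Polynomial.derivative_C, sub_zero, one_mul, Polynomial.eval_sub, Polynomial.eval_comp,
          Polynomial.eval_X, Polynomial.eval_C]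
        have h3 := h1 (t - h) t (by linarith [hyh.1]) (by linarith [hx.2]) (by linarith)
        rwa [sub_sub_cancel] at h3)
      simp only [Polynomial.eval_sub, Polynomial.eval_comp, Polynomial.eval_X,
        Polynomial.eval_C] at h2
      exact h2.trans (le_abs_self _)
    · rw [abs_of_nonpos h0]
      have h2 := base (p.comp (Polynomial.X - Polynomial.C h) - p) y x (L * -h) hyx (by
        intro t ht1 ht2
        simp only [Polynomial.derivative_sub, Polynomial.derivative_comp, Polynomial.derivative_X,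
          Polynomial.derivative_C, sub_zero, one_mul, Polynomial.eval_sub, Polynomial.eval_comp,
          Polynomial.eval_X, Polynomial.eval_C]
        have h3 := h1 t (t - h) (by linarith [hy.1]) (by linarith [hxh.2]) (by linarith)
        have h4 : t - h - t = -h := by ring
        rwa [h4] at h3)
      simp only [Polynomial.eval_sub, Polynomial.eval_comp, Polynomial.eval_X,
        Polynomial.eval_C] at h2
      rw [abs_sub_comm]
      refine (h2.trans (le_of_eq ?_)).trans (le_abs_self _)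
      ring
  rcases le_total y x with hyx | hyx
  · rw [abs_of_nonneg (sub_nonneg.2 hyx)]
    exact key x y hx hy hxh hyh hyx
  · rw [abs_sub_comm x y, abs_of_nonneg (sub_nonneg.2 hyx), abs_sub_comm (_ - _)]
    exact key y x hy hx hyh hxh hyx

theorem card_of_diam (V : Finset ℕ) (D : ℕ) (h : ∀ u ∈ V, ∀ v ∈ V, u ≤ v → v - u ≤ D) :
    V.card ≤ D + 1 := by
  rcases V.eq_empty_or_nonempty with h0 | h0
  · rw [h0]
    simp
  · have h1 : V ⊆ Finset.Icc (V.min' h0) (V.min' h0 + D) := by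
      intro v hv
      rw [Finset.mem_Icc]
      have h2 := h _ (V.min'_mem h0) v hv (V.min'_le v hv)
      exact ⟨V.min'_le v hv, by omega⟩
    refine (Finset.card_le_card h1).trans ?_
    rw [Nat.card_Icc]
    omega

theorem prod_ite {d : ℕ} (j : Fin (d + 1)) (a b : ℕ) :
    ∏ i : Fin (d + 1), (if i = j then a else b) = a * b ^ d := by
  rw [← Finset.mul_prod_erase univ _ (Finset.mem_univ j), if_pos rfl]
  congr 1
  rw [Finset.prod_congr rfl fun i hi => if_neg (Finset.ne_of_mem_erase hi), Finset.prod_const,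
    Finset.card_erase_of_mem (Finset.mem_univ j), Finset.card_univ, Fintype.card_fin,
    Nat.add_sub_cancel]

/-- the pairs with maximal distance `H` in the coordinate `j` and a small difference of sums -/
noncomputable def sH (d : ℕ) (c b : Fin (d + 1) → ℝ) (θ : Fin (d + 1) → Fin d → ℝ) (X : ℕ)
    (j : Fin (d + 1)) (Q : ℝ) (H : ℕ) : Finset ((Fin (d + 1) → ℕ) × (Fin (d + 1) → ℕ)) :=
  open Classical in
  (SB d X ×ˢ SB d X).filter fun p => |(p.1 j : ℤ) - p.2 j| = H ∧
    (∀ i, |(p.1 i : ℤ) - p.2 i| ≤ H) ∧ |SD d c b θ 0 p.1 p.2| ≤ Q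

theorem count (d : ℕ) (c b : Fin (d + 1) → ℝ) (θ : Fin (d + 1) → Fin d → ℝ) (X : ℕ)
    (j : Fin (d + 1)) (Q L : ℝ) (H : ℕ) (hH : 1 ≤ H) (hLp : 0 < L)
    (hL : ∀ t : ℝ, (X : ℝ) ≤ t → t ≤ 2 * X →
      L ≤ (pol d (c j) (b j) (θ j)).derivative.derivative.eval t) :
    (sH d c b θ X j Q H).card ≤
      (⌊2 * Q / (L * H)⌋₊ + 1) * ((X + 1) ^ d * (2 * (2 * H + 1) ^ d)) := by
  classical
  let f : (Fin (d + 1) → ℕ) × (Fin (d + 1) → ℕ) → (Fin (d + 1) → ℕ) × (Fin (d + 1) → ℤ) :=
    fun p => (fun i => if i = j then 0 else p.1 i, fun i => (p.1 i : ℤ) - p.2 i)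
  let t : Finset ((Fin (d + 1) → ℕ) × (Fin (d + 1) → ℤ)) :=
    (Fintype.piFinset fun i => if i = j then {0} else Finset.Icc X (2 * X)) ×ˢ
      (Fintype.piFinset fun i => if i = j then {(H : ℤ), -(H : ℤ)} else
        Finset.Icc (-(H : ℤ)) (H : ℤ))
  have ht : t.card ≤ (X + 1) ^ d * (2 * (2 * H + 1) ^ d) := by
    rw [Finset.card_product, Fintype.card_piFinset, Fintype.card_piFinset]
    refine Nat.mul_le_mul ?_ ?_
    · have h1 : ∀ i : Fin (d + 1), (if i = j then ({0} : Finset ℕ) else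
          Finset.Icc X (2 * X)).card ≤ if i = j then 1 else X + 1 := by
        intro i
        split_ifs
        · simp
        · rw [Nat.card_Icc]
          omega
      refine (Finset.prod_le_prod' fun i _ => h1 i).trans ?_
      rw [prod_ite, one_mul]
    · have h1 : ∀ i : Fin (d + 1), (if i = j then ({(H : ℤ), -(H : ℤ)} : Finset ℤ) else
          Finset.Icc (-(H : ℤ)) (H : ℤ)).card ≤ if i = j then 2 else 2 * H + 1 := by
        intro i
        split_ifs
        · exact Finset.card_le_two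
        · rw [Int.card_Icc]
          omega
      refine (Finset.prod_le_prod' fun i _ => h1 i).trans ?_
      rw [prod_ite]
  have hmem : ∀ p ∈ sH d c b θ X j Q H, (∀ i, X ≤ p.1 i ∧ p.1 i ≤ 2 * X) ∧
      (∀ i, X ≤ p.2 i ∧ p.2 i ≤ 2 * X) ∧ |(p.1 j : ℤ) - p.2 j| = H ∧
      (∀ i, |(p.1 i : ℤ) - p.2 i| ≤ H) ∧ |SD d c b θ 0 p.1 p.2| ≤ Q := by
    intro p hp
    unfold sH at hp
    rw [Finset.mem_filter, Finset.mem_product] at hp
    refine ⟨fun i => ?_, fun i => ?_, hp.2⟩
    · exact Finset.mem_Icc.1 (Fintype.mem_piFinset.1 hp.1.1 i)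
    · exact Finset.mem_Icc.1 (Fintype.mem_piFinset.1 hp.1.2 i)
  have hf : ∀ p ∈ sH d c b θ X j Q H, f p ∈ t := by
    intro p hp
    obtain ⟨h1, h2, h3, h4, h5⟩ := hmem p hp
    rw [Finset.mem_product, Fintype.mem_piFinset, Fintype.mem_piFinset]
    refine ⟨fun i => ?_, fun i => ?_⟩
    · by_cases hi : i = j
      · simp [f, hi]
      · simp only [f, hi, if_false]
        exact Finset.mem_Icc.2 (h1 i)
    · by_cases hi : i = j
      · subst hi
        simp only [f, if_true]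
        rw [Finset.mem_insert, Finset.mem_singleton]
        rcases abs_eq (by positivity : (0 : ℤ) ≤ H) |>.1 h3 with h | h
        · exact Or.inl h
        · exact Or.inr h
      · simp only [f, hi, if_false]
        exact Finset.mem_Icc.2 (abs_le.1 (h4 i))
  have hmul := Finset.card_le_mul_card_image_of_maps_to hf (⌊2 * Q / (L * H)⌋₊ + 1) (by
    rintro ⟨n', h⟩ -
    -- the fibre
    set F := (sH d c b θ X j Q H).filter fun p => f p = (n', h) with hF
    have hFm : ∀ p ∈ F, p ∈ sH d c b θ X j Q H ∧ (∀ i, i ≠ j → p.1 i = n' i) ∧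
        ∀ i, (p.1 i : ℤ) - p.2 i = h i := by
      intro p hp
      rw [hF, Finset.mem_filter] at hp
      refine ⟨hp.1, fun i hi => ?_, fun i => ?_⟩
      · have h1 := congrFun (congrArg Prod.fst hp.2) i
        simp only [f, hi, if_false] at h1
        exact h1
      · exact congrFun (congrArg Prod.snd hp.2) i
    have hinj : Set.InjOn (fun p : (Fin (d + 1) → ℕ) × (Fin (d + 1) → ℕ) => p.1 j) F := by
      intro p hp q hq hpq
      obtain ⟨-, p2, p3⟩ := hFm p hp
      obtain ⟨-, q2, q3⟩ := hFm q hq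
      have e1 : p.1 = q.1 := by
        funext i
        by_cases hi : i = j
        · rw [hi]
          exact hpq
        · rw [p2 i hi, q2 i hi]
      have e2 : p.2 = q.2 := by
        funext i
        have a1 := p3 i
        have a2 := q3 i
        rw [e1] at a1
        omega
      exact Prod.ext e1 e2
    rw [← Finset.card_image_of_injOn hinj]
    refine card_of_diam _ _ ?_
    intro u hu v hv huv
    obtain ⟨p, hp, rfl⟩ := Finset.mem_image.1 hu
    obtain ⟨q, hq, rfl⟩ := Finset.mem_image.1 hv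
    obtain ⟨p1, p2, p3⟩ := hFm p hp
    obtain ⟨q1, q2, q3⟩ := hFm q hq
    obtain ⟨pa, pb, pc, pd, pe⟩ := hmem p p1
    obtain ⟨qa, qb, qc, qd, qe⟩ := hmem q q1
    have hpR : ∀ i, (p.2 i : ℝ) = (p.1 i : ℝ) - (h i : ℝ) := by
      intro i
      have := p3 i
      have h1 : ((p.2 i : ℤ) : ℝ) = (((p.1 i : ℤ) - h i : ℤ) : ℝ) := by
        congr 1
        omega
      push_cast at h1
      exact h1
    have hqR : ∀ i, (q.2 i : ℝ) = (q.1 i : ℝ) - (h i : ℝ) := by
      intro i
      have := q3 i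
      have h1 : ((q.2 i : ℤ) : ℝ) = (((q.1 i : ℤ) - h i : ℤ) : ℝ) := by
        congr 1
        omega
      push_cast at h1
      exact h1
    have hhj : |(h j : ℝ)| = H := by
      rw [p3 j] at pc
      have h1 : ((|h j| : ℤ) : ℝ) = ((H : ℤ) : ℝ) := by rw [pc]
      push_cast at h1
      exact h1
    have hdiff : SD d c b θ 0 p.1 p.2 - SD d c b θ 0 q.1 q.2 =
        ((pol d (c j) (b j) (θ j)).eval (p.1 j : ℝ) -
          (pol d (c j) (b j) (θ j)).eval ((p.1 j : ℝ) - h j)) -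
        ((pol d (c j) (b j) (θ j)).eval (q.1 j : ℝ) -
          (pol d (c j) (b j) (θ j)).eval ((q.1 j : ℝ) - h j)) := by
      unfold SD
      rw [← Finset.sum_sub_distrib, Finset.sum_eq_single j]
      · simp only [Pi.zero_apply, add_zero, pol_eval, hpR, hqR]
      · intro i _ hi
        simp only [Pi.zero_apply, add_zero, hpR, hqR, p2 i hi, q2 i hi, sub_self]
      · intro h0
        exact absurd (Finset.mem_univ _) h0
    have hlow := incr (pol d (c j) (b j) (θ j)) X (2 * X) L hL (p.1 j) (q.1 j) (h j)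
      ⟨by exact_mod_cast (pa j).1, by exact_mod_cast (pa j).2⟩
      ⟨by exact_mod_cast (qa j).1, by exact_mod_cast (qa j).2⟩
      (by
        rw [← hpR]
        exact ⟨by exact_mod_cast (pb j).1, by exact_mod_cast (pb j).2⟩)
      (by
        rw [← hqR]
        exact ⟨by exact_mod_cast (qb j).1, by exact_mod_cast (qb j).2⟩)
    rw [← hdiff, hhj] at hlow
    have hup : |SD d c b θ 0 p.1 p.2 - SD d c b θ 0 q.1 q.2| ≤ 2 * Q := by
      refine (abs_sub _ _).trans ?_
      linarith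
    have hH0 : (0 : ℝ) < H := by exact_mod_cast hH
    have hfin : ((q.1 j - p.1 j : ℕ) : ℝ) ≤ 2 * Q / (L * H) := by
      rw [le_div_iff₀ (by positivity), Nat.cast_sub huv]
      have h1 : |(p.1 j : ℝ) - q.1 j| = (q.1 j : ℝ) - p.1 j := by
        rw [abs_sub_comm, abs_of_nonneg]
        have : ((p.1 j : ℕ) : ℝ) ≤ q.1 j := by exact_mod_cast huv
        linarith
      rw [h1] at hlow
      linarith
    exact Nat.le_floor hfin)
  exact hmul.trans (Nat.mul_le_mul_left _ ht)

theorem ssum (h : S_SMEAS) : S_SSUM := by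
  classical
  intro d c b θ B hd hc hB
  obtain ⟨C, hC, X1, hmeas⟩ := h d c b θ B hd hc hB
  choose c0 hc0 X2 hX2 using fun j => second d hd (c j) (b j) (hc j) (θ j)
  obtain ⟨M, hM⟩ : ∃ M : Fin (d + 1) → ℕ, ∀ j, M j = ⌊2 * C / c0 j⌋₊ + 1 := ⟨_, fun _ => rfl⟩
  obtain ⟨K, hK⟩ : ∃ K : Fin (d + 1) → ℝ, ∀ j, K j = M j * 2 * C * 6 ^ d := ⟨_, fun _ => rfl⟩
  have hK0 : ∀ j, 0 ≤ K j := fun j => by
    rw [hK]
    positivity
  have hKs : 0 ≤ ∑ j, K j := Finset.sum_nonneg fun j _ => hK0 j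
  refine ⟨(4 * B) ^ (d + 1) + ∑ j, K j, by positivity, max 1 (max X1 (∑ j, X2 j)),
    fun X hX => ?_⟩
  have hX1n : 1 ≤ X := (le_max_left _ _).trans hX
  have hX1 : (1 : ℝ) ≤ X := by exact_mod_cast hX1n
  have hXX1 : X1 ≤ X := ((le_max_left _ _).trans (le_max_right _ _)).trans hX
  have hXX2 : ∀ j, X2 j ≤ X := fun j =>
    (Finset.single_le_sum (f := X2) (fun _ _ => Nat.zero_le _) (Finset.mem_univ j)).trans
      (((le_max_right _ _).trans (le_max_right _ _)).trans hX)
  have hX0 : (0 : ℝ) < X := by linarith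
  -- the volume of a pair
  obtain ⟨V, hV⟩ : ∃ V : (Fin (d + 1) → ℕ) × (Fin (d + 1) → ℕ) → ENNReal,
      ∀ p, V p = volume (SS d c b θ B p.1 p.2) := ⟨_, fun _ => rfl⟩
  simp only [← hV]
  -- pairs with maximal distance in the coordinate `j`
  let A : Fin (d + 1) → Finset ((Fin (d + 1) → ℕ) × (Fin (d + 1) → ℕ)) := fun j =>
    (SB d X ×ˢ SB d X).filter fun p => p.1 j ≠ p.2 j ∧
      ∀ i, |(p.1 i : ℤ) - p.2 i| ≤ |(p.1 j : ℤ) - p.2 j|
  have hA : ∀ j p, p ∈ A j ↔ (p.1 ∈ SB d X ∧ p.2 ∈ SB d X) ∧ p.1 j ≠ p.2 j ∧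
      ∀ i, |(p.1 i : ℤ) - p.2 i| ≤ |(p.1 j : ℤ) - p.2 j| := fun j p => by
    rw [Finset.mem_filter, Finset.mem_product]
  have hsplit : ∑ p ∈ SB d X ×ˢ SB d X, V p ≤
      ∑ n ∈ SB d X, V (n, n) + ∑ j, ∑ p ∈ A j, V p := by
    have h1 : ∀ p ∈ SB d X ×ˢ SB d X, V p ≤ (if p.1 = p.2 then V p else 0) +
        ∑ j, (if (p.1 j ≠ p.2 j ∧ ∀ i, |(p.1 i : ℤ) - p.2 i| ≤ |(p.1 j : ℤ) - p.2 j|) then V p
          else 0) := by
      intro p _
      by_cases h0 : p.1 = p.2
      · rw [if_pos h0]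
        exact le_self_add
      · obtain ⟨j1, hj1⟩ := Function.ne_iff.1 h0
        obtain ⟨j0, hj0⟩ := Finite.exists_max fun j : Fin (d + 1) => |(p.1 j : ℤ) - p.2 j|
        have hj2 : p.1 j0 ≠ p.2 j0 := by
          intro h2
          have h3 := hj0 j1
          rw [h2, sub_self, abs_zero] at h3
          have h4 := abs_nonpos_iff.1 h3
          omega
        refine le_trans ?_ le_add_self
        refine le_trans ?_ (Finset.single_le_sum (f := fun j => if (p.1 j ≠ p.2 j ∧
          ∀ i, |(p.1 i : ℤ) - p.2 i| ≤ |(p.1 j : ℤ) - p.2 j|) then V p else 0)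
          (fun _ _ => bot_le) (Finset.mem_univ j0))
        rw [if_pos ⟨hj2, hj0⟩]
    refine (Finset.sum_le_sum h1).trans ?_
    rw [Finset.sum_add_distrib]
    refine add_le_add ?_ ?_
    · rw [Finset.sum_product]
      refine Finset.sum_le_sum fun n hn => ?_
      rw [Finset.sum_ite_eq, if_pos hn]
    · rw [Finset.sum_comm]
      refine Finset.sum_le_sum fun j _ => ?_
      rw [Finset.sum_filter]
  -- the diagonal
  have hdiag : ∑ n ∈ SB d X, V (n, n) ≤ ENNReal.ofReal ((4 * B) ^ (d + 1) * (X : ℝ) ^ (d + 1)) := by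
    have h1 : ∀ n ∈ SB d X, V (n, n) ≤ ENNReal.ofReal ((2 * B) ^ (d + 1)) := by
      intro n _
      rw [hV]
      have h7 : volume (SS d c b θ B n n) ≤
          volume (Metric.closedBall (0 : Fin (d + 1) → ℝ) B) := by
        refine measure_mono fun t ht => ?_
        rw [mem_closedBall_zero_iff, pi_norm_le_iff_of_nonneg hB.le]
        exact ht.1
      refine h7.trans ?_
      rw [Real.volume_pi_closedBall _ hB.le, Fintype.card_fin]
    refine (Finset.sum_le_sum h1).trans ?_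
    rw [Finset.sum_const, nsmul_eq_mul, ← ENNReal.ofReal_natCast,
      ← ENNReal.ofReal_mul (Nat.cast_nonneg _)]
    refine ENNReal.ofReal_le_ofReal ?_
    have h2 : ((SB d X).card : ℝ) ≤ (2 * (X : ℝ)) ^ (d + 1) := by
      have h3 : (SB d X).card = (X + 1) ^ (d + 1) := by
        unfold SB
        rw [Fintype.card_piFinset, prod_const, card_univ, Fintype.card_fin, Nat.card_Icc]
        congr 1
        omega
      rw [h3]
      push_cast
      exact pow_le_pow_left₀ (by positivity) (by linarith) _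
    calc ((SB d X).card : ℝ) * (2 * B) ^ (d + 1)
        ≤ (2 * (X : ℝ)) ^ (d + 1) * (2 * B) ^ (d + 1) :=
          mul_le_mul_of_nonneg_right h2 (by positivity)
      _ = (4 * B) ^ (d + 1) * (X : ℝ) ^ (d + 1) := by
          rw [← mul_pow, ← mul_pow]
          congr 1
          ring
  -- the other pairs
  have hoff : ∀ j, ∑ p ∈ A j, V p ≤ ENNReal.ofReal (K j * (X : ℝ) ^ (d + 1)) := by
    intro j
    have hmaps : ∀ p ∈ A j, (|(p.1 j : ℤ) - p.2 j|).toNat ∈ Finset.Icc 1 X := by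
      intro p hp
      obtain ⟨⟨h1, h2⟩, h3, h4⟩ := (hA j p).1 hp
      have h5 := Finset.mem_Icc.1 (Fintype.mem_piFinset.1 h1 j)
      have h6 := Finset.mem_Icc.1 (Fintype.mem_piFinset.1 h2 j)
      rw [Finset.mem_Icc]
      have h7 : (1 : ℤ) ≤ |(p.1 j : ℤ) - p.2 j| := Int.one_le_abs (by omega)
      have h8 : |(p.1 j : ℤ) - p.2 j| ≤ X := by
        rw [abs_le]
        omega
      omega
    rw [← Finset.sum_fiberwise_of_maps_to hmaps]
    have hone : ∀ H ∈ Finset.Icc 1 X,
        ∑ p ∈ (A j).filter (fun p => (|(p.1 j : ℤ) - p.2 j|).toNat = H), V p ≤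
          ENNReal.ofReal (K j * (X : ℝ) ^ d) := by
      intro H hH
      rw [Finset.mem_Icc] at hH
      have hH1 : (1 : ℝ) ≤ H := by exact_mod_cast hH.1
      have hHX : (H : ℝ) ≤ X := by exact_mod_cast hH.2
      obtain ⟨Q, hQ⟩ : ∃ Q : ℝ, Q = C * H * (X : ℝ) ^ (d - 1) := ⟨_, rfl⟩
      have hcnt := count d c b θ X j Q (c0 j * (X : ℝ) ^ (d - 1)) H hH.1
        (mul_pos (hc0 j) (by positivity)) (fun t ht _ => hX2 j X (hXX2 j) t ht)
      have hM2 : 2 * Q / (c0 j * (X : ℝ) ^ (d - 1) * H) = 2 * C / c0 j := by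
        rw [hQ]
        have h1 := hc0 j
        have h2 : (X : ℝ) ^ (d - 1) ≠ 0 := by positivity
        have h3 : (H : ℝ) ≠ 0 := by positivity
        field_simp
      rw [hM2, ← hM] at hcnt
      -- the terms
      have hterm : ∀ p ∈ (A j).filter (fun p => (|(p.1 j : ℤ) - p.2 j|).toNat = H),
          V p ≤ if p ∈ sH d c b θ X j Q H then
            ENNReal.ofReal (C / (H * (X : ℝ) ^ (d - 1))) else 0 := by
        intro p hp
        rw [Finset.mem_filter] at hp
        obtain ⟨⟨h1, h2⟩, h3, h4⟩ := (hA j p).1 hp.1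
        have h5 : |(p.1 j : ℤ) - p.2 j| = H := by
          have := hp.2
          have h6 : (0 : ℤ) ≤ |(p.1 j : ℤ) - p.2 j| := abs_nonneg _
          omega
        have h5R : |(p.1 j : ℝ) - p.2 j| = H := by
          have h6 : ((|(p.1 j : ℤ) - p.2 j| : ℤ) : ℝ) = ((H : ℤ) : ℝ) := by rw [h5]
          push_cast at h6
          exact h6
        have h4R : ∀ i, |(p.1 i : ℝ) - p.2 i| ≤ |(p.1 j : ℝ) - p.2 j| := by
          intro i
          have h6 : ((|(p.1 i : ℤ) - p.2 i| : ℤ) : ℝ) ≤ ((|(p.1 j : ℤ) - p.2 j| : ℤ) : ℝ) := by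
            exact_mod_cast h4 i
          push_cast at h6
          exact h6
        obtain ⟨h7, h8⟩ := hmeas X hXX1 p.1 h1 p.2 h2 j h3 h4R
        rw [h5R] at h7 h8
        rw [hV]
        by_cases hne : (SS d c b θ B p.1 p.2).Nonempty
        · rw [if_pos]
          · exact h7
          · unfold sH
            rw [Finset.mem_filter, Finset.mem_product]
            refine ⟨⟨h1, h2⟩, h5, fun i => ?_, ?_⟩
            · rw [← h5]
              exact h4 i
            · rw [hQ]
              exact h8 hne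
        · rw [Set.not_nonempty_iff_eq_empty.1 hne, measure_empty]
          exact bot_le
      refine (Finset.sum_le_sum hterm).trans ?_
      rw [← Finset.sum_filter]
      have hsub : ((A j).filter (fun p => (|(p.1 j : ℤ) - p.2 j|).toNat = H)).filter
          (fun p => p ∈ sH d c b θ X j Q H) ⊆ sH d c b θ X j Q H := fun p hp =>
        (Finset.mem_filter.1 hp).2
      refine (Finset.sum_le_sum_of_subset hsub).trans ?_
      rw [Finset.sum_const, nsmul_eq_mul, ← ENNReal.ofReal_natCast,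
        ← ENNReal.ofReal_mul (Nat.cast_nonneg _)]
      refine ENNReal.ofReal_le_ofReal ?_
      have hcR : ((sH d c b θ X j Q H).card : ℝ) ≤
          M j * (((X : ℝ) + 1) ^ d * (2 * (2 * (H : ℝ) + 1) ^ d)) := by
        exact_mod_cast hcnt
      have e1 : ((X : ℝ) + 1) ^ d ≤ (2 * (X : ℝ)) ^ d :=
        pow_le_pow_left₀ (by positivity) (by linarith) _
      have e2 : (2 * (H : ℝ) + 1) ^ d ≤ (3 * (H : ℝ)) ^ d :=
        pow_le_pow_left₀ (by positivity) (by linarith) _
      have e3 : ((sH d c b θ X j Q H).card : ℝ) ≤ M j * ((2 * (X : ℝ)) ^ d * (2 * (3 * (H : ℝ)) ^ d)) :=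
        hcR.trans (by gcongr)
      have e4 : 0 ≤ C / (H * (X : ℝ) ^ (d - 1)) := by positivity
      refine (mul_le_mul_of_nonneg_right e3 e4).trans ?_
      obtain ⟨m, rfl⟩ : ∃ m, d = m + 1 := ⟨d - 1, by omega⟩
      rw [Nat.add_sub_cancel]
      have e5 : (M j : ℝ) * ((2 * (X : ℝ)) ^ (m + 1) * (2 * (3 * (H : ℝ)) ^ (m + 1))) *
          (C / (H * (X : ℝ) ^ m)) = K j * (X * (H : ℝ) ^ m) := by
        rw [hK]
        have h2 : (X : ℝ) ^ m ≠ 0 := by positivity
        have h3 : (H : ℝ) ≠ 0 := by positivity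
        have h6 : (6 : ℝ) ^ (m + 1) = 2 ^ (m + 1) * 3 ^ (m + 1) := by
          rw [← mul_pow]
          norm_num
        rw [h6, mul_pow, mul_pow]
        field_simp
        ring
      rw [e5]
      refine mul_le_mul_of_nonneg_left ?_ (hK0 j)
      rw [pow_succ' (X : ℝ)]
      exact mul_le_mul_of_nonneg_left (pow_le_pow_left₀ (by positivity) hHX m) hX0.le
    refine (Finset.sum_le_sum hone).trans ?_
    rw [Finset.sum_const, Nat.card_Icc, Nat.add_sub_cancel, nsmul_eq_mul,
      ← ENNReal.ofReal_natCast, ← ENNReal.ofReal_mul (Nat.cast_nonneg _)]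
    refine ENNReal.ofReal_le_ofReal (le_of_eq ?_)
    rw [pow_succ]
    ring
  refine hsplit.trans ((add_le_add hdiag (Finset.sum_le_sum fun j _ => hoff j)).trans ?_)
  rw [← ENNReal.ofReal_sum_of_nonneg fun j _ => mul_nonneg (hK0 j) (by positivity),
    ← ENNReal.ofReal_add (by positivity)
      (Finset.sum_nonneg fun j _ => mul_nonneg (hK0 j) (by positivity))]
  refine ENNReal.ofReal_le_ofReal (le_of_eq ?_)
  rw [← Finset.sum_mul]
  ring

end Pool.Agent.N755.GS
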