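import Pool.Agent.N804.PV.StmE

set_option autoImplicit false

namespace Pool.Agent.N755.PV1d

open Filter Topology Set MeasureTheory
open Pool.Agent.N804.PV

theorem h_bounds (T : ℝ) (hT2 : 2 ≤ T) : 0 < Real.log (1 + 1 / T) ∧ Real.log (1 + 1 / T) ≤ 1 / 2 := by
  have hT0 : 0 < T := by linarith
  have h1 : 0 < 1 / T := by positivity
  have h4 : 1 / T ≤ 1 / 2 := by
    rw [div_le_div_iff₀ hT0 (by norm_num)]
    linarith
  refine ⟨Real.log_pos (by linarith), ?_⟩
  have := Real.log_le_sub_one_of_pos (show 0 < 1 + 1 / T by linarith)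
  linarith

theorem aT_bound (T : ℝ) (hT2 : 2 ≤ T) (s : ℂ) (hs : |s.re| ≤ 2) : ‖aT T s‖ ≤ 2 := by
  obtain ⟨h1, h2⟩ := h_bounds T hT2
  rw [aT]
  set h := Real.log (1 + 1 / T) with hh
  have h5 : ∀ v ∈ Set.uIoc (0 : ℝ) h, ‖Complex.exp ((v : ℂ) * s)‖ ≤ 3 := by
    intro v hv
    rw [uIoc_of_le h1.le] at hv
    have : ‖Complex.exp ((v : ℂ) * s)‖ = Real.exp (v * s.re) := by
      rw [Complex.norm_exp]
      simp
    rw [this]
    have h6 : v * s.re ≤ 1 := by
      have := (abs_le.mp hs).2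
      have h7 : v * s.re ≤ v * 2 := mul_le_mul_of_nonneg_left this hv.1.le
      linarith [hv.2]
    calc Real.exp (v * s.re) ≤ Real.exp 1 := Real.exp_le_exp.mpr h6
      _ ≤ 3 := by linarith [Real.exp_one_lt_d9]
  have h6 := intervalIntegral.norm_integral_le_of_norm_le_const h5
  rw [sub_zero, abs_of_pos h1] at h6
  linarith

theorem aT_diff (T : ℝ) : Differentiable ℂ (aT T) := by
  have h1 : aT T = fun s => ∫ v in (0 : ℝ)..(Real.log (1 + 1 / T)), Complex.exp ((v : ℂ) * s) := rfl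
  set h := Real.log (1 + 1 / T) with hh
  -- dslope
  have h2 : ∀ s : ℂ, aT T s = (h : ℂ) * dslope Complex.exp 0 ((h : ℂ) * s) := by
    intro s
    by_cases hh0 : h = 0
    · rw [h1]
      simp [hh0]
    by_cases hs : s = 0
    · rw [h1]
      simp [hs, dslope_same]
    · have hne : (h : ℂ) * s ≠ 0 := mul_ne_zero (by exact_mod_cast hh0) hs
      rw [dslope_of_ne _ hne, slope_def_field, h1]
      have h3 : ∀ v : ℝ, Complex.exp ((v : ℂ) * s) = Complex.exp (s * (v : ℂ)) := by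
        intro v
        rw [mul_comm]
      simp only [h3]
      rw [integral_exp_mul_complex hs]
      have h4 : (h : ℂ) ≠ 0 := by exact_mod_cast hh0
      simp only [Complex.ofReal_zero, mul_zero, Complex.exp_zero, sub_zero]
      rw [mul_comm s]
      field_simp
  have h3 : aT T = fun s => (h : ℂ) * dslope Complex.exp 0 ((h : ℂ) * s) := funext h2
  rw [h3]
  have h4 : Differentiable ℂ (dslope Complex.exp 0) := by
    have : DifferentiableOn ℂ (dslope Complex.exp 0) Set.univ := by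
      rw [Complex.differentiableOn_dslope Filter.univ_mem]
      exact Complex.differentiable_exp.differentiableOn
    exact differentiableOn_univ.mp this
  exact (h4.comp (differentiable_id.const_mul (h : ℂ))).const_mul (h : ℂ)

theorem exp_norm (ε y : ℝ) (w : ℂ) : ‖Complex.exp ((y : ℂ) * w + (ε : ℂ) ^ 2 * w ^ 2 / 2)‖ =
    Real.exp (y * w.re) * Real.exp (ε ^ 2 * w.re ^ 2 / 2) * Real.exp (-(ε ^ 2 / 2) * w.im ^ 2) := by
  rw [Complex.norm_exp, ← Real.exp_add, ← Real.exp_add]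
  congr 1
  have h1 : ((ε : ℂ) ^ 2 * w ^ 2 / 2).re = ε ^ 2 * (w.re ^ 2 - w.im ^ 2) / 2 := by
    have : (ε : ℂ) ^ 2 * w ^ 2 / 2 = ((ε ^ 2 / 2 : ℝ) : ℂ) * w ^ 2 := by
      push_cast
      ring
    rw [this, Complex.re_ofReal_mul, sq w, Complex.mul_re]
    ring
  rw [Complex.add_re, h1, Complex.re_ofReal_mul]
  ring

theorem core (T : ℝ) (hT2 : 2 ≤ T) (ε : ℝ) (hε : 0 < ε) (hε1 : ε ≤ 1) (y B : ℝ) (hB : 0 ≤ B) (hB1 : B ≤ 1)
    (w : ℂ) (hw : |w.re| ≤ B) :
    ‖hT T ε y w‖ ≤ (2 * Real.exp (1 / 2)) * Real.exp (|y| * B) * Real.exp (-(ε ^ 2 / 2) * w.im ^ 2) := by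
  rw [hT, norm_mul, exp_norm]
  have h1 : ‖aT T (1 / 2 + w)‖ ≤ 2 := by
    apply aT_bound T hT2
    have : (1 / 2 + w).re = 1 / 2 + w.re := by simp
    rw [this]
    have h2 := abs_le.mp (hw.trans hB1)
    rw [abs_le]
    constructor <;> linarith [h2.1, h2.2]
  have h2 : Real.exp (y * w.re) ≤ Real.exp (|y| * B) := by
    apply Real.exp_le_exp.mpr
    calc y * w.re ≤ |y * w.re| := le_abs_self _
      _ = |y| * |w.re| := abs_mul _ _
      _ ≤ |y| * B := mul_le_mul_of_nonneg_left hw (abs_nonneg _)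
  have h3 : Real.exp (ε ^ 2 * w.re ^ 2 / 2) ≤ Real.exp (1 / 2) := by
    apply Real.exp_le_exp.mpr
    have h4 : ε ^ 2 ≤ 1 := by nlinarith
    have h5 : w.re ^ 2 ≤ 1 := by
      rw [← sq_abs]
      have := abs_nonneg w.re
      nlinarith [hw.trans hB1]
    have h6 : 0 ≤ w.re ^ 2 := sq_nonneg _
    nlinarith
  calc ‖aT T (1 / 2 + w)‖ * (Real.exp (y * w.re) * Real.exp (ε ^ 2 * w.re ^ 2 / 2) * Real.exp (-(ε ^ 2 / 2) * w.im ^ 2))
      ≤ 2 * (Real.exp (|y| * B) * Real.exp (1 / 2) * Real.exp (-(ε ^ 2 / 2) * w.im ^ 2)) := by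
        apply mul_le_mul h1 _ (by positivity) (by norm_num)
        apply mul_le_mul_of_nonneg_right _ (by positivity)
        exact mul_le_mul h2 h3 (by positivity) (by positivity)
    _ = (2 * Real.exp (1 / 2)) * Real.exp (|y| * B) * Real.exp (-(ε ^ 2 / 2) * w.im ^ 2) := by ring

theorem hT_diff (T ε y : ℝ) : Differentiable ℂ (hT T ε y) := by
  have h1 : hT T ε y = fun w => aT T (1 / 2 + w) * Complex.exp ((y : ℂ) * w + (ε : ℂ) ^ 2 * w ^ 2 / 2) := rfl
  rw [h1]
  have h2 : Differentiable ℂ (fun w : ℂ => aT T (1 / 2 + w)) :=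
    (aT_diff T).comp (by fun_prop)
  exact h2.mul (by fun_prop)

theorem main : S_PV1d := by
  intro T hT2 ε hε hε1
  refine ⟨2 * Real.exp (1 / 2), by positivity, fun y => ⟨⟨hT_diff T ε y, fun w hw => ?_⟩, fun w hw => ?_⟩⟩
  · have := core T hT2 ε hε hε1 y 1 zero_le_one le_rfl w hw
    rwa [mul_one] at this
  · have := core T hT2 ε hε hε1 y (1 / 2) (by norm_num) (by norm_num) w hw
    rwa [mul_one_div] at this

end Pool.Agent.N755.PV1d
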