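import Pool.Agent.N804.PV.Def

set_option autoImplicit false

namespace Pool.Agent.N755.PV3a

open Filter Topology Set MeasureTheory
open Pool.Agent.N804.PV

theorem h_bounds (T : ℝ) (hT : 2 ≤ T) : 0 < Real.log (1 + 1 / T) ∧ Real.log (1 + 1 / T) ≤ 1 / T ∧
    1 / T - 1 / (2 * T ^ 2) ≤ Real.log (1 + 1 / T) := by
  have hT0 : 0 < T := by linarith
  have h1 : 0 < 1 / T := by positivity
  refine ⟨Real.log_pos (by linarith), ?_, ?_⟩
  · have := Real.log_le_sub_one_of_pos (show 0 < 1 + 1 / T by linarith)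
    linarith
  · have h2 := Real.le_log_one_add_of_nonneg h1.le
    refine le_trans ?_ h2
    have h3 : 2 * (1 / T) / (1 / T + 2) = 2 / (1 + 2 * T) := by
      field_simp
    rw [h3]
    have h4 : 1 / T - 1 / (2 * T ^ 2) = (2 * T - 1) / (2 * T ^ 2) := by
      field_simp
    rw [h4, div_le_div_iff₀ (by positivity) (by positivity)]
    nlinarith

theorem exp_small (x : ℝ) (h0 : 0 ≤ x) (h1 : x ≤ 1 / 2) : Real.exp x ≤ 1 + 2 * x := by
  have h := Real.abs_exp_sub_one_sub_id_le (x := x) (by rw [abs_of_nonneg h0]; linarith)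
  have h2 := (abs_le.mp h).2
  nlinarith

theorem norm_cexp (v x γ : ℝ) : ‖Complex.exp ((v : ℂ) * ⟨x, γ⟩)‖ = Real.exp (v * x) := by
  rw [Complex.norm_exp]
  simp

/-- the closed formula -/
theorem aT_eq (T : ℝ) (s : ℂ) (hs : s ≠ 0) :
    aT T s = (Complex.exp ((Real.log (1 + 1 / T) : ℂ) * s) - 1) / s := by
  rw [aT]
  have h1 : ∀ v : ℝ, Complex.exp ((v : ℂ) * s) = Complex.exp (s * (v : ℂ)) := by
    intro v
    rw [mul_comm]
  simp only [h1]
  rw [integral_exp_mul_complex hs]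
  simp

theorem bound1 (T x γ : ℝ) (hT : 2 ≤ T) (hx : |x| ≤ 2) : ‖aT T ⟨x, γ⟩‖ ≤ 3 / T := by
  obtain ⟨h1, h2, h3⟩ := h_bounds T hT
  have hT0 : 0 < T := by linarith
  have h4 : 1 / T ≤ 1 / 2 := by
    rw [div_le_div_iff₀ hT0 (by norm_num)]
    linarith
  set h := Real.log (1 + 1 / T) with hh
  rw [aT]
  have h5 : ∀ v ∈ Set.uIoc (0 : ℝ) h, ‖Complex.exp ((v : ℂ) * ⟨x, γ⟩)‖ ≤ 3 := by
    intro v hv
    rw [uIoc_of_le h1.le] at hv
    rw [norm_cexp]
    have h6 : v * x ≤ 1 := by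
      have := (abs_le.mp hx).2
      have h7 : v * x ≤ v * 2 := mul_le_mul_of_nonneg_left this hv.1.le
      linarith [hv.2]
    calc Real.exp (v * x) ≤ Real.exp 1 := Real.exp_le_exp.mpr h6
      _ ≤ 3 := by linarith [Real.exp_one_lt_d9]
  have h6 := intervalIntegral.norm_integral_le_of_norm_le_const h5
  rw [sub_zero, abs_of_pos h1] at h6
  calc _ ≤ 3 * h := h6
    _ ≤ 3 * (1 / T) := by linarith
    _ = 3 / T := by ring

theorem bound2 (T x γ : ℝ) (hT : 2 ≤ T) (hx : |x| ≤ 2) (hγ : γ ≠ 0) : ‖aT T ⟨x, γ⟩‖ ≤ 4 / |γ| := by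
  obtain ⟨h1, h2, h3⟩ := h_bounds T hT
  have hT0 : 0 < T := by linarith
  have h4 : 1 / T ≤ 1 / 2 := by
    rw [div_le_div_iff₀ hT0 (by norm_num)]
    linarith
  have hs : (⟨x, γ⟩ : ℂ) ≠ 0 := by
    intro hcon
    have := congrArg Complex.im hcon
    simp at this
    exact hγ this
  rw [aT_eq T _ hs]
  set h := Real.log (1 + 1 / T) with hh
  rw [norm_div]
  have h5 : |γ| ≤ ‖(⟨x, γ⟩ : ℂ)‖ := Complex.abs_im_le_norm ⟨x, γ⟩
  have h6 : 0 < |γ| := abs_pos.mpr hγ
  have h7 : ‖Complex.exp ((h : ℂ) * ⟨x, γ⟩) - 1‖ ≤ 4 := by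
    calc ‖Complex.exp ((h : ℂ) * ⟨x, γ⟩) - 1‖ ≤ ‖Complex.exp ((h : ℂ) * ⟨x, γ⟩)‖ + ‖(1 : ℂ)‖ := norm_sub_le _ _
      _ ≤ 3 + 1 := by
          rw [norm_cexp, norm_one]
          have h8 : h * x ≤ 1 := by
            have := (abs_le.mp hx).2
            have h7 : h * x ≤ h * 2 := mul_le_mul_of_nonneg_left this h1.le
            linarith
          have := Real.exp_le_exp.mpr h8
          linarith [Real.exp_one_lt_d9]
      _ = 4 := by norm_num
  exact div_le_div₀ (by norm_num) h7 h6 h5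

theorem exp_diff (a b v : ℝ) (hv : 0 ≤ v) (hv2 : v ≤ 1 / 2) :
    ‖Complex.exp ((v : ℂ) * ⟨1 / 2, a⟩) - Complex.exp ((v : ℂ) * ⟨1 / 2, b⟩)‖ ≤ 2 * (v * |a - b|) := by
  have h1 : ∀ c : ℝ, Complex.exp ((v : ℂ) * ⟨1 / 2, c⟩) = Complex.exp ((v / 2 : ℝ) : ℂ) * Complex.exp (((v * c : ℝ) : ℂ) * Complex.I) := by
    intro c
    rw [← Complex.exp_add]
    congr 1
    apply Complex.ext
    · simp
      ring
    · simp
  rw [h1 a, h1 b, ← mul_sub, norm_mul]
  have h2 : ‖Complex.exp ((v / 2 : ℝ) : ℂ)‖ ≤ 2 := by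
    rw [Complex.norm_exp, Complex.ofReal_re]
    have := exp_small (v / 2) (by linarith) (by linarith)
    linarith
  have h3 : ‖Complex.exp (((v * a : ℝ) : ℂ) * Complex.I) - Complex.exp (((v * b : ℝ) : ℂ) * Complex.I)‖ ≤ v * |a - b| := by
    have h4 : Complex.exp (((v * a : ℝ) : ℂ) * Complex.I) - Complex.exp (((v * b : ℝ) : ℂ) * Complex.I) =
        Complex.exp (((v * b : ℝ) : ℂ) * Complex.I) * (Complex.exp (Complex.I * ((v * a - v * b : ℝ) : ℂ)) - 1) := by
      rw [mul_sub, ← Complex.exp_add, mul_one]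
      congr 2
      push_cast
      ring
    rw [h4, norm_mul, Complex.norm_exp_ofReal_mul_I, one_mul]
    refine (Real.norm_exp_I_mul_ofReal_sub_one_le).trans ?_
    rw [← mul_sub, Real.norm_eq_abs, abs_mul, abs_of_nonneg hv]
  exact mul_le_mul h2 h3 (norm_nonneg _) (by norm_num)

theorem diff1 (T a b : ℝ) (hT : 2 ≤ T) : ‖aT T ⟨1 / 2, a⟩ - aT T ⟨1 / 2, b⟩‖ ≤ 2 * |a - b| / T * (1 / T) := by
  obtain ⟨h1, h2, h3⟩ := h_bounds T hT
  have hT0 : 0 < T := by linarith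
  have h4 : 1 / T ≤ 1 / 2 := by
    rw [div_le_div_iff₀ hT0 (by norm_num)]
    linarith
  rw [aT, aT]
  set h := Real.log (1 + 1 / T) with hh
  rw [← intervalIntegral.integral_sub
    (Continuous.intervalIntegrable (by fun_prop) _ _) (Continuous.intervalIntegrable (by fun_prop) _ _)]
  have h5 : ∀ v ∈ Set.uIoc (0 : ℝ) h, ‖Complex.exp ((v : ℂ) * ⟨1 / 2, a⟩) - Complex.exp ((v : ℂ) * ⟨1 / 2, b⟩)‖ ≤
      2 * (h * |a - b|) := by
    intro v hv
    rw [uIoc_of_le h1.le] at hv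
    refine (exp_diff a b v hv.1.le (by linarith [hv.2])).trans ?_
    have := mul_le_mul_of_nonneg_right hv.2 (abs_nonneg (a - b))
    linarith
  have h6 := intervalIntegral.norm_integral_le_of_norm_le_const h5
  rw [sub_zero, abs_of_pos h1] at h6
  refine h6.trans ?_
  have h7 : 0 ≤ |a - b| := abs_nonneg _
  calc 2 * (h * |a - b|) * h = 2 * |a - b| * (h * h) := by ring
    _ ≤ 2 * |a - b| * ((1 / T) * (1 / T)) := by
        apply mul_le_mul_of_nonneg_left _ (by positivity)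
        exact mul_le_mul h2 h2 h1.le (by positivity)
    _ = 2 * |a - b| / T * (1 / T) := by ring

theorem diff2 (T a b : ℝ) (hT : 2 ≤ T) (ha : 0 < a) (hb : 0 < b) :
    ‖aT T ⟨1 / 2, a⟩ - aT T ⟨1 / 2, b⟩‖ ≤ 5 * |a - b| / T * (1 / a) := by
  obtain ⟨h1, h2, h3⟩ := h_bounds T hT
  have hT0 : 0 < T := by linarith
  have h4 : 1 / T ≤ 1 / 2 := by
    rw [div_le_div_iff₀ hT0 (by norm_num)]
    linarith
  have hne : ∀ c : ℝ, 0 < c → (⟨1 / 2, c⟩ : ℂ) ≠ 0 := by
    intro c hc hcon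
    have := congrArg Complex.im hcon
    simp at this
    exact hc.ne' this
  have hsa := hne a ha
  have hsb := hne b hb
  have hb1 := bound1 T (1 / 2) b hT (by rw [abs_of_pos (by norm_num)]; norm_num)
  have e1 := aT_eq T ⟨1 / 2, a⟩ hsa
  have e2 := aT_eq T ⟨1 / 2, b⟩ hsb
  set h := Real.log (1 + 1 / T) with hh
  have hab : (⟨1 / 2, b⟩ : ℂ) - ⟨1 / 2, a⟩ = ((b - a : ℝ) : ℂ) * Complex.I := by
    apply Complex.ext
    · simp
    · simp
  have key : aT T ⟨1 / 2, a⟩ - aT T ⟨1 / 2, b⟩ =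
      (Complex.exp ((h : ℂ) * ⟨1 / 2, a⟩) - Complex.exp ((h : ℂ) * ⟨1 / 2, b⟩)) / ⟨1 / 2, a⟩ +
        aT T ⟨1 / 2, b⟩ * ((⟨1 / 2, b⟩ : ℂ) - ⟨1 / 2, a⟩) / ⟨1 / 2, a⟩ := by
    rw [e1, e2]
    generalize (⟨1 / 2, a⟩ : ℂ) = z at *
    generalize (⟨1 / 2, b⟩ : ℂ) = w at *
    field_simp
    ring
  have hnorm : a ≤ ‖(⟨1 / 2, a⟩ : ℂ)‖ := by
    have := Complex.abs_im_le_norm ⟨1 / 2, a⟩
    rwa [show (⟨1 / 2, a⟩ : ℂ).im = a from rfl, abs_of_pos ha] at this
  have t1 : ‖(Complex.exp ((h : ℂ) * ⟨1 / 2, a⟩) - Complex.exp ((h : ℂ) * ⟨1 / 2, b⟩)) / ⟨1 / 2, a⟩‖ ≤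
      2 * |a - b| / T * (1 / a) := by
    rw [norm_div]
    have h5 := exp_diff a b h h1.le (by linarith)
    have h6 : 2 * (h * |a - b|) ≤ 2 * |a - b| / T := by
      have := mul_le_mul_of_nonneg_right h2 (abs_nonneg (a - b))
      calc 2 * (h * |a - b|) ≤ 2 * (1 / T * |a - b|) := by linarith
        _ = 2 * |a - b| / T := by ring
    have h7 := div_le_div₀ (by positivity) (h5.trans h6) ha hnorm
    rwa [div_eq_mul_one_div (2 * |a - b| / T)] at h7
  have t2 : ‖aT T ⟨1 / 2, b⟩ * ((⟨1 / 2, b⟩ : ℂ) - ⟨1 / 2, a⟩) / ⟨1 / 2, a⟩‖ ≤ 3 * |a - b| / T * (1 / a) := by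
    rw [hab, norm_div, norm_mul, norm_mul, Complex.norm_I, mul_one, Complex.norm_real, Real.norm_eq_abs, abs_sub_comm b a]
    have h6 : ‖aT T ⟨1 / 2, b⟩‖ * |a - b| ≤ 3 * |a - b| / T := by
      have := mul_le_mul_of_nonneg_right hb1 (abs_nonneg (a - b))
      calc ‖aT T ⟨1 / 2, b⟩‖ * |a - b| ≤ 3 / T * |a - b| := this
        _ = 3 * |a - b| / T := by ring
    have h7 := div_le_div₀ (by positivity) h6 ha hnorm
    rwa [div_eq_mul_one_div (3 * |a - b| / T)] at h7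
  rw [key]
  refine (norm_add_le _ _).trans ?_
  refine (add_le_add t1 t2).trans (le_of_eq ?_)
  ring

theorem sq_formula (h γ : ℝ) : ‖Complex.exp ((h : ℂ) * ⟨1 / 2, γ⟩) - 1‖ ^ 2 =
    (Real.exp (h / 2) - 1) ^ 2 + 4 * Real.exp (h / 2) * Real.sin (h * γ / 2) ^ 2 := by
  have h1 : Complex.exp ((h : ℂ) * ⟨1 / 2, γ⟩) - 1 =
      ⟨Real.exp (h / 2) * Real.cos (h * γ) - 1, Real.exp (h / 2) * Real.sin (h * γ)⟩ := by
    have hre : ((h : ℂ) * ⟨1 / 2, γ⟩).re = h / 2 := by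
      simp
      ring
    have him : ((h : ℂ) * ⟨1 / 2, γ⟩).im = h * γ := by
      simp
    apply Complex.ext
    · rw [Complex.sub_re, Complex.exp_re, hre, him, Complex.one_re]
    · rw [Complex.sub_im, Complex.exp_im, hre, him, Complex.one_im, sub_zero]
  rw [h1, ← Complex.normSq_eq_norm_sq, Complex.normSq_mk]
  have h2 : Real.cos (h * γ) = 1 - 2 * Real.sin (h * γ / 2) ^ 2 := by
    have := Real.cos_two_mul' (h * γ / 2)
    have h3 : 2 * (h * γ / 2) = h * γ := by ring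
    rw [h3] at this
    rw [this]
    have := Real.sin_sq_add_cos_sq (h * γ / 2)
    linarith
  have h3 : Real.sin (h * γ) ^ 2 = 1 - Real.cos (h * γ) ^ 2 := by
    have := Real.sin_sq_add_cos_sq (h * γ)
    linarith
  have h4 : Real.exp (h / 2) * Real.sin (h * γ) * (Real.exp (h / 2) * Real.sin (h * γ)) =
      Real.exp (h / 2) ^ 2 * Real.sin (h * γ) ^ 2 := by ring
  rw [h4, h3, h2]
  ring

theorem sin_sq_le (u : ℝ) : Real.sin u ^ 2 ≤ |u| := by
  have h1 : |Real.sin u| ≤ 1 := Real.abs_sin_le_one u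
  have h2 : |Real.sin u| ≤ |u| := Real.abs_sin_le_abs
  rw [← sq_abs]
  nlinarith [abs_nonneg (Real.sin u)]

theorem sin_sq_le' (u : ℝ) : Real.sin u ^ 2 ≤ u ^ 2 := by
  rw [sq_le_sq]
  exact Real.abs_sin_le_abs

theorem sin_sq_diff (a b : ℝ) : |Real.sin a ^ 2 - Real.sin b ^ 2| ≤ |a - b| := by
  have h1 : Real.sin a ^ 2 - Real.sin b ^ 2 = Real.sin (a - b) * Real.sin (a + b) := by
    rw [Real.sin_sub, Real.sin_add]
    have ha := Real.sin_sq_add_cos_sq a
    have hb := Real.sin_sq_add_cos_sq b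
    have ha' : Real.cos a ^ 2 = 1 - Real.sin a ^ 2 := by linarith
    have hb' : Real.cos b ^ 2 = 1 - Real.sin b ^ 2 := by linarith
    have : (Real.sin a * Real.cos b - Real.cos a * Real.sin b) * (Real.sin a * Real.cos b + Real.cos a * Real.sin b) =
      Real.sin a ^ 2 * Real.cos b ^ 2 - Real.cos a ^ 2 * Real.sin b ^ 2 := by ring
    rw [this, ha', hb']
    ring
  rw [h1, abs_mul]
  have h2 : |Real.sin (a + b)| ≤ 1 := Real.abs_sin_le_one _
  have h3 : |Real.sin (a - b)| ≤ |a - b| := Real.abs_sin_le_abs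
  calc |Real.sin (a - b)| * |Real.sin (a + b)| ≤ |a - b| * 1 := mul_le_mul h3 h2 (abs_nonneg _) (abs_nonneg _)
    _ = |a - b| := mul_one _

theorem main : S_PV3a := by
  intro h0 hh0
  refine ⟨8 + 2 / h0, by positivity, ?_⟩
  intro T hT
  obtain ⟨h1, h2, h3⟩ := h_bounds T hT
  have hT0 : 0 < T := by linarith
  have h4 : 1 / T ≤ 1 / 2 := by
    rw [div_le_div_iff₀ hT0 (by norm_num)]
    linarith
  have hC : 0 < 2 / h0 := by positivity
  refine ⟨?_, ?_, ?_⟩
  · intro x γ hx hγ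
    refine ⟨(bound1 T x γ hT hx).trans ?_, (bound2 T x γ hT hx hγ).trans ?_⟩
    · apply div_le_div_of_nonneg_right _ hT0.le
      linarith
    · apply div_le_div_of_nonneg_right _ (abs_nonneg _)
      linarith
  · intro γ γ' hγ hγ'
    have p1 : 0 < γ := lt_of_lt_of_le hh0 hγ
    have p2 : 0 < γ' := lt_of_lt_of_le hh0 hγ'
    have hpos : 0 ≤ |γ - γ'| / T := by positivity
    rw [mul_div_assoc]
    rcases min_cases (1 / T) (1 / min γ γ') with ⟨hm, _⟩ | ⟨hm, _⟩
    · rw [hm]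
      refine (diff1 T γ γ' hT).trans ?_
      rw [mul_div_assoc]
      apply mul_le_mul_of_nonneg_right _ (by positivity)
      apply mul_le_mul_of_nonneg_right _ hpos
      linarith
    · rw [hm]
      rcases min_cases γ γ' with ⟨hm2, _⟩ | ⟨hm2, _⟩
      · rw [hm2]
        refine (diff2 T γ γ' hT p1 p2).trans ?_
        rw [mul_div_assoc]
        apply mul_le_mul_of_nonneg_right _ (by positivity)
        apply mul_le_mul_of_nonneg_right _ hpos
        linarith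
      · rw [hm2, norm_sub_rev]
        refine (diff2 T γ' γ hT p2 p1).trans ?_
        rw [mul_div_assoc, abs_sub_comm]
        apply mul_le_mul_of_nonneg_right _ (by positivity)
        apply mul_le_mul_of_nonneg_right _ hpos
        linarith
  · intro γ hγ
    have p1 : 0 < γ := lt_of_lt_of_le hh0 hγ
    have hs : (⟨1 / 2, γ⟩ : ℂ) ≠ 0 := by
      intro hcon
      have := congrArg Complex.im hcon
      simp at this
      exact p1.ne' this
    rw [aT_eq T _ hs, norm_div, div_pow]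
    set h := Real.log (1 + 1 / T) with hh
    rw [sq_formula]
    have hns : ‖(⟨1 / 2, γ⟩ : ℂ)‖ ^ 2 = 1 / 4 + γ ^ 2 := by
      rw [← Complex.normSq_eq_norm_sq, Complex.normSq_mk]
      ring
    rw [hns]
    have hph : ph (γ / T) = 4 * T ^ 2 * Real.sin (γ / (2 * T)) ^ 2 / γ ^ 2 := by
      have hne : γ / T / 2 ≠ 0 := by positivity
      rw [ph, Real.sinc_of_ne_zero hne]
      have : γ / T / 2 = γ / (2 * T) := by
        rw [div_div, mul_comm T 2]
      rw [this]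
      field_simp
      ring
    rw [hph]
    set E := Real.exp (h / 2) with hE
    set A := Real.sin (h * γ / 2) with hA
    set B := Real.sin (γ / (2 * T)) with hB
    have hE1 : 1 ≤ E := Real.one_le_exp (by linarith)
    have hE2 : E - 1 ≤ 1 / T := by
      have := exp_small (h / 2) (by linarith) (by linarith)
      linarith
    set D := 1 / 4 + γ ^ 2 with hD
    have hDpos : 0 < D := by positivity
    have hDγ : γ ^ 2 ≤ D := by rw [hD]; linarith
    have split : T ^ 2 * (((E - 1) ^ 2 + 4 * E * A ^ 2) / D) - 4 * T ^ 2 * B ^ 2 / γ ^ 2 =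
        T ^ 2 * (E - 1) ^ 2 / D + 4 * T ^ 2 * (E - 1) * A ^ 2 / D + 4 * T ^ 2 * (A ^ 2 - B ^ 2) / D
          - 4 * T ^ 2 * B ^ 2 * (1 / 4) / (D * γ ^ 2) := by
      have hg : γ ^ 2 = D - 1 / 4 := by rw [hD]; ring
      have hg2 : γ ^ 2 ≠ 0 := by positivity
      field_simp
      rw [hg]
      ring
    rw [split]
    have hA1 : A ^ 2 ≤ γ / (2 * T) := by
      refine (sin_sq_le _).trans ?_
      rw [abs_of_nonneg (by positivity)]
      have := mul_le_mul_of_nonneg_right h2 p1.le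
      calc h * γ / 2 ≤ 1 / T * γ / 2 := by linarith
        _ = γ / (2 * T) := by field_simp
    have hB1 : B ^ 2 ≤ (γ / (2 * T)) ^ 2 := sin_sq_le' _
    have hAB : |A ^ 2 - B ^ 2| ≤ γ / (4 * T ^ 2) := by
      refine (sin_sq_diff _ _).trans ?_
      have h5 : h * γ / 2 - γ / (2 * T) = -((1 / T - h) * γ / 2) := by
        field_simp
        ring
      rw [h5, abs_neg, abs_of_nonneg (by have : 0 ≤ 1 / T - h := by linarith
                                         positivity)]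
      have h6 : 1 / T - h ≤ 1 / (2 * T ^ 2) := by linarith
      have := mul_le_mul_of_nonneg_right h6 p1.le
      calc (1 / T - h) * γ / 2 ≤ 1 / (2 * T ^ 2) * γ / 2 := by linarith
        _ = γ / (4 * T ^ 2) := by field_simp; ring
    have t1 : |T ^ 2 * (E - 1) ^ 2 / D| ≤ 1 / γ ^ 2 := by
      rw [abs_of_nonneg (by positivity)]
      apply div_le_div₀ zero_le_one _ (by positivity) hDγ
      have h5 : T * (E - 1) ≤ 1 := by
        have := mul_le_mul_of_nonneg_left hE2 hT0.le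
        rwa [mul_one_div_cancel hT0.ne'] at this
      have h6 : 0 ≤ T * (E - 1) := mul_nonneg hT0.le (by linarith)
      calc T ^ 2 * (E - 1) ^ 2 = (T * (E - 1)) ^ 2 := by ring
        _ ≤ 1 := by nlinarith
    have t2 : |4 * T ^ 2 * (E - 1) * A ^ 2 / D| ≤ 2 / γ := by
      have hE0 : 0 ≤ E - 1 := by linarith
      rw [abs_of_nonneg (by positivity)]
      calc 4 * T ^ 2 * (E - 1) * A ^ 2 / D ≤ (2 * γ) / γ ^ 2 := by
            apply div_le_div₀ (by positivity) _ (by positivity) hDγ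
            calc 4 * T ^ 2 * (E - 1) * A ^ 2 ≤ 4 * T ^ 2 * (1 / T) * (γ / (2 * T)) := by
                  apply mul_le_mul _ hA1 (sq_nonneg _) (by positivity)
                  apply mul_le_mul_of_nonneg_left hE2 (by positivity)
              _ = 2 * γ := by field_simp; ring
        _ = 2 / γ := by field_simp
    have t3 : |4 * T ^ 2 * (A ^ 2 - B ^ 2) / D| ≤ 1 / γ := by
      rw [abs_div, abs_of_pos hDpos, abs_mul, abs_of_pos (by positivity : 0 < 4 * T ^ 2)]
      calc 4 * T ^ 2 * |A ^ 2 - B ^ 2| / D ≤ γ / γ ^ 2 := by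
            apply div_le_div₀ p1.le _ (by positivity) hDγ
            calc 4 * T ^ 2 * |A ^ 2 - B ^ 2| ≤ 4 * T ^ 2 * (γ / (4 * T ^ 2)) :=
                  mul_le_mul_of_nonneg_left hAB (by positivity)
              _ = γ := by field_simp
        _ = 1 / γ := by field_simp
    have t4 : |4 * T ^ 2 * B ^ 2 * (1 / 4) / (D * γ ^ 2)| ≤ 1 / γ ^ 2 := by
      rw [abs_of_nonneg (by positivity)]
      calc 4 * T ^ 2 * B ^ 2 * (1 / 4) / (D * γ ^ 2) ≤ γ ^ 2 / (γ ^ 2 * γ ^ 2) := by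
            apply div_le_div₀ (by positivity) _ (by positivity)
              (mul_le_mul_of_nonneg_right hDγ (by positivity))
            calc 4 * T ^ 2 * B ^ 2 * (1 / 4) ≤ 4 * T ^ 2 * (γ / (2 * T)) ^ 2 * (1 / 4) := by
                  apply mul_le_mul_of_nonneg_right _ (by norm_num)
                  exact mul_le_mul_of_nonneg_left hB1 (by positivity)
              _ = γ ^ 2 / 4 := by field_simp; ring
              _ ≤ γ ^ 2 := by nlinarith
        _ = 1 / γ ^ 2 := by field_simp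
    have tot : |T ^ 2 * (E - 1) ^ 2 / D + 4 * T ^ 2 * (E - 1) * A ^ 2 / D + 4 * T ^ 2 * (A ^ 2 - B ^ 2) / D
          - 4 * T ^ 2 * B ^ 2 * (1 / 4) / (D * γ ^ 2)| ≤ 1 / γ ^ 2 + 2 / γ + 1 / γ + 1 / γ ^ 2 := by
      refine (abs_sub _ _).trans (add_le_add ?_ t4)
      refine (abs_add_le _ _).trans (add_le_add ?_ t3)
      exact (abs_add_le _ _).trans (add_le_add t1 t2)
    refine tot.trans ?_
    have h7 : 1 / γ ^ 2 ≤ 1 / h0 / γ := by
      rw [div_div, sq]
      apply div_le_div_of_nonneg_left zero_le_one (by positivity)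
      exact mul_le_mul_of_nonneg_right hγ p1.le
    have h8 : (8 + 2 / h0) / γ = 8 * (1 / γ) + 2 * (1 / h0 / γ) := by
      field_simp
    rw [h8]
    have h9 : 0 < 1 / γ := by positivity
    have h10 : 2 / γ = 2 * (1 / γ) := by ring
    rw [h10]
    linarith

end Pool.Agent.N755.PV3a
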