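import Pool.Agent.Y23.Zs
import Pool.Agent.N804.Glue
import Pool.Agent.N804.PV.Stm

set_option autoImplicit false

namespace Pool.Agent.N755.PV3b

open Filter Topology Set
open H370 (Zf mult)
open Pool.Agent.Y23 (IsZ mu Lg cnt zsum one_le_Lg)
open Pool.Agent.N804 (mem_ZT low_zero ZZ)

theorem mem_isZ {N : ℝ} {s : ℂ} (h : s ∈ Zf riemannZeta 0 N) : IsZ s := by
  rw [mem_ZT] at h
  exact h.1

theorem term_bound (k : ℕ) (hk : 1 ≤ k) :
    (k : ℝ) ^ (-(5 / 4 : ℝ)) * Real.log (k + 3) * Real.log (k + 3) ≤ 1024 * (k : ℝ) ^ (-(9 / 8 : ℝ)) := by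
  have hk1 : (1 : ℝ) ≤ k := by exact_mod_cast hk
  have hk0 : (0 : ℝ) < k := by linarith
  have h1 : Real.log ((k : ℝ) + 3) ≤ ((k : ℝ) + 3) ^ (1 / 16 : ℝ) / (1 / 16) :=
    Real.log_le_rpow_div (by positivity) (by norm_num)
  have h2 : ((k : ℝ) + 3) ^ (1 / 16 : ℝ) ≤ 2 * (k : ℝ) ^ (1 / 16 : ℝ) := by
    have h3 : ((k : ℝ) + 3) ^ (1 / 16 : ℝ) ≤ (4 * (k : ℝ)) ^ (1 / 16 : ℝ) :=
      Real.rpow_le_rpow (by positivity) (by linarith) (by norm_num)
    have h4 : (4 : ℝ) ^ (1 / 16 : ℝ) ≤ 2 := by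
      calc (4 : ℝ) ^ (1 / 16 : ℝ) ≤ (4 : ℝ) ^ (1 / 2 : ℝ) :=
            Real.rpow_le_rpow_of_exponent_le (by norm_num) (by norm_num)
        _ = 2 := by
            rw [show (4 : ℝ) = 2 ^ (2 : ℝ) by norm_num, ← Real.rpow_mul (by norm_num)]
            norm_num
    rw [Real.mul_rpow (by norm_num) hk0.le] at h3
    exact h3.trans (mul_le_mul_of_nonneg_right h4 (by positivity))
  have hL : Real.log ((k : ℝ) + 3) ≤ 32 * (k : ℝ) ^ (1 / 16 : ℝ) := by linarith
  have hL0 : 0 ≤ Real.log ((k : ℝ) + 3) := Real.log_nonneg (by linarith)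
  have h5 : Real.log ((k : ℝ) + 3) * Real.log ((k : ℝ) + 3) ≤ 1024 * (k : ℝ) ^ (1 / 8 : ℝ) := by
    have h6 : (k : ℝ) ^ (1 / 16 : ℝ) * (k : ℝ) ^ (1 / 16 : ℝ) = (k : ℝ) ^ (1 / 8 : ℝ) := by
      rw [← Real.rpow_add hk0]
      norm_num
    calc _ ≤ (32 * (k : ℝ) ^ (1 / 16 : ℝ)) * (32 * (k : ℝ) ^ (1 / 16 : ℝ)) :=
          mul_le_mul hL hL hL0 (by positivity)
      _ = 1024 * ((k : ℝ) ^ (1 / 16 : ℝ) * (k : ℝ) ^ (1 / 16 : ℝ)) := by ring
      _ = _ := by rw [h6]
  calc (k : ℝ) ^ (-(5 / 4 : ℝ)) * Real.log (k + 3) * Real.log (k + 3)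
      = (k : ℝ) ^ (-(5 / 4 : ℝ)) * (Real.log (k + 3) * Real.log (k + 3)) := by ring
    _ ≤ (k : ℝ) ^ (-(5 / 4 : ℝ)) * (1024 * (k : ℝ) ^ (1 / 8 : ℝ)) :=
        mul_le_mul_of_nonneg_left h5 (by positivity)
    _ = 1024 * ((k : ℝ) ^ (-(5 / 4 : ℝ)) * (k : ℝ) ^ (1 / 8 : ℝ)) := by ring
    _ = 1024 * (k : ℝ) ^ (-(9 / 8 : ℝ)) := by
        rw [← Real.rpow_add hk0]
        norm_num

theorem part2 : ∃ C : ℝ, 0 < C ∧ ∀ N : ℝ,
    ∑ s ∈ Zf riemannZeta 0 N, (mult riemannZeta s : ℝ) * s.im ^ (-(5 / 4 : ℝ)) * Real.log (s.im + 2) ≤ C := by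
  classical
  obtain ⟨C, hC, hcnt⟩ := cnt
  obtain ⟨h0, hh0, hlow⟩ := low_zero
  set G : ℕ → ℝ := fun k => if k = 0 then C * Lg 0 * (h0 ^ (-(5 / 4 : ℝ)) * Real.log 3) else
    C * (1024 * (k : ℝ) ^ (-(9 / 8 : ℝ))) with hG
  have hlog3 : 0 < Real.log 3 := Real.log_pos (by norm_num)
  have hGsum : Summable G := by
    have h1 : Summable (fun k : ℕ => C * (1024 * (k : ℝ) ^ (-(9 / 8 : ℝ)))) := by
      apply Summable.mul_left
      apply Summable.mul_left
      exact Real.summable_nat_rpow.mpr (by norm_num)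
    have h2 : Summable (fun k : ℕ => if k = 0 then C * Lg 0 * (h0 ^ (-(5 / 4 : ℝ)) * Real.log 3) else 0) :=
      summable_of_ne_finset_zero (s := {0}) fun b hb => by
        rw [Finset.mem_singleton] at hb
        rw [if_neg hb]
    refine Summable.of_nonneg_of_le (fun k => ?_) (fun k => ?_) (h1.add h2)
    · rw [hG]
      have := one_le_Lg 0
      dsimp only
      split_ifs <;> positivity
    · rw [hG]
      dsimp only
      split_ifs with hk
      · have : 0 ≤ C * (1024 * (k : ℝ) ^ (-(9 / 8 : ℝ))) := by positivity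
        linarith
      · linarith
  have hG0 : ∀ k, 0 ≤ G k := by
    intro k
    rw [hG]
    have := one_le_Lg 0
    dsimp only
    split_ifs <;> positivity
  refine ⟨∑' k, G k + 1, ?_, fun N => ?_⟩
  · have h9 : 0 ≤ ∑' k, G k := tsum_nonneg hG0
    linarith
  set S := Zf riemannZeta 0 N with hS
  have hpos : ∀ s ∈ S, 0 < s.im := by
    intro s hs
    rw [hS, mem_ZT] at hs
    exact hs.2.1
  rw [← Finset.sum_fiberwise_of_maps_to (s := S) (t := S.image (fun s => ⌊s.im⌋₊)) (g := fun s => ⌊s.im⌋₊)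
    (fun s hs => Finset.mem_image_of_mem _ hs)]
  have hblock : ∀ k ∈ S.image (fun s => ⌊s.im⌋₊),
      ∑ s ∈ S.filter (fun s => ⌊s.im⌋₊ = k), (mult riemannZeta s : ℝ) * s.im ^ (-(5 / 4 : ℝ)) *
        Real.log (s.im + 2) ≤ G k := by
    intro k _
    have hcount : ((∑ s ∈ S.filter (fun s => ⌊s.im⌋₊ = k), mu s : ℕ) : ℝ) ≤ C * Lg k := by
      apply hcnt
      intro s hs
      rw [Finset.mem_filter] at hs
      refine ⟨mem_isZ hs.1, ?_⟩
      have h1 := Nat.floor_le (hpos s hs.1).le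
      have h2 := Nat.lt_floor_add_one s.im
      rw [hs.2] at h1 h2
      rw [abs_le]
      constructor <;> linarith
    by_cases hk : k = 0
    · subst hk
      have hterm : ∀ s ∈ S.filter (fun s => ⌊s.im⌋₊ = 0), (mult riemannZeta s : ℝ) * s.im ^ (-(5 / 4 : ℝ)) *
          Real.log (s.im + 2) ≤ (mu s : ℝ) * (h0 ^ (-(5 / 4 : ℝ)) * Real.log 3) := by
        intro s hs
        rw [Finset.mem_filter] at hs
        have h1 := Nat.lt_floor_add_one s.im
        rw [hs.2] at h1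
        have h2 := hpos s hs.1
        have h3 : h0 < s.im := hlow s (mem_isZ hs.1) h2
        rw [mul_assoc]
        apply mul_le_mul_of_nonneg_left _ (Nat.cast_nonneg _)
        apply mul_le_mul
        · exact Real.rpow_le_rpow_of_nonpos hh0 h3.le (by norm_num)
        · apply Real.log_le_log (by linarith)
          push_cast at h1
          linarith
        · exact Real.log_nonneg (by linarith)
        · positivity
      refine (Finset.sum_le_sum hterm).trans ?_
      rw [← Finset.sum_mul, hG]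
      dsimp only
      rw [if_pos rfl]
      apply mul_le_mul_of_nonneg_right _ (by positivity)
      have := hcount
      push_cast at this ⊢
      exact this
    · have hk1 : 1 ≤ k := Nat.one_le_iff_ne_zero.mpr hk
      have hk1r : (1 : ℝ) ≤ k := by exact_mod_cast hk1
      have hterm : ∀ s ∈ S.filter (fun s => ⌊s.im⌋₊ = k), (mult riemannZeta s : ℝ) * s.im ^ (-(5 / 4 : ℝ)) *
          Real.log (s.im + 2) ≤ (mu s : ℝ) * ((k : ℝ) ^ (-(5 / 4 : ℝ)) * Real.log (k + 3)) := by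
        intro s hs
        rw [Finset.mem_filter] at hs
        have h1 := Nat.lt_floor_add_one s.im
        have h1' := Nat.floor_le (hpos s hs.1).le
        rw [hs.2] at h1 h1'
        have h2 := hpos s hs.1
        rw [mul_assoc]
        apply mul_le_mul_of_nonneg_left _ (Nat.cast_nonneg _)
        apply mul_le_mul
        · exact Real.rpow_le_rpow_of_nonpos (by linarith) h1' (by norm_num)
        · apply Real.log_le_log (by linarith)
          linarith
        · exact Real.log_nonneg (by linarith)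
        · positivity
      refine (Finset.sum_le_sum hterm).trans ?_
      rw [← Finset.sum_mul, hG]
      dsimp only
      rw [if_neg hk]
      have hL0 : 0 ≤ Real.log ((k : ℝ) + 3) := Real.log_nonneg (by linarith)
      have hLg : Lg (k : ℝ) = Real.log ((k : ℝ) + 3) := by
        unfold Lg
        rw [abs_of_nonneg (by linarith), add_comm]
      rw [hLg] at hcount
      push_cast at hcount
      calc (∑ i ∈ S.filter (fun s => ⌊s.im⌋₊ = k), (mu i : ℝ)) * ((k : ℝ) ^ (-(5 / 4 : ℝ)) * Real.log (k + 3))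
          ≤ (C * Real.log (k + 3)) * ((k : ℝ) ^ (-(5 / 4 : ℝ)) * Real.log (k + 3)) :=
            mul_le_mul_of_nonneg_right hcount (by positivity)
        _ = C * ((k : ℝ) ^ (-(5 / 4 : ℝ)) * Real.log (k + 3) * Real.log (k + 3)) := by ring
        _ ≤ C * (1024 * (k : ℝ) ^ (-(9 / 8 : ℝ))) := mul_le_mul_of_nonneg_left (term_bound k hk1) hC.le
  refine (Finset.sum_le_sum hblock).trans ?_
  have := hGsum.sum_le_tsum (S.image (fun s => ⌊s.im⌋₊)) (fun k _ => hG0 k)
  linarith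

theorem main : Pool.Agent.N804.PV.S_PV3b := by
  obtain ⟨K, hK, hz⟩ := zsum
  obtain ⟨C, hC, h2⟩ := part2
  refine ⟨2 * K + C, by positivity, fun N => ⟨fun t ht => ?_, (h2 N).trans (by linarith)⟩⟩
  have h1 := hz t (Zf riemannZeta 0 N) (fun s hs => mem_isZ hs)
  have h3 : Lg t ≤ 2 * Real.log (t + 2) := by
    unfold Lg
    rw [abs_of_pos ht, ← Nat.cast_two, ← Real.log_pow]
    apply Real.log_le_log (by linarith)
    push_cast
    nlinarith
  have h4 : 0 < Real.log (t + 2) := Real.log_pos (by linarith)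
  calc ∑ s ∈ Zf riemannZeta 0 N, (mult riemannZeta s : ℝ) / (1 + (t - s.im) ^ 2)
      = ∑ s ∈ Zf riemannZeta 0 N, (mu s : ℝ) * (1 / (1 + (s.im - t) ^ 2)) := by
        refine Finset.sum_congr rfl (fun s _ => ?_)
        have : (t - s.im) ^ 2 = (s.im - t) ^ 2 := by ring
        rw [this, mul_one_div]
        rfl
    _ ≤ K * Lg t := h1
    _ ≤ K * (2 * Real.log (t + 2)) := mul_le_mul_of_nonneg_left h3 hK.le
    _ ≤ (2 * K + C) * Real.log (t + 2) := by nlinarith

end Pool.Agent.N755.PV3b
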