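import Pool.Agent.N661.QB.Stm

set_option autoImplicit false
set_option linter.unusedSectionVars false

/-!
# QB/TWO (helper755 for helper661): two point functions
-/

open MeasureTheory Filter Topology Complex ProbabilityTheory
open scoped ContDiff

namespace Pool.Agent.N755.QBTWO

open Pool.Agent.W745.RW (lap dx dy TF)
open Pool.Agent.N661.BR (MW lin shift IsStationary IsErgodic J0)
open Pool.Agent.N661.BH (HP loc mv LocalLaws area frames)
open Pool.Agent.N814.BHM
open Pool.Agent.N814.BHASM (HP_open mv_cont mv_mem)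
open Pool.Agent.N661.QB

noncomputable section

/-! ### Rotations -/

lemma norm_rot (q : ℝ × Bool) (w : ℂ) : ‖rot q w‖ = ‖w‖ := by
  unfold rot
  split_ifs
  · rw [norm_mul, Complex.norm_exp_ofReal_mul_I, one_mul]
  · rw [norm_mul, Complex.norm_exp_ofReal_mul_I, one_mul, RCLike.norm_conj]

lemma rot_zero (q : ℝ × Bool) : rot q 0 = 0 := by
  unfold rot
  split_ifs <;> simp

lemma meas_rot (w : ℂ) : Measurable fun q : ℝ × Bool => rot q w := by
  unfold rot
  have h1 : Measurable fun q : ℝ × Bool => Complex.exp (q.1 * I) := by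
    have : Continuous fun t : ℝ => Complex.exp (t * I) := by fun_prop
    exact this.measurable.comp measurable_fst
  exact Measurable.ite (measurable_snd (MeasurableSet.singleton true)) (h1.mul_const _)
    (h1.mul_const _)

lemma rot_sub {t : ℝ} (ht : 0 ≤ t) (w : ℂ) : ‖rot (t, true) w - w‖ ≤ t * ‖w‖ := by
  unfold rot
  rw [if_pos rfl]
  have e : Complex.exp ((t : ℂ) * I) * w - w = (Complex.exp (I * t) - 1) * w := by
    rw [mul_comm I]
    ring
  rw [e, norm_mul]
  refine mul_le_mul_of_nonneg_right ?_ (norm_nonneg _)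
  exact Real.norm_exp_I_mul_ofReal_sub_one_le.trans (by rw [Real.norm_of_nonneg ht])

lemma loc_eq (lam : ℝ) (u : ℂ → ℝ) (z v : ℂ) : loc lam u z v = u (mv (1 / √lam) v z) := by
  unfold loc mv
  congr 4
  ring

lemma meas_Y {lam : ℝ} {u : ℂ → ℝ} (hu : Measurable u) (w : ℂ) : Measurable (Y lam u w) := by
  have e : Y lam u w = fun p => u (mv (1 / √lam) (rot p.2 w) p.1) := by
    funext p
    exact loc_eq _ _ _ _
  rw [e]
  have h1 : Measurable fun p : ℂ × (ℝ × Bool) => mv (1 / √lam) (rot p.2 w) p.1 :=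
    (mv_cont (1 / √lam)).measurable.comp
      (((meas_rot w).comp measurable_snd).prodMk measurable_fst)
  exact hu.comp h1

/-! ### Truncation -/

lemma cut_cont (M : ℝ) : Continuous (cut M) := by
  unfold cut
  exact continuous_const.max (continuous_const.min continuous_id)

lemma cut_abs {M : ℝ} (hM : 0 ≤ M) (s : ℝ) : |cut M s| ≤ M := by
  unfold cut
  exact abs_le.2 ⟨le_max_left _ _, max_le (by linarith) (min_le_left _ _)⟩

lemma cut_lip (M s t : ℝ) : |cut M s - cut M t| ≤ |s - t| := by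
  unfold cut
  refine (abs_max_sub_max_le_max _ _ _ _).trans (max_le (by simp) ?_)
  exact (abs_min_sub_min_le_max _ _ _ _).trans (max_le (by simp) le_rfl)

lemma cut_zero {M : ℝ} (hM : 0 ≤ M) : cut M 0 = 0 := by
  unfold cut
  rw [min_eq_right hM, max_eq_right (by linarith)]

lemma cut_le {M : ℝ} (hM : 0 ≤ M) (s : ℝ) : |cut M s| ≤ |s| := by
  have := cut_lip M s 0
  rwa [cut_zero hM, sub_zero, sub_zero] at this

lemma cut_eq {M s : ℝ} (h : |s| ≤ M) : cut M s = s := by
  unfold cut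
  rw [min_eq_right (abs_le.1 h).2, max_eq_right (abs_le.1 h).1]

/-- the truncated product -/
def GM (M s t : ℝ) : ℝ := cut M s * cut M t

lemma GM_cont (M : ℝ) : Continuous fun p : ℝ × ℝ => GM M p.1 p.2 := by
  unfold GM
  exact ((cut_cont M).comp continuous_fst).mul ((cut_cont M).comp continuous_snd)

lemma GM_abs {M : ℝ} (hM : 0 ≤ M) (s t : ℝ) : |GM M s t| ≤ M * M := by
  unfold GM
  rw [abs_mul]
  exact mul_le_mul (cut_abs hM s) (cut_abs hM t) (abs_nonneg _) hM

lemma GM_lip {M : ℝ} (hM : 0 ≤ M) (s t s' t' : ℝ) :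
    |GM M s t - GM M s' t'| ≤ M * (|s - s'| + |t - t'|) := by
  unfold GM
  have e : cut M s * cut M t - cut M s' * cut M t' =
      (cut M s - cut M s') * cut M t + cut M s' * (cut M t - cut M t') := by ring
  rw [e]
  refine (abs_add_le _ _).trans ?_
  rw [abs_mul, abs_mul, mul_add, mul_comm M |s - s'|]
  exact add_le_add (mul_le_mul (cut_lip _ _ _) (cut_abs hM t) (abs_nonneg _) (abs_nonneg _))
    (mul_le_mul (cut_abs hM s') (cut_lip _ _ _) (abs_nonneg _) hM)

lemma meas_eval (w : ℂ) : Measurable fun f : MW => f w :=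
  (measurable_pi_apply w).comp measurable_subtype_coe

lemma meas_GM (M : ℝ) {α : Type} [MeasurableSpace α] {f g : α → ℝ} (hf : Measurable f)
    (hg : Measurable g) : Measurable fun x => GM M (f x) (g x) :=
  (GM_cont M).measurable.comp (hf.prodMk hg)

lemma cM_lim {μ : Measure MW} (w : ℂ) (h0 : Integrable (fun f : MW => f 0 ^ 2) μ)
    (hw : Integrable (fun f : MW => f w ^ 2) μ) :
    Tendsto (fun M : ℝ => ∫ f : MW, GM M (f 0) (f w) ∂μ) atTop
      (𝓝 (∫ f : MW, f 0 * f w ∂μ)) := by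
  refine tendsto_integral_filter_of_dominated_convergence (fun f : MW => f 0 ^ 2 + f w ^ 2) ?_ ?_
    (h0.add hw) ?_
  · exact Eventually.of_forall fun M =>
      (meas_GM M (meas_eval 0) (meas_eval w)).aestronglyMeasurable
  · filter_upwards [eventually_ge_atTop 0] with M hM
    refine Eventually.of_forall fun f => ?_
    unfold GM
    rw [Real.norm_eq_abs, abs_mul]
    have h1 := cut_le hM (f 0)
    have h2 := cut_le hM (f w)
    have h3 : |cut M (f 0)| * |cut M (f w)| ≤ |f 0| * |f w| :=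
      mul_le_mul h1 h2 (abs_nonneg _) (abs_nonneg _)
    have h4 := sq_nonneg (|f 0| - |f w|)
    have h5 := sq_abs (f 0)
    have h6 := sq_abs (f w)
    nlinarith [sq_nonneg (f 0), sq_nonneg (f w)]
  · refine Eventually.of_forall fun f => ?_
    refine tendsto_const_nhds.congr' ?_
    filter_upwards [eventually_ge_atTop (max |f 0| |f w|)] with M hM
    unfold GM
    rw [cut_eq ((le_max_left _ _).trans hM), cut_eq ((le_max_right _ _).trans hM)]

lemma meas_shift (x : ℂ) : Measurable (shift x) := by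
  refine Measurable.subtype_mk (measurable_pi_lambda _ fun y => ?_)
  exact meas_eval (y + x)

lemma sq_int {ρ : Measure MW} (hs : IsStationary ρ) (h : Integrable (fun f : MW => f 0 ^ 2) ρ)
    (w : ℂ) : Integrable (fun f : MW => f w ^ 2) ρ := by
  have h1 : MeasurePreserving (shift w) ρ ρ := ⟨meas_shift w, hs w⟩
  have h2 := h1.integrable_comp_of_integrable h
  refine h2.congr (Eventually.of_forall fun f => ?_)
  show (f (0 + w)) ^ 2 = f w ^ 2
  rw [zero_add]

/-! ### Hypotheses -/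

variable {Ω : Set ℂ} {lam : ℕ → ℝ} {u : ℕ → ℂ → ℝ}

lemma hlim0 (H : HypE Ω lam u) : Tendsto (fun n => 1 / √(lam n)) atTop (𝓝 0) := by
  have h1 : Tendsto (fun n => (√(lam n))⁻¹) atTop (𝓝 0) :=
    tendsto_inv_atTop_zero.comp (Real.tendsto_sqrt_atTop.comp H.lim)
  simpa only [one_div] using h1

lemma small (H : HypE Ω lam u) (R : ℝ) : ∀ᶠ n in atTop, 1 / √(lam n) * R < 1 := by
  have h1 : Tendsto (fun n => 1 / √(lam n) * R) atTop (𝓝 (0 * R)) := (hlim0 H).mul_const _
  rw [zero_mul] at h1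
  exact h1.eventually (gt_mem_nhds one_pos)

lemma mpos (H : HypE Ω lam u) : 0 < mass Ω := mass_pos H.op (fun z hz => H.sub hz) H.ne H.int

lemma probz (H : HypE Ω lam u) : IsProbabilityMeasure (Pz Ω) :=
  Pz_prob H.op (fun z hz => H.sub hz) H.ne H.int

lemma bound {φ : ℂ → ℝ} (hφ : TF Ω φ) : ∃ B : ℝ, 0 ≤ B ∧ ∀ z : ℂ, |φ z| * z.im ^ 2 ≤ B := by
  have hc : Continuous fun z : ℂ => φ z * z.im ^ 2 :=
    hφ.1.continuous.mul (Complex.continuous_im.pow 2)
  obtain ⟨C, hC⟩ := hc.bounded_above_of_compact_support hφ.2.1.mul_right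
  refine ⟨C, (norm_nonneg _).trans (hC 0), fun z => ?_⟩
  have h := hC z
  rwa [norm_mul, Real.norm_eq_abs, Real.norm_of_nonneg (sq_nonneg _)] at h

lemma phi_int {φ : ℂ → ℝ} (hφ : TF Ω φ) : Integrable φ :=
  hφ.1.continuous.integrable_of_hasCompactSupport hφ.2.1

lemma tf_zero {φ : ℂ → ℝ} (hφ : TF Ω φ) {z : ℂ} (hz : z ∉ Ω) : φ z = 0 :=
  image_eq_zero_of_notMem_tsupport (fun h => hz (hφ.2.2 h))

lemma phi_mul {φ : ℂ → ℝ} (hφ : TF Ω φ) {g : ℂ → ℝ} (hg : Measurable g) {K : ℝ}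
    (hK : ∀ z, |g z| ≤ K) : Integrable fun z => φ z * g z :=
  (phi_int hφ).mul_bdd hg.aestronglyMeasurable (Eventually.of_forall hK)

lemma l1 (H : HypE Ω lam u) {φ : ℂ → ℝ} (hφ : TF Ω φ) {B : ℝ} (hB0 : 0 ≤ B)
    (hB : ∀ z : ℂ, |φ z| * z.im ^ 2 ≤ B)
    {F : ℂ × (ℝ × Bool) → ℝ} (hF : Measurable F) {K : ℝ} (hK : ∀ p, |F p| ≤ K) {η : ℝ}
    (hη : 0 < η) (h : ∫ p, F p ^ 2 ∂(P Ω) ≤ η ^ 2) :
    ∫ q, (∫ z, |φ z| * |F (z, q)|) ∂Q ≤ mass Ω * B * η := by
  have hp := probz H
  have hm := mpos H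
  have hPP : IsProbabilityMeasure (P Ω) := by
    unfold P
    infer_instance
  have hK0 : 0 ≤ K := (abs_nonneg _).trans (hK (0, (0, true)))
  have hFi : Integrable F (P Ω) :=
    Integrable.of_bound hF.aestronglyMeasurable K (Eventually.of_forall hK)
  have hFi2 : Integrable (fun p => F p ^ 2) (P Ω) := by
    refine Integrable.of_bound (hF.pow_const 2).aestronglyMeasurable (K ^ 2)
      (Eventually.of_forall fun p => ?_)
    rw [norm_pow, Real.norm_eq_abs]
    exact pow_le_pow_left₀ (abs_nonneg _) (hK p) 2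
  have e1 : ∀ q, ∫ z, |φ z| * |F (z, q)| ≤ mass Ω * B * ∫ z, |F (z, q)| ∂(Pz Ω) := by
    intro q
    have e2 : ∫ z, |φ z| * |F (z, q)| =
        mass Ω * ∫ z, (|φ z| * z.im ^ 2) * |F (z, q)| ∂(Pz Ω) := by
      rw [int_Pz hm, smul_eq_mul, ← mul_assoc, mul_inv_cancel₀ hm.ne', one_mul,
        ← setIntegral_eq_integral_of_forall_compl_eq_zero (s := Ω)]
      · refine setIntegral_congr_fun H.op.measurableSet fun z hz => ?_
        have h3 : z.im ≠ 0 := (H.sub hz : 0 < z.im).ne'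
        simp only [smul_eq_mul]
        field_simp
      · intro z hz
        rw [tf_zero hφ hz]
        simp
    rw [e2, mul_assoc]
    refine mul_le_mul_of_nonneg_left ?_ hm.le
    rw [← integral_const_mul B]
    refine integral_mono_of_nonneg (Eventually.of_forall fun z => by positivity) ?_
      (Eventually.of_forall fun z => mul_le_mul_of_nonneg_right (hB z) (abs_nonneg _))
    refine Integrable.const_mul ?_ B
    exact Integrable.of_bound (hF.comp measurable_prodMk_right).abs.aestronglyMeasurable K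
      (Eventually.of_forall fun z => by rw [Real.norm_eq_abs, abs_abs]; exact hK _)
  have e3 : ∫ q, (∫ z, |F (z, q)| ∂(Pz Ω)) ∂Q = ∫ p, |F p| ∂(P Ω) := by
    have h4 := hFi.abs
    unfold P at h4 ⊢
    exact (integral_prod_symm _ h4).symm
  have e4 : ∫ p, |F p| ∂(P Ω) ≤ η := by
    have h5 : ∫ p, |F p| ∂(P Ω) ≤ ∫ p, (F p ^ 2 / (2 * η) + η / 2) ∂(P Ω) := by
      refine integral_mono hFi.abs ((hFi2.div_const _).add (integrable_const _)) fun p => ?_
      show |F p| ≤ F p ^ 2 / (2 * η) + η / 2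
      have h6 : F p ^ 2 / (2 * η) + η / 2 - |F p| = (|F p| - η) ^ 2 / (2 * η) := by
        rw [← sq_abs (F p)]
        field_simp
        ring
      have h7 : 0 ≤ (|F p| - η) ^ 2 / (2 * η) := by positivity
      linarith
    rw [integral_add (hFi2.div_const _) (integrable_const _), integral_div, integral_const,
      probReal_univ, one_smul] at h5
    have h8 : (∫ p, F p ^ 2 ∂(P Ω)) / (2 * η) ≤ η ^ 2 / (2 * η) :=
      div_le_div_of_nonneg_right h (by positivity)
    have h9 : η ^ 2 / (2 * η) = η / 2 := by field_simp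
    linarith
  have hfs : Measurable fun q => ∫ z, |F (z, q)| ∂(Pz Ω) :=
    (hF.abs.stronglyMeasurable.integral_prod_left').measurable
  calc ∫ q, (∫ z, |φ z| * |F (z, q)|) ∂Q
      ≤ ∫ q, mass Ω * B * (∫ z, |F (z, q)| ∂(Pz Ω)) ∂Q := by
        refine integral_mono_of_nonneg
          (Eventually.of_forall fun q => integral_nonneg fun z => by positivity) ?_
          (Eventually.of_forall e1)
        refine Integrable.const_mul ?_ _
        refine Integrable.of_bound hfs.aestronglyMeasurable K (Eventually.of_forall fun q => ?_)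
        rw [Real.norm_of_nonneg (integral_nonneg fun z => abs_nonneg _)]
        have h10 : ∫ z, |F (z, q)| ∂(Pz Ω) ≤ ∫ z, K ∂(Pz Ω) := by
          refine integral_mono ?_ (integrable_const _) fun z => hK _
          exact Integrable.of_bound (hF.comp measurable_prodMk_right).abs.aestronglyMeasurable K
            (Eventually.of_forall fun z => by rw [Real.norm_eq_abs, abs_abs]; exact hK _)
        simpa using h10
    _ = mass Ω * B * ∫ p, |F p| ∂(P Ω) := by rw [integral_const_mul, e3]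
    _ ≤ mass Ω * B * η := mul_le_mul_of_nonneg_left e4 (by positivity)

lemma T2c_eq (M : ℝ) (φ : ℂ → ℝ) (lam : ℝ) (u : ℂ → ℝ) (q : ℝ × Bool) (w : ℂ) :
    T2c M φ lam u (rot q w) = ∫ z, φ z * GM M (Y lam u 0 (z, q)) (Y lam u w (z, q)) := by
  unfold T2c
  congr 1
  funext z
  have h1 : Y lam u 0 (z, q) = u z := by
    unfold Y
    rw [rot_zero]
    unfold loc
    rw [mul_zero, add_zero]
  have h2 : Y lam u w (z, q) = u (mv (1 / √lam) (rot q w) z) := loc_eq _ _ _ _
  rw [h1, h2]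
  rfl

lemma T2c_meas (M : ℝ) {φ : ℂ → ℝ} (hφ : TF Ω φ) (lam : ℝ) {u : ℂ → ℝ} (hu : Measurable u)
    (w : ℂ) : Measurable fun q => T2c M φ lam u (rot q w) := by
  have e : (fun q => T2c M φ lam u (rot q w)) =
      fun q => ∫ z, φ z * GM M (Y lam u 0 (z, q)) (Y lam u w (z, q)) :=
    funext fun q => T2c_eq M φ lam u q w
  rw [e]
  have h1 : Measurable fun p : ℂ × (ℝ × Bool) => φ p.1 * GM M (Y lam u 0 p) (Y lam u w p) :=
    (hφ.1.continuous.measurable.comp measurable_fst).mul (meas_GM M (meas_Y hu 0) (meas_Y hu w))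
  exact (h1.stronglyMeasurable.integral_prod_left').measurable

lemma T2c_bdd {M : ℝ} (hM : 0 ≤ M) {φ : ℂ → ℝ} (hφ : TF Ω φ) (lam : ℝ) {u : ℂ → ℝ}
    (w : ℂ) (q : ℝ × Bool) : |T2c M φ lam u (rot q w)| ≤ ∫ z, |φ z| * (M * M) := by
  rw [T2c_eq, ← Real.norm_eq_abs]
  refine norm_integral_le_of_norm_le ((phi_int hφ).abs.mul_const _)
    (Eventually.of_forall fun z => ?_)
  rw [norm_mul, Real.norm_eq_abs, Real.norm_eq_abs]
  exact mul_le_mul_of_nonneg_left (GM_abs hM _ _) (abs_nonneg _)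

/-- the truncated two point functions of random frames -/
theorem claimA (hFDD : S_FDD) (hERG : S_ERG0) (hSH : S_SH) (H : HypE Ω lam u)
    (hu : ∀ n, Measurable (u n)) {μ : Measure MW} (hμ : IsProbabilityMeasure μ)
    (hL : LocalLaws Ω lam u μ) (hs : IsStationary μ) (he : IsErgodic μ) {φ : ℂ → ℝ}
    (hφ : TF Ω φ) {M : ℝ} (hM : 0 ≤ M) (w : ℂ) {ε : ℝ} (hε : 0 < ε) :
    ∀ᶠ n in atTop, ∫ q, |T2c M φ (lam n) (u n) (rot q w) -
      (∫ f : MW, GM M (f 0) (f w) ∂μ) * ∫ z, φ z| ∂Q < ε := by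
  obtain ⟨cM, hcM⟩ : ∃ cM : ℝ, cM = ∫ f : MW, GM M (f 0) (f w) ∂μ := ⟨_, rfl⟩
  rw [← hcM]
  obtain ⟨B, hB0, hB⟩ := bound hφ
  have hm := mpos H
  obtain ⟨η, hη, hηε⟩ : ∃ η : ℝ, 0 < η ∧ η + mass Ω * B * η < ε := by
    refine ⟨ε / (2 * (1 + mass Ω * B)), by positivity, ?_⟩
    have e : ε / (2 * (1 + mass Ω * B)) + mass Ω * B * (ε / (2 * (1 + mass Ω * B))) = ε / 2 := by
      have : 1 + mass Ω * B ≠ 0 := by positivity
      field_simp
    rw [e]
    linarith
  obtain ⟨m, x, p, hp0, hp1, hE⟩ := hERG μ hμ hs he (fun f : MW => GM M (f 0) (f w))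
    (meas_GM M (meas_eval 0) (meas_eval w)) ⟨M * M, fun f => GM_abs hM _ _⟩ (η ^ 2 / 2)
    (by positivity)
  have hsum : ∀ (g : Fin m → ℝ), (∀ j, |g j| ≤ M * M) → |∑ j, p j * g j| ≤ M * M := by
    intro g hg
    calc |∑ j, p j * g j| ≤ ∑ j, |p j * g j| := Finset.abs_sum_le_sum_abs _ _
      _ ≤ ∑ j, p j * (M * M) := by
          refine Finset.sum_le_sum fun j _ => ?_
          rw [abs_mul, abs_of_nonneg (hp0 j)]
          exact mul_le_mul_of_nonneg_left (hg j) (hp0 j)
      _ = M * M := by rw [← Finset.sum_mul, hp1, one_mul]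
  have hF : Tendsto (fun n => ∫ pt, (∑ j, p j * GM M (Y (lam n) (u n) (0 + x j) pt)
      (Y (lam n) (u n) (w + x j) pt) - cM) ^ 2 ∂(P Ω)) atTop
      (𝓝 (∫ f : MW, (∑ j, p j * GM M (f (0 + x j)) (f (w + x j)) - cM) ^ 2 ∂μ)) := by
    have h1 := hFDD Ω lam u H μ hμ hL (m + m)
      (Fin.append (fun j => 0 + x j) (fun j => w + x j))
      (fun s => (∑ j, p j * GM M (s (Fin.castAdd m j)) (s (Fin.natAdd m j)) - cM) ^ 2) ?_ ?_
    · simpa only [Fin.append_left, Fin.append_right] using h1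
    · refine ((continuous_finsetSum _ fun j _ => ?_).sub continuous_const).pow 2
      exact continuous_const.mul
        ((GM_cont M).comp (f := fun s : Fin (m + m) → ℝ => (s (Fin.castAdd m j), s (Fin.natAdd m j)))
          ((continuous_apply (Fin.castAdd m j)).prodMk (continuous_apply (Fin.natAdd m j))))
    · refine ⟨(M * M + |cM|) ^ 2, fun s => ?_⟩
      rw [abs_pow]
      refine pow_le_pow_left₀ (abs_nonneg _) ?_ 2
      refine (abs_sub _ _).trans (add_le_add (hsum _ fun j => GM_abs hM _ _) le_rfl)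
  have hlt : ∫ f : MW, (∑ j, p j * GM M (f (0 + x j)) (f (w + x j)) - cM) ^ 2 ∂μ < η ^ 2 := by
    have h1 : ∫ f : MW, (∑ j, p j * GM M (f (0 + x j)) (f (w + x j)) - cM) ^ 2 ∂μ ≤
        η ^ 2 / 2 := by
      rw [hcM]
      exact hE
    have h2 : 0 < η ^ 2 := by positivity
    linarith
  have ev1 := hF.eventually (gt_mem_nhds hlt)
  have ev2 : ∀ᶠ n in atTop, ∀ j, ∀ q : ℝ × Bool,
      |(∫ z, φ z * GM M (Y (lam n) (u n) (0 + x j) (z, q)) (Y (lam n) (u n) (w + x j) (z, q))) -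
      ∫ z, φ z * GM M (Y (lam n) (u n) 0 (z, q)) (Y (lam n) (u n) w (z, q))| ≤ η := by
    refine eventually_all.2 fun j => ?_
    refine hSH Ω lam u H φ hφ (GM M) (M + M * M) (fun s t => ?_) (fun s t s' t' => ?_) 0 w (x j) η
      hη
    · exact (GM_abs hM s t).trans (by linarith)
    · refine (GM_lip hM s t s' t').trans (mul_le_mul_of_nonneg_right ?_ (by positivity))
      have : 0 ≤ M * M := by positivity
      linarith
  filter_upwards [ev1, ev2] with n h1 h2
  obtain ⟨F, hFd⟩ : ∃ F : ℂ × (ℝ × Bool) → ℝ, F = fun pt =>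
    ∑ j, p j * GM M (Y (lam n) (u n) (0 + x j) pt) (Y (lam n) (u n) (w + x j) pt) - cM := ⟨_, rfl⟩
  have hgm : ∀ j, Measurable fun pt =>
      GM M (Y (lam n) (u n) (0 + x j) pt) (Y (lam n) (u n) (w + x j) pt) := fun j =>
    meas_GM M (meas_Y (hu n) _) (meas_Y (hu n) _)
  have hFm : Measurable F := by
    rw [hFd]
    exact (Finset.measurable_fun_sum _ fun j _ => (hgm j).const_mul _).sub_const _
  have hFb : ∀ pt, |F pt| ≤ M * M + |cM| := by
    intro pt
    rw [hFd]
    exact (abs_sub _ _).trans (add_le_add (hsum _ fun j => GM_abs hM _ _) le_rfl)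
  have hl1 := l1 H hφ hB0 hB hFm hFb hη (by rw [hFd]; exact h1.le)
  have hpt : ∀ q : ℝ × Bool, |T2c M φ (lam n) (u n) (rot q w) - cM * ∫ z, φ z| ≤
      η + ∫ z, |φ z| * |F (z, q)| := by
    intro q
    have hgi : ∀ j, Integrable fun z =>
        φ z * GM M (Y (lam n) (u n) (0 + x j) (z, q)) (Y (lam n) (u n) (w + x j) (z, q)) :=
      fun j => phi_mul hφ ((hgm j).comp measurable_prodMk_right) fun z => GM_abs hM _ _
    have e1 : T2c M φ (lam n) (u n) (rot q w) - cM * ∫ z, φ z =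
        (∑ j, p j * (T2c M φ (lam n) (u n) (rot q w) - ∫ z, φ z *
          GM M (Y (lam n) (u n) (0 + x j) (z, q)) (Y (lam n) (u n) (w + x j) (z, q)))) +
        ∫ z, φ z * F (z, q) := by
      have e2 : ∫ z, φ z * F (z, q) = (∑ j, p j * ∫ z, φ z *
          GM M (Y (lam n) (u n) (0 + x j) (z, q)) (Y (lam n) (u n) (w + x j) (z, q))) -
          cM * ∫ z, φ z := by
        have e3 : ∀ z, φ z * F (z, q) = (∑ j, p j * (φ z *
          GM M (Y (lam n) (u n) (0 + x j) (z, q)) (Y (lam n) (u n) (w + x j) (z, q)))) -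
          cM * φ z := by
          intro z
          rw [hFd]
          simp only
          rw [mul_sub, Finset.mul_sum, mul_comm cM]
          congr 1
          exact Finset.sum_congr rfl fun j _ => by ring
        simp only [e3]
        rw [integral_sub (integrable_finsetSum _ fun j _ => (hgi j).const_mul _)
          ((phi_int hφ).const_mul _), integral_finsetSum _ fun j _ => (hgi j).const_mul _,
          integral_const_mul]
        congr 1
        exact Finset.sum_congr rfl fun j _ => integral_const_mul _ _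
      rw [e2]
      simp only [mul_sub, Finset.sum_sub_distrib]
      rw [← Finset.sum_mul, hp1, one_mul]
      ring
    rw [e1]
    refine (abs_add_le _ _).trans (add_le_add ?_ ?_)
    · calc |∑ j, p j * (T2c M φ (lam n) (u n) (rot q w) - ∫ z, φ z *
            GM M (Y (lam n) (u n) (0 + x j) (z, q)) (Y (lam n) (u n) (w + x j) (z, q)))|
          ≤ ∑ j, |p j * (T2c M φ (lam n) (u n) (rot q w) - ∫ z, φ z *
            GM M (Y (lam n) (u n) (0 + x j) (z, q)) (Y (lam n) (u n) (w + x j) (z, q)))| :=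
            Finset.abs_sum_le_sum_abs _ _
        _ ≤ ∑ j, p j * η := by
            refine Finset.sum_le_sum fun j _ => ?_
            rw [abs_mul, abs_of_nonneg (hp0 j), T2c_eq, abs_sub_comm]
            exact mul_le_mul_of_nonneg_left (h2 j q) (hp0 j)
        _ = η := by rw [← Finset.sum_mul, hp1, one_mul]
    · rw [← Real.norm_eq_abs]
      refine (norm_integral_le_integral_norm _).trans (le_of_eq ?_)
      congr 1
      funext z
      rw [norm_mul, Real.norm_eq_abs, Real.norm_eq_abs]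
  have hint : Integrable (fun q => ∫ z, |φ z| * |F (z, q)|) Q := by
    have hm1 : Measurable fun pt : ℂ × (ℝ × Bool) => |φ pt.1| * |F pt| :=
      (hφ.1.continuous.measurable.comp measurable_fst).abs.mul hFm.abs
    refine Integrable.of_bound (hm1.stronglyMeasurable.integral_prod_left').aestronglyMeasurable
      (∫ z, |φ z| * (M * M + |cM|)) (Eventually.of_forall fun q => ?_)
    refine norm_integral_le_of_norm_le ((phi_int hφ).abs.mul_const _)
      (Eventually.of_forall fun z => ?_)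
    rw [norm_mul, Real.norm_eq_abs, Real.norm_eq_abs, abs_abs, abs_abs]
    exact mul_le_mul_of_nonneg_left (hFb _) (abs_nonneg _)
  calc ∫ q, |T2c M φ (lam n) (u n) (rot q w) - cM * ∫ z, φ z| ∂Q
      ≤ ∫ q, (η + ∫ z, |φ z| * |F (z, q)|) ∂Q :=
        integral_mono_of_nonneg (Eventually.of_forall fun q => abs_nonneg _)
          ((integrable_const _).add hint) (Eventually.of_forall hpt)
    _ = η + ∫ q, (∫ z, |φ z| * |F (z, q)|) ∂Q := by
        rw [integral_add (integrable_const _) hint, integral_const, probReal_univ, one_smul]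
    _ ≤ η + mass Ω * B * η := by linarith
    _ < ε := hηε

lemma Q_pos {δ : ℝ} (hδ : 0 < δ) : 0 < Q.real (Set.Ioc 0 δ ×ˢ {true}) := by
  have h1 : Q (Set.Ioc 0 δ ×ˢ {true}) ≠ 0 := by
    unfold Q
    rw [Measure.prod_prod]
    refine mul_ne_zero ?_ ?_
    · unfold Pt
      rw [Measure.smul_apply, smul_eq_mul, Measure.restrict_apply measurableSet_Ioc,
        Set.Ioc_inter_Ioc, Real.volume_Ioc]
      refine mul_ne_zero (ENNReal.inv_ne_zero.2 ENNReal.ofReal_ne_top) ?_
      rw [Ne, ENNReal.ofReal_eq_zero, not_le]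
      have : 0 < min δ (2 * Real.pi) := lt_min hδ (by positivity)
      simpa using this
    · unfold Pb
      rw [Measure.smul_apply, smul_eq_mul, Measure.count_singleton, mul_one]
      exact ENNReal.inv_ne_zero.2 (by norm_num)
  exact ENNReal.toReal_pos h1 (measure_ne_top _ _)

/-- the theorem for measurable functions -/
theorem two_meas (hFDD : S_FDD) (hUI : S_UI) (hERG : S_ERG0) (hSH : S_SH) (hEQ : S_EQ)
    (hTR : S_TR) (hCOV : S_COV) (H : HypE Ω lam u) (hu : ∀ n, Measurable (u n))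
    {μ : Measure MW} (hμ : IsProbabilityMeasure μ) (hL : LocalLaws Ω lam u μ)
    (hs : IsStationary μ) (he : IsErgodic μ) (h1 : ∫ f : MW, f 0 ^ 2 ∂μ = 1) {φ : ℂ → ℝ}
    (hφ : TF Ω φ) (w : ℂ) :
    Tendsto (fun n => T2 φ (lam n) (u n) w) atTop (𝓝 (J0 ‖w‖ * ∫ z, φ z)) := by
  have h0i : Integrable (fun f : MW => f 0 ^ 2) μ := by
    by_contra hcon
    rw [integral_undef hcon] at h1
    exact zero_ne_one h1
  have hlim := (cM_lim w h0i (sq_int hs h0i w)).mul_const (∫ z, φ z)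
  rw [hCOV Ω lam u μ hμ hL hs h1 w] at hlim
  have hui := hUI Ω lam u H μ hμ hL h1
  obtain ⟨C, hC⟩ := hEQ Ω lam u H φ hφ ‖w‖
  rw [Metric.tendsto_nhds]
  intro ε hε
  have hε5 : 0 < ε / 5 := by positivity
  obtain ⟨M0, hM0⟩ := hTR Ω lam u H hui φ hφ ‖w‖ (ε / 5) hε5
  obtain ⟨M, hMM0, hM, hMlim⟩ := ((eventually_ge_atTop M0).and ((eventually_ge_atTop 0).and
    (Metric.tendsto_nhds.1 hlim (ε / 5) hε5))).exists
  obtain ⟨cM, hcM⟩ : ∃ cM : ℝ, cM = ∫ f : MW, GM M (f 0) (f w) ∂μ := ⟨_, rfl⟩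
  obtain ⟨Φ, hΦ⟩ : ∃ Φ : ℝ, Φ = ∫ z, φ z := ⟨_, rfl⟩
  obtain ⟨δ, hδ, hδ2⟩ : ∃ δ : ℝ, 0 < δ ∧ |C| * (δ * ‖w‖) ≤ ε / 5 := by
    refine ⟨ε / 5 / (|C| * ‖w‖ + 1), by positivity, ?_⟩
    have e : |C| * (ε / 5 / (|C| * ‖w‖ + 1) * ‖w‖) = ε / 5 * (|C| * ‖w‖ / (|C| * ‖w‖ + 1)) := by
      ring
    rw [e]
    have h3 : |C| * ‖w‖ / (|C| * ‖w‖ + 1) ≤ 1 := by
      rw [div_le_one (by positivity)]
      linarith
    calc ε / 5 * (|C| * ‖w‖ / (|C| * ‖w‖ + 1)) ≤ ε / 5 * 1 :=
          mul_le_mul_of_nonneg_left h3 hε5.le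
      _ = ε / 5 := mul_one _
  have hS := Q_pos hδ
  filter_upwards [hC, hM0 M hMM0, claimA hFDD hERG hSH H hu hμ hL hs he hφ hM w
    (mul_pos hε5 hS)] with n hn1 hn2 hn3
  rw [← hcM, ← hΦ] at hn3 hMlim
  rw [← hΦ]
  obtain ⟨q, hqS, hq⟩ : ∃ q ∈ Set.Ioc 0 δ ×ˢ ({true} : Set Bool),
      |T2c M φ (lam n) (u n) (rot q w) - cM * Φ| < ε / 5 := by
    by_contra hcon
    push Not at hcon
    have hint : Integrable (fun q => |T2c M φ (lam n) (u n) (rot q w) - cM * Φ|) Q := by
      refine Integrable.of_bound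
        ((T2c_meas M hφ (lam n) (hu n) w).sub_const _).abs.aestronglyMeasurable
        ((∫ z, |φ z| * (M * M)) + |cM * Φ|) (Eventually.of_forall fun q => ?_)
      rw [Real.norm_eq_abs, abs_abs]
      exact (abs_sub _ _).trans (add_le_add (T2c_bdd hM hφ _ _ _) le_rfl)
    have h5 := mul_meas_ge_le_integral_of_nonneg
      (Eventually.of_forall fun q => abs_nonneg _) hint (ε / 5)
    have h6 : Q.real (Set.Ioc 0 δ ×ˢ ({true} : Set Bool)) ≤
        Q.real {q | ε / 5 ≤ |T2c M φ (lam n) (u n) (rot q w) - cM * Φ|} :=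
      measureReal_mono fun q hq => hcon q hq
    have h7 := mul_le_mul_of_nonneg_left h6 hε5.le
    linarith
  obtain ⟨t, b⟩ := q
  obtain ⟨⟨ht0, htδ⟩, hb⟩ := hqS
  have hb' : b = true := hb
  subst hb'
  have ht0' : 0 < t := ht0
  have htδ' : t ≤ δ := htδ
  have k1 := hn1 w (rot (t, true) w) le_rfl (norm_rot _ _).le
  have k2 := hn2 (rot (t, true) w) (norm_rot _ _).le
  have k3 : C * ‖w - rot (t, true) w‖ ≤ ε / 5 := by
    refine le_trans ?_ hδ2
    refine mul_le_mul (le_abs_self C) ?_ (norm_nonneg _) (abs_nonneg _)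
    rw [norm_sub_rev]
    exact (rot_sub ht0'.le w).trans (mul_le_mul_of_nonneg_right htδ' (norm_nonneg _))
  rw [Real.dist_eq] at hMlim ⊢
  have k4 := abs_le.1 (k1.trans k3)
  have k5 := abs_le.1 k2
  have k6 := abs_lt.1 hq
  have k7 := abs_lt.1 hMlim
  rw [abs_lt]
  constructor <;> linarith [k4.1, k4.2, k5.1, k5.2, k6.1, k6.2, k7.1, k7.2]

/-! ### Continuation by zero -/

/-- continuation by zero -/
def U (u : ℕ → ℂ → ℝ) (n : ℕ) : ℂ → ℝ := HP.indicator (u n)

lemma U_eq {n : ℕ} {z : ℂ} (hz : z ∈ HP) : U u n z = u n z := Set.indicator_of_mem hz _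

lemma U_meas {n : ℕ} (hu : ContDiffOn ℝ ∞ (u n) HP) : Measurable (U u n) := by
  classical
  have h := ContinuousOn.measurable_piecewise (s := HP) (f := u n) (g := fun _ => 0)
    hu.continuousOn continuousOn_const HP_open.measurableSet
  have e : HP.piecewise (u n) (fun _ => 0) = U u n := Set.piecewise_eq_indicator
  rwa [e] at h

lemma U_lap {n : ℕ} {z : ℂ} (hz : z ∈ HP) : lap (U u n) z = lap (u n) z := by
  have h0 : U u n =ᶠ[𝓝 z] u n := by
    filter_upwards [HP_open.mem_nhds hz] with y hy using U_eq hy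
  have h1 : dx (U u n) =ᶠ[𝓝 z] dx (u n) := h0.fderiv.mono fun y hy => by
    unfold dx
    rw [hy]
  have h2 : dy (U u n) =ᶠ[𝓝 z] dy (u n) := h0.fderiv.mono fun y hy => by
    unfold dy
    rw [hy]
  have h3 : dx (dx (U u n)) z = dx (dx (u n)) z := by
    unfold dx at h1 ⊢
    rw [h1.fderiv_eq]
  have h4 : dy (dy (U u n)) z = dy (dy (u n)) z := by
    unfold dy at h2 ⊢
    rw [h2.fderiv_eq]
  unfold lap
  rw [h3, h4]

lemma U_loc {n : ℕ} {v z : ℂ} (hv : 1 / √(lam n) * ‖v‖ < 1) (hz : z ∈ HP) :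
    loc (lam n) (U u n) z v = loc (lam n) (u n) z v := by
  rw [loc_eq, loc_eq]
  exact U_eq (mv_mem (by positivity) hv hz)

lemma U_hyp (H : HypE Ω lam u) : HypE Ω lam (U u) where
  op := H.op
  sub := H.sub
  ne := H.ne
  int := H.int
  pos := H.pos
  lim := H.lim
  sm n := (H.sm n).congr fun z hz => U_eq hz
  eq n z hz := by
    rw [U_lap hz, U_eq hz]
    exact H.eq n z hz
  ms := by
    have hc : ∀ n, ∀ z ∈ Ω, U u n z ^ 2 / z.im ^ 2 = u n z ^ 2 / z.im ^ 2 := fun n z hz => by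
      rw [U_eq (H.sub hz)]
    refine ⟨fun n => (H.ms.1 n).congr_fun (fun z hz => (hc n z hz).symm) H.op.measurableSet, ?_⟩
    refine H.ms.2.congr fun n => ?_
    rw [setIntegral_congr_fun H.op.measurableSet fun z hz => hc n z hz]

lemma U_laws (H : HypE Ω lam u) {μ : Measure MW} (hL : LocalLaws Ω lam u μ) :
    LocalLaws Ω lam (U u) μ := by
  intro k w t
  refine (hL k w t).congr' ?_
  filter_upwards [eventually_all.2 fun j => small H ‖w j‖] with n hn
  congr 1
  unfold area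
  refine setIntegral_congr_fun H.op.measurableSet fun z hz => ?_
  have key : ∀ v : Fin k → ℂ, (∀ j, ‖v j‖ = ‖w j‖) →
      Complex.exp (I * ((∑ j, t j * loc (lam n) (u n) z (v j) : ℝ) : ℂ)) =
      Complex.exp (I * ((∑ j, t j * loc (lam n) (U u n) z (v j) : ℝ) : ℂ)) := by
    intro v hv
    congr 4
    funext j
    rw [U_loc (by rw [hv]; exact hn j) (H.sub hz)]
  have key2 : ∀ θ : ℝ, ∀ j, ‖Complex.exp (θ * I) * w j‖ = ‖w j‖ := fun θ j => by
    rw [norm_mul, Complex.norm_exp_ofReal_mul_I, one_mul]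
  have key3 : ∀ θ : ℝ, ∀ j, ‖Complex.exp (θ * I) * starRingEnd ℂ (w j)‖ = ‖w j‖ := fun θ j => by
    rw [norm_mul, Complex.norm_exp_ofReal_mul_I, one_mul, RCLike.norm_conj]
  simp only
  congr 1
  unfold frames
  congr 1
  congr 1
  funext θ
  exact congrArg₂ (· + ·) (key _ (key2 θ)) (key _ (key3 θ))

lemma U_T2 (H : HypE Ω lam u) {φ : ℂ → ℝ} (hφ : TF Ω φ) (v : ℂ) :
    ∀ᶠ n in atTop, T2 φ (lam n) (U u n) v = T2 φ (lam n) (u n) v := by
  filter_upwards [small H ‖v‖] with n hn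
  unfold T2
  congr 1
  funext z
  by_cases hz : z ∈ Ω
  · rw [U_eq (H.sub hz), U_eq (mv_mem (by positivity) hn (H.sub hz))]
  · rw [tf_zero hφ hz, zero_mul, zero_mul]

theorem TWO : S_FDD → S_UI → S_ERG0 → S_SH → S_EQ → S_TR → S_COV → S_TWO := by
  intro hFDD hUI hERG hSH hEQ hTR hCOV Ω lam u H μ hμ hL hs he h1 φ hφ v
  refine (two_meas hFDD hUI hERG hSH hEQ hTR hCOV (U_hyp H) (fun n => U_meas (H.sm n)) hμ
    (U_laws H hL) hs he h1 hφ v).congr' (U_T2 H hφ v)

end

end Pool.Agent.N755.QBTWO
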